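import Mathlib

set_option autoImplicit false

/-!
Few pairs of maps in `𝓜` have a coincidence outside `J`.

Proof. Union bound over the pairs `(ι, ι')` with not both in `J`. If `ι' ∉ J`, then for each `L ∈ 𝓜` there are at
most `|𝓜| / 2 ^ e1` maps `L' ∈ 𝓜` with `L' ι' = L ι`. If `ι ∉ J`, then for each `L' ∈ 𝓜` there are at most
`|𝓜| / 2 ^ e1` maps `L ∈ 𝓜` with `L ι = L' ι'`.
-/

namespace Pool.Agent.SQD

theorem bad_pairs {I E : Type} [AddCommGroup I] [Module (ZMod 2) I] [Finite I] [AddCommGroup E]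
    [Module (ZMod 2) E] [Finite E] (e1 : ℕ) (J : Submodule (ZMod 2) I)
    (𝓜 : Set (I →ₗ[ZMod 2] E))
    (h : ∀ ι, ι ∉ J → ∀ a : E, {L ∈ 𝓜 | L ι = a}.ncard * 2 ^ e1 ≤ 𝓜.ncard) :
    {q : (I →ₗ[ZMod 2] E) × (I →ₗ[ZMod 2] E) | q.1 ∈ 𝓜 ∧ q.2 ∈ 𝓜 ∧
      ∃ ι ι', q.1 ι = q.2 ι' ∧ ¬ (ι ∈ J ∧ ι' ∈ J)}.ncard * 2 ^ e1 ≤
        Nat.card I ^ 2 * 𝓜.ncard ^ 2 := by
  classical
  have hfin : Finite (I →ₗ[ZMod 2] E) := Finite.of_injective (fun f => (f : I → E)) DFunLike.coe_injective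
  haveI := Fintype.ofFinite (I →ₗ[ZMod 2] E)
  haveI := Fintype.ofFinite I
  set M : Finset (I →ₗ[ZMod 2] E) := 𝓜.toFinset with hM
  have hMc : 𝓜.ncard = M.card := Set.ncard_eq_toFinset_card' 𝓜
  have hMm : ∀ L, L ∈ M ↔ L ∈ 𝓜 := fun L => Set.mem_toFinset
  have h' : ∀ ι, ι ∉ J → ∀ a : E, (M.filter fun L => L ι = a).card * 2 ^ e1 ≤ M.card := by
    intro ι hι a
    have h1 := h ι hι a
    rw [hMc] at h1
    have h2 : {L ∈ 𝓜 | L ι = a}.ncard = (M.filter fun L => L ι = a).card := by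
      rw [← Set.ncard_coe_finset]
      congr 1
      ext L
      simp [hM]
    rwa [h2] at h1
  let P : I × I → Finset ((I →ₗ[ZMod 2] E) × (I →ₗ[ZMod 2] E)) := fun i =>
    (M ×ˢ M).filter fun q => q.1 i.1 = q.2 i.2
  have hP : ∀ i : I × I, ¬ (i.1 ∈ J ∧ i.2 ∈ J) → (P i).card * 2 ^ e1 ≤ M.card ^ 2 := by
    intro i hi
    by_cases h2 : i.2 ∈ J
    · have h1 : i.1 ∉ J := fun h1 => hi ⟨h1, h2⟩
      have e : (P i).card = ∑ L' ∈ M, (M.filter fun L => L i.1 = L' i.2).card := by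
        simp only [P, Finset.card_filter, Finset.sum_product_right]
      rw [e, Finset.sum_mul, pow_two, ← smul_eq_mul, ← Finset.sum_const]
      exact Finset.sum_le_sum fun L' _ => h' i.1 h1 (L' i.2)
    · have e : (P i).card = ∑ L ∈ M, (M.filter fun L' => L' i.2 = L i.1).card := by
        simp only [P, Finset.card_filter, Finset.sum_product]
        refine Finset.sum_congr rfl fun L _ => Finset.sum_congr rfl fun L' _ => ?_
        simp only [eq_comm]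
      rw [e, Finset.sum_mul, pow_two, ← smul_eq_mul, ← Finset.sum_const]
      exact Finset.sum_le_sum fun L _ => h' i.2 h2 (L i.1)
  set Bad : Finset (I × I) := Finset.univ.filter fun i => ¬ (i.1 ∈ J ∧ i.2 ∈ J) with hBad
  have hsub : {q : (I →ₗ[ZMod 2] E) × (I →ₗ[ZMod 2] E) | q.1 ∈ 𝓜 ∧ q.2 ∈ 𝓜 ∧
      ∃ ι ι', q.1 ι = q.2 ι' ∧ ¬ (ι ∈ J ∧ ι' ∈ J)} ⊆ ((Bad.biUnion P : Finset _) : Set _) := by
    rintro q ⟨h1, h2, ι, ι', h3, h4⟩
    rw [Finset.mem_coe, Finset.mem_biUnion]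
    refine ⟨(ι, ι'), Finset.mem_filter.2 ⟨Finset.mem_univ _, h4⟩, ?_⟩
    exact Finset.mem_filter.2 ⟨Finset.mem_product.2 ⟨(hMm _).2 h1, (hMm _).2 h2⟩, h3⟩
  have h1 := Set.ncard_le_ncard hsub (Finset.finite_toSet _)
  rw [Set.ncard_coe_finset] at h1
  calc _ ≤ (Bad.biUnion P).card * 2 ^ e1 := Nat.mul_le_mul_right _ h1
    _ ≤ (∑ i ∈ Bad, (P i).card) * 2 ^ e1 := Nat.mul_le_mul_right _ Finset.card_biUnion_le
    _ = ∑ i ∈ Bad, (P i).card * 2 ^ e1 := Finset.sum_mul _ _ _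
    _ ≤ ∑ _i ∈ Bad, M.card ^ 2 := Finset.sum_le_sum fun i hi => hP i (Finset.mem_filter.1 hi).2
    _ = Bad.card * M.card ^ 2 := by rw [Finset.sum_const, smul_eq_mul]
    _ ≤ Nat.card I ^ 2 * M.card ^ 2 := by
        apply Nat.mul_le_mul_right
        refine (Finset.card_le_univ _).trans ?_
        rw [Fintype.card_prod, ← Nat.card_eq_fintype_card, pow_two]
    _ = _ := by rw [hMc]

end Pool.Agent.SQD
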