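import Pool.Agent.SQD.Defs

set_option autoImplicit false

/-!
The block tree of a finite field. Points are the nonzero `p = (p₀, q)`, `q : Fin m → K`.

Proof. `vis t = {p | p₀ ≠ ∑ i, t i * q i}` and `blk j t s = {p | q j ≠ 0, q i = 0 for i > j, and
p₀ = ∑ i < j, t i * q i + s * q j}`. `dep`: clear. `sub`: for `s ≠ t j`,
`p₀ - ∑ i, t i * q i = (s - t j) * q j ≠ 0`. `total`: a point `p` not in `vis t` has `q ≠ 0` (otherwise
`p₀ = 0` and `p = 0`), so there is exactly one `j` (the largest index with `q j ≠ 0`) with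
`p ∈ blk j t (t j)`, while the points of `blk j t (t j)` are not in `vis t`. `disj`: `q j ≠ 0`
and the equation determine `s`. `ne`: the point with `q j = 1`, `q i = 0` otherwise, `p₀ = s`.
-/

namespace Pool.Agent.SQD

open Finset

section

variable {K : Type} [Field K] {m : ℕ}

/-- membership in a block -/
def bk (j : Fin m) (t : Fin m → K) (s : K) (p : K × (Fin m → K)) : Prop :=
  p.2 j ≠ 0 ∧ (∀ i, j < i → p.2 i = 0) ∧
    p.1 = ∑ i ∈ univ.filter (fun i => i < j), t i * p.2 i + s * p.2 j

theorem sum_split (j : Fin m) (t : Fin m → K) (q : Fin m → K) (hq : ∀ i, j < i → q i = 0) :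
    ∑ i, t i * q i = ∑ i ∈ univ.filter (fun i => i < j), t i * q i + t j * q j := by
  classical
  rw [← Finset.sum_filter_add_sum_filter_not univ (fun i => i < j)]
  congr 1
  rw [Finset.sum_eq_single j]
  · intro b hb hbj
    simp only [mem_filter, mem_univ, true_and, not_lt] at hb
    rw [hq b (lt_of_le_of_ne hb (Ne.symm hbj)), mul_zero]
  · intro h
    exact absurd (by simp) h

theorem bk_sub (j : Fin m) (t : Fin m → K) (s : K) (hs : s ≠ t j) (p : K × (Fin m → K))
    (h : bk j t s p) : p.1 ≠ ∑ i, t i * p.2 i := by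
  obtain ⟨h1, h2, h3⟩ := h
  rw [sum_split j t p.2 h2, h3]
  intro h
  have h4 : s * p.2 j = t j * p.2 j := add_left_cancel h
  exact hs (mul_right_cancel₀ h1 h4)

theorem bk_not_vis (j : Fin m) (t : Fin m → K) (p : K × (Fin m → K))
    (h : bk j t (t j) p) : p.1 = ∑ i, t i * p.2 i := by
  obtain ⟨h1, h2, h3⟩ := h
  rw [sum_split j t p.2 h2, h3]

theorem bk_uniq (j j' : Fin m) (t : Fin m → K) (s s' : K) (p : K × (Fin m → K))
    (h : bk j t s p) (h' : bk j' t s' p) : j = j' := by
  rcases lt_trichotomy j j' with hl | he | hl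
  · exact absurd (h.2.1 j' hl) h'.1
  · exact he
  · exact absurd (h'.2.1 j hl) h.1

theorem bk_exists (t : Fin m → K) (p : K × (Fin m → K)) (hp : p ≠ 0)
    (h : p.1 = ∑ i, t i * p.2 i) : ∃ j, bk j t (t j) p := by
  classical
  have hq : ∃ j, p.2 j ≠ 0 := by
    by_contra hcon
    push Not at hcon
    apply hp
    have h1 : p.1 = 0 := by
      rw [h]
      apply Finset.sum_eq_zero
      intro i _
      rw [hcon i, mul_zero]
    ext
    · exact h1
    · exact hcon _
  have hne : (univ.filter (fun j => p.2 j ≠ 0)).Nonempty := by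
    obtain ⟨j, hj⟩ := hq
    exact ⟨j, by simp [hj]⟩
  refine ⟨(univ.filter (fun j => p.2 j ≠ 0)).max' hne, ?_, ?_, ?_⟩
  · have := Finset.max'_mem _ hne
    simpa using this
  · intro i hi
    by_contra hne'
    have : i ≤ (univ.filter (fun j => p.2 j ≠ 0)).max' hne :=
      Finset.le_max' _ _ (by simp [hne'])
    exact absurd hi (not_lt.2 this)
  · rw [h]
    apply sum_split
    intro i hi
    by_contra hne'
    have : i ≤ (univ.filter (fun j => p.2 j ≠ 0)).max' hne :=
      Finset.le_max' _ _ (by simp [hne'])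
    exact absurd hi (not_lt.2 this)

end

theorem blockTree_exists (K : Type) [Field K] [Finite K] (m : ℕ)
    [Fintype {p : K × (Fin m → K) // p ≠ 0}] :
    ∃ T : BlockTree m K {p : K × (Fin m → K) // p ≠ 0}, ∀ t p,
      p ∈ T.vis t ↔ p.1.1 ≠ ∑ i, t i * p.1.2 i := by
  classical
  refine ⟨{
    blk := fun j t s => univ.filter (fun p => bk j t s p.1)
    vis := fun t => univ.filter (fun p => p.1.1 ≠ ∑ i, t i * p.1.2 i)
    dep := ?_
    sub := ?_
    total := ?_
    disj := ?_
    ne := ?_ }, ?_⟩
  · intro j t t' s h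
    ext p
    simp only [mem_filter, mem_univ, true_and]
    unfold bk
    have : ∑ i ∈ univ.filter (fun i => i < j), t i * p.1.2 i =
        ∑ i ∈ univ.filter (fun i => i < j), t' i * p.1.2 i := by
      apply Finset.sum_congr rfl
      intro i hi
      rw [h i (by simpa using hi)]
    rw [this]
  · intro j t s hs p hp
    simp only [mem_filter, mem_univ, true_and] at hp ⊢
    exact bk_sub j t s hs p.1 hp
  · intro t Z
    rw [← Finset.sum_filter_add_sum_filter_not univ
      (fun p : {p : K × (Fin m → K) // p ≠ 0} => p.1.1 ≠ ∑ i, t i * p.1.2 i)]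
    congr 1
    rw [← Finset.sum_biUnion]
    · apply Finset.sum_congr _ (fun _ _ => rfl)
      ext p
      simp only [mem_filter, mem_univ, true_and, mem_biUnion, not_not]
      constructor
      · intro h
        exact bk_exists t p.1 p.2 h
      · rintro ⟨j, hj⟩
        exact bk_not_vis j t p.1 hj
    · intro j _ j' _ hne
      rw [Function.onFun, Finset.disjoint_left]
      intro p hp hp'
      simp only [mem_filter, mem_univ, true_and] at hp hp'
      exact hne (bk_uniq j j' t _ _ p.1 hp hp')
  · intro j t s s' hs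
    rw [Finset.disjoint_left]
    intro p hp hp'
    simp only [mem_filter, mem_univ, true_and] at hp hp'
    apply hs
    have h1 := hp.2.2
    rw [hp'.2.2] at h1
    have h2 : s' * p.1.2 j = s * p.1.2 j := add_left_cancel h1
    exact (mul_right_cancel₀ hp.1 h2).symm
  · intro j t s
    refine ⟨⟨(s, Pi.single j 1), ?_⟩, ?_⟩
    · intro h
      have h1 := congrArg (fun q : K × (Fin m → K) => q.2 j) h
      simp at h1
    · simp only [mem_filter, mem_univ, true_and]
      refine ⟨by simp, ?_, ?_⟩
      · intro i hi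
        simp [(ne_of_gt hi)]
      · have : ∑ i ∈ univ.filter (fun i => i < j), t i * (Pi.single j (1 : K) : Fin m → K) i = 0 := by
          apply Finset.sum_eq_zero
          intro i hi
          have : i ≠ j := ne_of_lt (by simpa using hi)
          simp [this]
        simp [this]
  · intro t p
    simp

end Pool.Agent.SQD
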