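import Pool.Agent.SQD.Defs

set_option autoImplicit false

/-!
STUB. The subspaces `XL φ S L` have codimension at most `finrank I * finrank Z`.

Proof. `XL φ S L` contains the kernel of the linear map `x ↦ x ∘ₗ (φ.prod L)` into `I →ₗ[ZMod 2] Z`, which has
`2 ^ (finrank I * finrank Z)` elements (`Module.finrank_linearMap`, `Module.card_eq_pow_finrank`); so
`|X| ≤ |kernel| * |Hom (I, Z)|`.
-/

namespace Pool.Agent.SQD

open Module

theorem codim {I E Z : Type} [AddCommGroup I] [Module (ZMod 2) I] [Finite I] [AddCommGroup E]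
    [Module (ZMod 2) E] [Finite E] [AddCommGroup Z] [Module (ZMod 2) Z] [Finite Z]
    (φ : I →ₗ[ZMod 2] ZMod 2) (S : Submodule (ZMod 2) (I →ₗ[ZMod 2] Z)) (L : I →ₗ[ZMod 2] E) :
    Nat.card ((ZMod 2 × E) →ₗ[ZMod 2] Z) ≤
      2 ^ (finrank (ZMod 2) I * finrank (ZMod 2) Z) * Nat.card (XL φ S L) := by
  haveI : Finite (I →ₗ[ZMod 2] Z) := DFunLike.finite _
  haveI : Finite ((ZMod 2 × E) →ₗ[ZMod 2] Z) := DFunLike.finite _
  let T : ((ZMod 2 × E) →ₗ[ZMod 2] Z) →ₗ[ZMod 2] (I →ₗ[ZMod 2] Z) :=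
    { toFun := fun x => x ∘ₗ (φ.prod L)
      map_add' := fun x y => by rw [LinearMap.add_comp]
      map_smul' := fun a x => by rw [LinearMap.smul_comp]; rfl }
  have hker : LinearMap.ker T ≤ XL φ S L := by
    intro x hx
    have h : x ∘ₗ (φ.prod L) = 0 := hx
    change x ∘ₗ (φ.prod L) ∈ S
    rw [h]
    exact S.zero_mem
  have h1 : Nat.card (LinearMap.ker T) ≤ Nat.card (XL φ S L) :=
    Nat.card_le_card_of_injective (Submodule.inclusion hker) (Submodule.inclusion_injective hker)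
  have h2 : Nat.card ((ZMod 2 × E) →ₗ[ZMod 2] Z) =
      Nat.card (LinearMap.ker T) * Nat.card (LinearMap.range T) := by
    rw [Submodule.card_eq_card_quotient_mul_card (LinearMap.ker T),
      Nat.card_congr (LinearMap.quotKerEquivRange T).toEquiv]
  have h3 : Nat.card (LinearMap.range T) ≤ Nat.card (I →ₗ[ZMod 2] Z) :=
    Nat.card_le_card_of_injective _ (Submodule.injective_subtype _)
  haveI : Module.Finite (ZMod 2) I := Module.Finite.of_finite
  haveI : Module.Finite (ZMod 2) Z := Module.Finite.of_finite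
  have h4 : Nat.card (I →ₗ[ZMod 2] Z) =
      2 ^ (finrank (ZMod 2) I * finrank (ZMod 2) Z) := by
    rw [Module.natCard_eq_pow_finrank (K := ZMod 2), Module.finrank_linearMap, Nat.card_zmod]
  rw [h2, ← h4, mul_comm]
  exact Nat.mul_le_mul h3 h1

end Pool.Agent.SQD
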