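import Mathlib

set_option autoImplicit false

/-!
Hiding in `2 * g'` independent copies.

Proof. Let `A_i = {x | (i, x) ∈ A}`, `∑ i, |A_i| = |A| ≤ 2 * C * (2 * g' * w) ≤ g' * |X| / 10`. So fewer than
`g'` indices `i` have `10 * |A_i| > |X|` (if there were `g'` or more, `|A| > g' * |X| / 10`; here `1 ≤ g'`),
and at least `g'` (even `g' + 1`) indices have `10 * |A_i| ≤ |X|`. The set of the `Y : Fin (2 g') → L` is
a product set, with `i`-th factor `{y | ∀ b, smp y b ∈ A_i}`, whose proportion is at most `q ≤ 1` for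
at least `g'` indices and at most `1` for the others.
-/

namespace Pool.Agent.SQD

open Finset

private theorem copies_sum {n : ℕ} {X : Type} [Finite X] (A : Set (Fin n × X)) :
    ∑ i : Fin n, {x : X | (i, x) ∈ A}.ncard = A.ncard := by
  classical
  haveI := Fintype.ofFinite X
  have h1 : A.ncard = Nat.card A := rfl
  have h2 : Nat.card A = Nat.card (Σ i : Fin n, {x : X | (i, x) ∈ A}) := by
    apply Nat.card_congr
    exact
      { toFun := fun a => ⟨a.1.1, ⟨a.1.2, a.2⟩⟩
        invFun := fun a => ⟨(a.1, a.2.1), a.2.2⟩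
        left_inv := fun a => rfl
        right_inv := fun a => rfl }
  rw [h1, h2, Nat.card_sigma]
  rfl

theorem copies {g' w C : ℕ} {B X L : Type} [Finite B] [Finite X] [Finite L] (smp : L → B → X)
    (q : ℝ) (hq : 0 ≤ q) (hq1 : q ≤ 1) (hg : 1 ≤ g') (hw : 40 * C * w ≤ Nat.card X)
    (hide : ∀ A : Set X, 10 * A.ncard ≤ Nat.card X →
      ((Nat.card {Y : L // ∀ b, smp Y b ∈ A} : ℕ) : ℝ) ≤ q * (Nat.card L : ℝ))
    (A : Set (Fin (2 * g') × X)) (hA : A.ncard ≤ 2 * C * (2 * g' * w)) :
    ((Nat.card {Y : Fin (2 * g') → L // ∀ β : Fin (2 * g') × B,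
      (β.1, smp (Y β.1) β.2) ∈ A} : ℕ) : ℝ) ≤ q ^ g' * (Nat.card (Fin (2 * g') → L) : ℝ) := by
  classical
  -- the slices
  set As : Fin (2 * g') → Set X := fun i => {x : X | (i, x) ∈ A} with hAs
  have hsum : ∑ i, (As i).ncard = A.ncard := copies_sum A
  set Bad : Finset (Fin (2 * g')) := univ.filter (fun i => ¬ (10 * (As i).ncard ≤ Nat.card X))
    with hBad
  set Good : Finset (Fin (2 * g')) := univ.filter (fun i => 10 * (As i).ncard ≤ Nat.card X)
    with hGood
  have hGB : Good.card + Bad.card = 2 * g' := by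
    rw [hGood, hBad, Finset.card_filter_add_card_filter_not, Finset.card_univ, Fintype.card_fin]
  have hBadle : Bad.card ≤ g' := by
    have h1 : Bad.card * (Nat.card X + 1) ≤ 10 * A.ncard := by
      rw [← hsum, Finset.mul_sum]
      calc Bad.card * (Nat.card X + 1) = ∑ i ∈ Bad, (Nat.card X + 1) := by
            rw [Finset.sum_const, smul_eq_mul]
        _ ≤ ∑ i ∈ Bad, 10 * (As i).ncard := by
            apply Finset.sum_le_sum
            intro i hi
            have := (Finset.mem_filter.1 hi).2
            omega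
        _ ≤ ∑ i, 10 * (As i).ncard :=
            Finset.sum_le_sum_of_subset_of_nonneg (Finset.subset_univ _)
              (fun _ _ _ => Nat.zero_le _)
    have h2 : 10 * A.ncard ≤ g' * Nat.card X := by
      calc 10 * A.ncard ≤ 10 * (2 * C * (2 * g' * w)) := by omega
        _ = g' * (40 * C * w) := by ring
        _ ≤ g' * Nat.card X := Nat.mul_le_mul_left _ hw
    by_contra hcon
    push Not at hcon
    have h3 : g' * Nat.card X < Bad.card * (Nat.card X + 1) := by
      nlinarith [Nat.zero_le (Nat.card X)]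
    omega
  have hGoodge : g' ≤ Good.card := by omega
  -- the product structure
  have hcard : Nat.card {Y : Fin (2 * g') → L // ∀ β : Fin (2 * g') × B,
      (β.1, smp (Y β.1) β.2) ∈ A} = ∏ i : Fin (2 * g'), Nat.card {y : L // ∀ b, smp y b ∈ As i} := by
    rw [← Nat.card_pi]
    apply Nat.card_congr
    exact
      { toFun := fun Y i => ⟨Y.1 i, fun b => Y.2 (i, b)⟩
        invFun := fun Y => ⟨fun i => (Y i).1, fun β => (Y β.1).2 β.2⟩
        left_inv := fun Y => rfl
        right_inv := fun Y => rfl }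
  rw [hcard]
  push_cast
  have hle : ∀ i : Fin (2 * g'), ((Nat.card {y : L // ∀ b, smp y b ∈ As i} : ℕ) : ℝ) ≤
      (if i ∈ Good then q else 1) * (Nat.card L : ℝ) := by
    intro i
    by_cases hi : i ∈ Good
    · rw [if_pos hi]
      exact hide (As i) (Finset.mem_filter.1 hi).2
    · rw [if_neg hi, one_mul]
      have : Nat.card {y : L // ∀ b, smp y b ∈ As i} ≤ Nat.card L :=
        Nat.card_le_card_of_injective (fun y => y.1) Subtype.val_injective
      exact_mod_cast this
  calc ∏ i : Fin (2 * g'), ((Nat.card {y : L // ∀ b, smp y b ∈ As i} : ℕ) : ℝ)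
      ≤ ∏ i : Fin (2 * g'), ((if i ∈ Good then q else 1) * (Nat.card L : ℝ)) :=
        Finset.prod_le_prod (fun i _ => Nat.cast_nonneg _) (fun i _ => hle i)
    _ = q ^ Good.card * (Nat.card L : ℝ) ^ (2 * g') := by
        rw [Finset.prod_mul_distrib, Finset.prod_ite, Finset.prod_const, Finset.prod_const_one,
          mul_one, Finset.prod_const, Finset.card_univ, Fintype.card_fin]
        congr 2
        congr 1
        ext i
        simp
    _ ≤ q ^ g' * (Nat.card L : ℝ) ^ (2 * g') := by
        apply mul_le_mul_of_nonneg_right _ (by positivity)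
        exact pow_le_pow_of_le_one hq hq1 hGoodge
    _ = q ^ g' * (Nat.card (Fin (2 * g') → L) : ℝ) := by
        rw [Nat.card_fun, Nat.card_eq_fintype_card (α := Fin (2 * g')), Fintype.card_fin]
        push_cast
        rfl

end Pool.Agent.SQD
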