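import Mathlib

set_option autoImplicit false

/-!
Final numerical inequality.

Proof. Let `T = e1 * Dz`. Since `0 < x ≤ 2 ^ (24 T)`, `x ^ (-c) ≥ 2 ^ (-24 c T)`. First summand:
`2 * (2 / 2 ^ (d e1)) ^ Dz = 2 ^ (1 + Dz - d T)` and with `d = 24 c + 8`: `1 + Dz - (24 c + 8) T ≤ -1 - 24 c T`, as
`2 + Dz ≤ 8 T`. Second summand: `8 * (2 Dz * d * 2 ^ (h d)) / 2 ^ (2 ^ h) ≤ 2 ^ (4 + Dz + d + h d - 2 ^ h) ≤ 2 ^ (-1 - 24 c T)`
by `hgrow`.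
-/

namespace Pool.Agent.SQD

theorem param_final (c d h Dz e1 : ℕ) (hd : d = 24 * c + 8) (hDz : 1 ≤ Dz) (he1 : 1 ≤ e1)
    (hgrow : 24 * c * (e1 * Dz) + h * d + 5 + Dz + d ≤ 2 ^ h) (x : ℝ) (hx : 0 < x)
    (hx' : x ≤ 2 ^ (24 * (e1 * Dz))) :
    2 * ((2 : ℝ) / 2 ^ (d * e1)) ^ Dz +
      8 * (((2 * Dz : ℕ) : ℝ) * d * ((2 : ℝ) ^ h) ^ d / 2 ^ (2 ^ h)) ≤ x ^ (-(c : ℝ)) := by
  set T := e1 * Dz with hT
  have hDT : Dz ≤ T := by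
    calc Dz = 1 * Dz := (one_mul _).symm
      _ ≤ e1 * Dz := Nat.mul_le_mul he1 le_rfl
  have hx1 : (1 : ℝ) / 2 ^ (24 * T * c) ≤ x ^ (-(c : ℝ)) := by
    have h1 := Real.rpow_le_rpow_of_nonpos hx hx' (neg_nonpos.2 (Nat.cast_nonneg c))
    refine le_trans (le_of_eq ?_) h1
    rw [Real.rpow_neg (by positivity), Real.rpow_natCast, ← pow_mul, one_div]
  have h1 : 2 * ((2 : ℝ) / 2 ^ (d * e1)) ^ Dz ≤ 1 / 2 * (1 / 2 ^ (24 * T * c)) := by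
    rw [div_pow, ← pow_mul, ← mul_div_assoc, div_le_iff₀ (by positivity)]
    have h2 : d * e1 * Dz = 24 * T * c + 8 * T := by
      rw [hd, hT]; ring
    rw [h2, pow_add]
    have h3 : (1 : ℝ) / 2 * (1 / 2 ^ (24 * T * c)) * (2 ^ (24 * T * c) * 2 ^ (8 * T)) =
        1 / 2 * 2 ^ (8 * T) := by
      field_simp
    rw [h3]
    have h4 : (2 : ℝ) ^ (Dz + 2) ≤ 2 ^ (8 * T) :=
      pow_le_pow_right₀ (by norm_num) (by omega)
    rw [pow_add] at h4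
    linarith
  have h2 : 8 * (((2 * Dz : ℕ) : ℝ) * d * ((2 : ℝ) ^ h) ^ d / 2 ^ (2 ^ h)) ≤
      1 / 2 * (1 / 2 ^ (24 * T * c)) := by
    rw [← mul_div_assoc, div_le_iff₀ (by positivity)]
    have h3 : (2 : ℝ) ^ (24 * T * c + (h * d + 5 + Dz + d)) ≤ 2 ^ (2 ^ h) := by
      refine pow_le_pow_right₀ (by norm_num) ?_
      have : 24 * T * c = 24 * c * T := by ring
      omega
    have h4 : 1 / 2 * (1 / 2 ^ (24 * T * c)) * (2 : ℝ) ^ (24 * T * c + (h * d + 5 + Dz + d)) ≤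
        1 / 2 * (1 / 2 ^ (24 * T * c)) * 2 ^ (2 ^ h) := by
      exact mul_le_mul_of_nonneg_left h3 (by positivity)
    refine le_trans ?_ h4
    rw [pow_add]
    have h5 : (1 : ℝ) / 2 * (1 / 2 ^ (24 * T * c)) * (2 ^ (24 * T * c) *
        2 ^ (h * d + 5 + Dz + d)) = 1 / 2 * 2 ^ (h * d + 5 + Dz + d) := by
      field_simp
    rw [h5, ← pow_mul]
    have h6 : (Dz : ℝ) ≤ 2 ^ Dz := by
      exact_mod_cast Nat.lt_two_pow_self.le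
    have h7 : (d : ℝ) ≤ 2 ^ d := by
      exact_mod_cast Nat.lt_two_pow_self.le
    have h8 : (Dz : ℝ) * d ≤ 2 ^ Dz * 2 ^ d := mul_le_mul h6 h7 (by positivity) (by positivity)
    have h9 : (2 : ℝ) ^ (h * d + 5 + Dz + d) = 32 * (2 ^ Dz * 2 ^ d * 2 ^ (h * d)) := by
      rw [pow_add, pow_add, pow_add]; ring
    rw [h9]
    push_cast
    have h10 := mul_le_mul_of_nonneg_right h8 (show (0 : ℝ) ≤ 2 ^ (h * d) by positivity)
    linarith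
  linarith

end Pool.Agent.SQD
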