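import Mathlib

set_option autoImplicit false

/-!
`2 ^ h` beats any polynomial in `h`.
-/

namespace Pool.Agent.SQD

theorem param_grow (c C d : ℕ) :
    ∃ h : ℕ, 1 ≤ h ∧ ∀ e0 r Dz e1 : ℕ, e0 = (d + 1) * h → r = e0 + h + C + 6 →
      Dz = h * r * (e0 + 1) ^ d → e1 = 2 * e0 + e0 * Dz →
      24 * c * (e1 * Dz) + h * d + 5 + Dz + d ≤ 2 ^ h := by
  -- bounds by a constant times a power of `h`
  set K : ℕ := (d + C + 8) * (d + 2) ^ d with hK
  set A : ℕ := 24 * c * (3 * (d + 1) * K * K) + d + 5 + K + d with hA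
  set B : ℕ := 2 * d + 5 with hB
  have hlim : Filter.Tendsto (fun n : ℕ => (n : ℝ) ^ B / (2 : ℝ) ^ n) Filter.atTop (nhds 0) :=
    tendsto_pow_const_div_const_pow_of_one_lt B (by norm_num)
  have hev : ∀ᶠ n : ℕ in Filter.atTop, (n : ℝ) ^ B / (2 : ℝ) ^ n < 1 / ((A : ℝ) + 1) :=
    hlim.eventually_lt_const (by positivity)
  obtain ⟨h, hh1, hh2⟩ := (hev.and (Filter.eventually_ge_atTop 1)).exists
  refine ⟨h, hh2, ?_⟩
  intro e0 r Dz e1 he0 hr hDz he1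
  have hmain : A * h ^ B ≤ 2 ^ h := by
    have h2 : (0 : ℝ) < 2 ^ h := by positivity
    have h3 : (0 : ℝ) < (A : ℝ) + 1 := by positivity
    rw [div_lt_div_iff₀ h2 h3, one_mul] at hh1
    have h4 : (A : ℝ) * (h : ℝ) ^ B ≤ (2 : ℝ) ^ h := by
      have h5 : (0 : ℝ) ≤ (h : ℝ) ^ B := by positivity
      nlinarith
    exact_mod_cast h4
  refine le_trans ?_ hmain
  have hr' : r ≤ (d + C + 8) * h := by
    rw [hr, he0]
    have : C + 6 ≤ (C + 6) * h := Nat.le_mul_of_pos_right _ hh2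
    nlinarith
  have hp : (e0 + 1) ^ d ≤ (d + 2) ^ d * h ^ d := by
    rw [← Nat.mul_pow]
    apply Nat.pow_le_pow_left
    rw [he0]
    nlinarith
  have hD : Dz ≤ K * h ^ (d + 2) := by
    rw [hDz, hK]
    calc h * r * (e0 + 1) ^ d ≤ h * ((d + C + 8) * h) * ((d + 2) ^ d * h ^ d) :=
          Nat.mul_le_mul (Nat.mul_le_mul_left _ hr') hp
      _ = (d + C + 8) * (d + 2) ^ d * h ^ (d + 2) := by ring
  have hK1 : 1 ≤ K := by
    rw [hK]
    exact Nat.mul_pos (by omega) (by positivity)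
  have hpow : ∀ a b : ℕ, a ≤ b → h ^ a ≤ h ^ b := fun a b hab => Nat.pow_le_pow_right hh2 hab
  have hone : 1 ≤ h ^ (d + 2) := Nat.one_le_pow _ _ hh2
  have he : e1 ≤ 3 * (d + 1) * K * h ^ (d + 3) := by
    have h1 : e0 ≤ (d + 1) * h := by rw [he0]
    have h2 : 2 * e0 ≤ 2 * ((d + 1) * h) * (K * h ^ (d + 2)) := by
      have : 1 ≤ K * h ^ (d + 2) := Nat.mul_pos hK1 hone
      calc 2 * e0 ≤ 2 * ((d + 1) * h) := by omega
        _ = 2 * ((d + 1) * h) * 1 := by ring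
        _ ≤ _ := Nat.mul_le_mul_left _ this
    have h3 : e0 * Dz ≤ (d + 1) * h * (K * h ^ (d + 2)) := Nat.mul_le_mul h1 hD
    calc e1 = 2 * e0 + e0 * Dz := he1
      _ ≤ 2 * ((d + 1) * h) * (K * h ^ (d + 2)) + (d + 1) * h * (K * h ^ (d + 2)) :=
          Nat.add_le_add h2 h3
      _ = 3 * (d + 1) * K * h ^ (d + 3) := by ring
  have hED : e1 * Dz ≤ 3 * (d + 1) * K * K * h ^ B := by
    calc e1 * Dz ≤ (3 * (d + 1) * K * h ^ (d + 3)) * (K * h ^ (d + 2)) := Nat.mul_le_mul he hD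
      _ = 3 * (d + 1) * K * K * h ^ B := by rw [hB]; ring
  have hB1 : 1 ≤ h ^ B := Nat.one_le_pow _ _ hh2
  have hB2 : h ≤ h ^ B := by
    calc h = h ^ 1 := (pow_one h).symm
      _ ≤ h ^ B := hpow 1 B (by omega)
  have hB3 : h ^ (d + 2) ≤ h ^ B := hpow _ _ (by omega)
  have t1 : 24 * c * (e1 * Dz) ≤ 24 * c * (3 * (d + 1) * K * K) * h ^ B := by
    calc 24 * c * (e1 * Dz) ≤ 24 * c * (3 * (d + 1) * K * K * h ^ B) := Nat.mul_le_mul_left _ hED
      _ = _ := by ring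
  have t2 : h * d ≤ d * h ^ B := by
    rw [mul_comm]; exact Nat.mul_le_mul_left _ hB2
  have t3 : 5 ≤ 5 * h ^ B := by omega
  have t4 : Dz ≤ K * h ^ B := hD.trans (Nat.mul_le_mul_left _ hB3)
  have t5 : d ≤ d * h ^ B := Nat.le_mul_of_pos_right _ hB1
  calc 24 * c * (e1 * Dz) + h * d + 5 + Dz + d
      ≤ 24 * c * (3 * (d + 1) * K * K) * h ^ B + d * h ^ B + 5 * h ^ B + K * h ^ B + d * h ^ B := by
        omega
    _ = A * h ^ B := by rw [hA]; ring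

end Pool.Agent.SQD
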