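import Mathlib

set_option autoImplicit false

/-!
Size of `R log n`.

Proof. Write `T = e1 * Dz ≥ 7` and `a = 1 + 2 * Dz * m * h + 4 * e1 * Dz`, so `R = 2 ^ a` and
`a ≤ 1 + 2 * e1 + 4 * T` by `he1`. `log n ≤ log₂ n ≤ a + (2 * Dz * w + 1) * log₂ p` and
`log₂ p ≤ 1 + C * a + (Dz + (2 * e1 + 1) * Dz) ≤ 9 * C * T` (`2 * Dz ≤ 2 ^ Dz`), and
`2 * Dz * w * 9 * C * T ≤ Dz * T * 2 ^ ((2 * e1 + 1) * Dz)` because `18 * C ≤ 2 ^ (C + 6)`; so everything is crude: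
`log₂ n ≤ 2 * Dz * T * 2 ^ ((2 * e1 + 1) * Dz)`, hence `R * log n ≤ 2 ^ (1 + 2 * e1 + 4 * T + 1 + 2 * T + Dz) * Dz * T` and
`Dz * T ≤ 2 ^ Dz * 2 ^ T`, with a total exponent at most `2 + 2 T + 4 T + 2 T + T + T + T ≤ 24 * T`.
(`Real.log x ≤ Real.logb 2 x` for `x ≥ 1`, as `log 2 < 1`; or bound `Real.log` of each factor directly, using
`Real.log (2 ^ k) = k * log 2 ≤ k`.)
-/

namespace Pool.Agent.SQD

theorem param_log (C m h Dz e1 w R n p : ℕ) (hC : 1 ≤ C) (hDz : C + 6 ≤ Dz)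
    (he1 : m * h * Dz ≤ e1) (he1' : 1 ≤ e1)
    (hw : w * 2 ^ (C + 6) ≤ 2 ^ ((2 * e1 + 1) * Dz))
    (hR : R = 2 * (2 ^ h) ^ (2 * Dz * m) * (2 ^ (2 * e1)) ^ (2 * Dz)) (hn : 1 ≤ n)
    (hn' : n ≤ R * p ^ (2 * Dz * w + 1))
    (hp : p ≤ 2 * max (R ^ C) (2 * Dz * 2 ^ ((2 * e1 + 1) * Dz))) :
    (R : ℝ) * Real.log n ≤ 2 ^ (24 * (e1 * Dz)) := by
  set T := e1 * Dz with hT
  have hDT : Dz ≤ T := by
    calc Dz = 1 * Dz := (one_mul _).symm
      _ ≤ e1 * Dz := Nat.mul_le_mul he1' le_rfl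
  have heT : e1 ≤ T := by
    calc e1 = e1 * 1 := (mul_one _).symm
      _ ≤ e1 * Dz := Nat.mul_le_mul le_rfl (by omega)
  have hT7 : 7 ≤ T := by omega
  have hCT : C ≤ T := by omega
  have hCT1 : T ≤ C * T := by
    calc T = 1 * T := (one_mul _).symm
      _ ≤ C * T := Nat.mul_le_mul hC le_rfl
  set a := 1 + 2 * (m * h * Dz) + 4 * T with ha
  have hRa : R = 2 ^ a := by
    have h1 : h * (2 * Dz * m) = 2 * (m * h * Dz) := by ring
    have h2 : 2 * e1 * (2 * Dz) = 4 * T := by rw [hT]; ring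
    rw [hR, ha, ← pow_mul, ← pow_mul, h1, h2, pow_add, pow_add, pow_one]
  have ha6 : a ≤ 1 + 6 * T := by omega
  have hpb : p ≤ 2 ^ (11 * (C * T)) := by
    refine le_trans hp ?_
    have h1 : R ^ C ≤ 2 ^ (7 * (C * T)) := by
      rw [hRa, ← pow_mul]
      refine Nat.pow_le_pow_right (by norm_num) ?_
      calc a * C ≤ (7 * T) * C := Nat.mul_le_mul (by omega) le_rfl
        _ = 7 * (C * T) := by ring
    have h2 : 2 * Dz * 2 ^ ((2 * e1 + 1) * Dz) ≤ 2 ^ (1 + Dz + (2 * T + Dz)) := by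
      have h3 : (2 * e1 + 1) * Dz = 2 * T + Dz := by rw [hT]; ring
      rw [h3, pow_add 2 (1 + Dz)]
      refine Nat.mul_le_mul ?_ le_rfl
      rw [pow_add, pow_one]
      exact Nat.mul_le_mul le_rfl Nat.lt_two_pow_self.le
    have h4 : max (R ^ C) (2 * Dz * 2 ^ ((2 * e1 + 1) * Dz)) ≤ 2 ^ (10 * (C * T)) := by
      refine max_le (le_trans h1 (Nat.pow_le_pow_right (by norm_num) (by omega)))
        (le_trans h2 (Nat.pow_le_pow_right (by norm_num) (by omega)))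
    calc 2 * max (R ^ C) (2 * Dz * 2 ^ ((2 * e1 + 1) * Dz)) ≤ 2 * 2 ^ (10 * (C * T)) :=
          Nat.mul_le_mul le_rfl h4
      _ = 2 ^ (10 * (C * T) + 1) := by rw [pow_succ]; ring
      _ ≤ 2 ^ (11 * (C * T)) := Nat.pow_le_pow_right (by norm_num) (by omega)
  set Ex := a + 11 * (C * T) * (2 * Dz * w + 1) with hEx
  have hnE : n ≤ 2 ^ Ex := by
    have h1 : p ^ (2 * Dz * w + 1) ≤ 2 ^ (11 * (C * T) * (2 * Dz * w + 1)) := by
      rw [pow_mul]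
      exact Nat.pow_le_pow_left hpb _
    have h2 : (2 : ℕ) ^ Ex = 2 ^ a * 2 ^ (11 * (C * T) * (2 * Dz * w + 1)) := by
      rw [hEx, pow_add]
    rw [h2, ← hRa]
    exact le_trans hn' (Nat.mul_le_mul le_rfl h1)
  have hlog : Real.log n ≤ Ex := by
    have h1 : (n : ℝ) ≤ 2 ^ Ex := by exact_mod_cast hnE
    have h2 := Real.log_le_log (by exact_mod_cast hn) h1
    rw [Real.log_pow] at h2
    have h3 : Real.log 2 ≤ 1 := by linarith [Real.log_two_lt_d9]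
    calc Real.log n ≤ Ex * Real.log 2 := h2
      _ ≤ Ex * 1 := mul_le_mul_of_nonneg_left h3 (Nat.cast_nonneg _)
      _ = Ex := mul_one _
  have hw3 : w ≤ 2 ^ (3 * T) := by
    calc w = w * 1 := (mul_one _).symm
      _ ≤ w * 2 ^ (C + 6) := Nat.mul_le_mul le_rfl Nat.one_le_two_pow
      _ ≤ 2 ^ ((2 * e1 + 1) * Dz) := hw
      _ ≤ 2 ^ (3 * T) := by
          refine Nat.pow_le_pow_right (by norm_num) ?_
          have h3 : (2 * e1 + 1) * Dz = 2 * T + Dz := by rw [hT]; ring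
          omega
  have hE7 : Ex ≤ 2 ^ (7 * T) := by
    set v := 2 ^ T with hv
    have hTv : T ≤ v := Nat.lt_two_pow_self.le
    have hv128 : 128 ≤ v := by
      calc 128 = 2 ^ 7 := by norm_num
        _ ≤ 2 ^ T := Nat.pow_le_pow_right (by norm_num) hT7
    have hw3' : w ≤ v ^ 3 := by rw [hv, ← pow_mul, mul_comm T 3]; exact hw3
    have h1 : 11 * (C * T) * (2 * Dz * w + 1) ≤ 11 * (v * v) * (2 * v * v ^ 3 + 1) := by
      refine Nat.mul_le_mul (Nat.mul_le_mul le_rfl (Nat.mul_le_mul (hCT.trans hTv) hTv)) ?_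
      refine Nat.add_le_add_right (Nat.mul_le_mul (Nat.mul_le_mul le_rfl (hDT.trans hTv)) hw3') 1
    have h2 : Ex ≤ 1 + 6 * v + 11 * (v * v) * (2 * v * v ^ 3 + 1) := by
      rw [hEx]
      omega
    refine le_trans h2 ?_
    rw [mul_comm 7 T, pow_mul, ← hv]
    have h3 : 1 ≤ v ^ 6 := Nat.one_le_pow _ _ (by omega)
    have h4 : v ≤ v ^ 6 := Nat.le_self_pow (by norm_num) _
    have h5 : v ^ 2 ≤ v ^ 6 := Nat.pow_le_pow_right (by omega) (by norm_num)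
    calc 1 + 6 * v + 11 * (v * v) * (2 * v * v ^ 3 + 1) = 1 + 6 * v + 11 * v ^ 2 + 22 * v ^ 6 := by
          ring
      _ ≤ v ^ 6 + 6 * v ^ 6 + 11 * v ^ 6 + 22 * v ^ 6 := by omega
      _ = 40 * v ^ 6 := by ring
      _ ≤ v * v ^ 6 := Nat.mul_le_mul (by omega) le_rfl
      _ = v ^ 7 := by ring
  have hfin : (R : ℝ) * Real.log n ≤ 2 ^ (1 + 6 * T) * 2 ^ (7 * T) := by
    refine mul_le_mul ?_ (hlog.trans ?_) (Real.log_nonneg (by exact_mod_cast hn)) (by positivity)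
    · rw [hRa]
      push_cast
      exact pow_le_pow_right₀ (by norm_num) ha6
    · exact_mod_cast hE7
  refine hfin.trans ?_
  rw [← pow_add]
  exact pow_le_pow_right₀ (by norm_num) (by omega)

end Pool.Agent.SQD
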