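import Pool.Agent.SQD.Defs

set_option autoImplicit false

/-!
STUB. An `F₂`-subspace of dimension at most `m` of `K × K ^ m` is orthogonal to a nonzero point.

Proof. The `K`-span of an `F₂`-basis of `J` (at most `m` vectors) is a proper subspace of the
`K`-space `K × (Fin m → K)` of dimension `m + 1`. Or: the `K`-linear map `p ↦ (pr (x n) p)_n` from
`K × (Fin m → K)` (dimension `m + 1`) to `Fin (finrank J) → K`, where `x n` is an `F₂`-basis of `J`, is not
injective (`LinearMap.exists_ne_zero_of...`/`finrank` inequality), so there is `p ≠ 0` with `pr (x n) p = 0`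
for all `n`; and `pr` is additive in the first variable, hence `F₂`-linear (`Submodule.span_induction`).
-/

namespace Pool.Agent.SQD

open Finset

theorem kspan {K : Type} [Field K] [Finite K] [Algebra (ZMod 2) K] {m : ℕ}
    (J : Submodule (ZMod 2) (K × (Fin m → K))) (hJ : Module.finrank (ZMod 2) J ≤ m) :
    ∃ p : K × (Fin m → K), p ≠ 0 ∧ ∀ ι ∈ J, pr ι p = 0 := by
  have : Module.Finite (ZMod 2) (K × (Fin m → K)) := Module.Finite.of_finite
  have : Module.Finite (ZMod 2) J := inferInstance
  let b := Module.finBasis (ZMod 2) J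
  -- additivity in the first variable
  have hadd : ∀ p ι ι' : K × (Fin m → K), pr (ι + ι') p = pr ι p + pr ι' p := by
    intro p ι ι'
    simp only [pr, Prod.fst_add, Prod.snd_add, Pi.add_apply, add_mul, sum_add_distrib]
    ring
  have hadd2 : ∀ ι p p' : K × (Fin m → K), pr ι (p + p') = pr ι p + pr ι p' := by
    intro p ι ι'
    simp only [pr, Prod.fst_add, Prod.snd_add, Pi.add_apply, mul_add, sum_add_distrib]
    ring
  have hsmul2 : ∀ (c : K) (ι p : K × (Fin m → K)), pr ι (c • p) = c * pr ι p := by
    intro c ι p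
    simp only [pr, Prod.smul_fst, Prod.smul_snd, Pi.smul_apply, smul_eq_mul, mul_sub, mul_sum]
    congr 1
    · ring
    · exact sum_congr rfl fun i _ => by ring
  let Φ : (K × (Fin m → K)) →ₗ[K] (Fin (Module.finrank (ZMod 2) J) → K) :=
    { toFun := fun p n => pr (b n : K × (Fin m → K)) p
      map_add' := fun p p' => by
        ext n
        exact hadd2 _ _ _
      map_smul' := fun c p => by
        ext n
        exact hsmul2 _ _ _ }
  have hker : LinearMap.ker Φ ≠ ⊥ := by
    apply LinearMap.ker_ne_bot_of_finrank_lt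
    rw [Module.finrank_prod, Module.finrank_self, Module.finrank_fintype_fun_eq_card,
      Module.finrank_fintype_fun_eq_card, Fintype.card_fin, Fintype.card_fin]
    omega
  obtain ⟨p, hp, hp0⟩ := Submodule.exists_mem_ne_zero_of_ne_bot hker
  refine ⟨p, hp0, ?_⟩
  let ψ0 : (K × (Fin m → K)) →+ K :=
    { toFun := fun ι => pr ι p
      map_zero' := by simp [pr]
      map_add' := fun ι ι' => hadd p ι ι' }
  let ψ : (K × (Fin m → K)) →ₗ[ZMod 2] K := ψ0.toZModLinearMap 2
  have hψ : ψ ∘ₗ J.subtype = 0 := by
    apply b.ext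
    intro n
    have h1 : Φ p = 0 := hp
    exact congrFun h1 n
  intro ι hι
  have h2 := LinearMap.congr_fun hψ ⟨ι, hι⟩
  exact h2

end Pool.Agent.SQD
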