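import Pool.Agent.SQD.Gadget
import Pool.Agent.SQD.KSpan

set_option autoImplicit false

/-!
For every subspace `J` of dimension at most `d ≤ m` there is a point `p` such that every linear map
on `J` extends to an element of the gadget space of `p`.

Proof. Take `p` from `kspan`. For each `k : Fin h` the functional `y_k ι = bK.repr (pr ι p) k` is `F₂`-linear
(`pr` is additive in `ι`) and vanishes on `J`. For each `(k, i)` apply `gadget` to `y_k` and to
`LinearMap.proj (k, i) ∘ₗ mJ`; put the components together with `LinearMap.pi`.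
-/

namespace Pool.Agent.SQD

open Finset

/-- the pairing with `p` as a linear map over `F₂` -/
noncomputable def prL {K : Type} [Field K] [Algebra (ZMod 2) K] {m : ℕ}
    (p : K × (Fin m → K)) : (K × (Fin m → K)) →ₗ[ZMod 2] K where
  toFun ι := pr ι p
  map_add' a b := by
    simp only [pr, Prod.fst_add, Prod.snd_add, Pi.add_apply, add_mul, Finset.sum_add_distrib]
    ring
  map_smul' a x := by
    simp only [pr, Prod.smul_fst, Prod.smul_snd, Pi.smul_apply, RingHom.id_apply, smul_sub,
      Finset.smul_sum, smul_mul_assoc]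

theorem gprime {K : Type} [Field K] [Finite K] [Algebra (ZMod 2) K] {m h r d : ℕ} {κ : Type}
    [Fintype κ] (b : Module.Basis κ (ZMod 2) (K × (Fin m → K)))
    (bK : Module.Basis (Fin h) (ZMod 2) K) (hd : d ≤ m)
    (J : Submodule (ZMod 2) (K × (Fin m → K))) (hJ : Module.finrank (ZMod 2) J ≤ d) :
    ∃ p : {p : K × (Fin m → K) // p ≠ 0}, ∀ mJ : J →ₗ[ZMod 2] (Fin h × Fin r → Pol κ d),
      ∃ M ∈ (Gad b bK p.1 : Submodule (ZMod 2)
        ((K × (Fin m → K)) →ₗ[ZMod 2] (Fin h × Fin r → Pol κ d))), M.domRestrict J = mJ := by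
  classical
  obtain ⟨p, hp, hpJ⟩ := kspan J (hJ.trans hd)
  refine ⟨⟨p, hp⟩, fun mJ => ?_⟩
  have hcomp : ∀ ki : Fin h × Fin r, ∃ M : (K × (Fin m → K)) →ₗ[ZMod 2] Pol κ d,
      M.domRestrict J = (LinearMap.proj ki).comp mJ ∧
        ∀ ι, ((bK.coord ki.1).comp (prL p)) ι = 1 → ev b ι (M ι) = 0 := by
    intro ki
    apply gadget b J hJ ((bK.coord ki.1).comp (prL p))
    intro x hx
    have : prL p x = 0 := hpJ x hx
    simp [this]
  choose M hM hM' using hcomp
  refine ⟨LinearMap.pi M, ?_, ?_⟩
  · intro k i ι hk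
    exact hM' (k, i) ι hk
  · ext1 x
    funext ki
    have := LinearMap.congr_fun (hM ki) x
    simpa using this

end Pool.Agent.SQD
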