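import Mathlib

set_option autoImplicit false

/-!
Hiding in one copy.

Proof. Count the pairs `(L, x)` of the left set by `L`: for fixed `L` the number of the `x` is
`∏ p, #{x | π L p x ∈ A} ^ (8 d e1)`. For the `L` in the exceptional set of `hA` use the trivial bound
`|X| ^ (|P| * 8 d e1)`: together at most `|Λ| * |X| ^ _ / 2 ^ (d e1)`. For the other `L` there is `p` with
`10 |A ∩ N L p| < 9 |N L p|`, so `#{x | π L p x ∈ A} ≤ 0.9 |X|` by `hπ` and `hN`, and the number is at
most `0.9 ^ (8 d e1) * |X| ^ _`, where `0.9 ^ 8 ≤ 1 / 2`.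
-/

namespace Pool.Agent.SQD

private lemma oneCopy_count {P X : Type} [Fintype P] [Finite X] (s : ℕ) (q : P → X → Prop) :
    Nat.card {x : P × Fin s → X // ∀ b, q b.1 (x b)} = ∏ p, Nat.card {y : X // q p y} ^ s := by
  have e := Equiv.subtypePiEquivPi (α := P × Fin s) (β := fun _ => X)
    (p := fun b y => q b.1 y)
  rw [Nat.card_congr e, Nat.card_pi, Fintype.prod_prod_type]
  simp

private lemma oneCopy_pow (n : ℕ) : 9 ^ (8 * n) * 2 ^ n ≤ 10 ^ (8 * n) := by
  rw [pow_mul, pow_mul, ← mul_pow]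
  exact Nat.pow_le_pow_left (by norm_num) n

theorem one_copy {Λ P X : Type} [Finite Λ] [Finite P] [Finite X] (d e1 : ℕ)
    (N : Λ → P → Set X) (π : Λ → P → X → X)
    (hπ : ∀ L p (A : Set X), {x | π L p x ∈ A}.ncard * (N L p).ncard =
      (A ∩ N L p).ncard * Nat.card X)
    (hN : ∀ L p, (N L p).Nonempty) (A : Set X)
    (hA : {L : Λ | ∀ p, 9 * (N L p).ncard ≤ 10 * (A ∩ N L p).ncard}.ncard * 2 ^ (d * e1) ≤
      Nat.card Λ) :
    Nat.card {Y : Λ × (P × Fin (8 * d * e1) → X) // ∀ b : P × Fin (8 * d * e1),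
      π Y.1 b.1 (Y.2 b) ∈ A} * 2 ^ (d * e1) ≤
        2 * Nat.card (Λ × (P × Fin (8 * d * e1) → X)) := by
  classical
  have := Fintype.ofFinite Λ
  have := Fintype.ofFinite P
  have := Fintype.ofFinite X
  set s := 8 * d * e1 with hs
  set W := Nat.card X ^ (Fintype.card P * s) with hW
  set n := d * e1 with hn
  have hsn : s = 8 * n := by rw [hs, hn]; ring
  -- the total
  have hcardfun : Nat.card (P × Fin s → X) = W := by
    rw [Nat.card_fun, hW]
    congr 1
    simp [Nat.card_eq_fintype_card]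
  -- the number for fixed L
  set F : Λ → ℕ := fun L => ∏ p, Nat.card {y : X // π L p y ∈ A} ^ s with hF
  have hsum : Nat.card {Y : Λ × (P × Fin s → X) // ∀ b : P × Fin s,
      π Y.1 b.1 (Y.2 b) ∈ A} = ∑ L, F L := by
    have e := Equiv.subtypeProdEquivSigmaSubtype (α := Λ) (β := P × Fin s → X)
      (p := fun L x => ∀ b : P × Fin s, π L b.1 (x b) ∈ A)
    rw [Nat.card_congr e, Nat.card_sigma]
    refine Finset.sum_congr rfl fun L _ => ?_
    exact oneCopy_count s fun p y => π L p y ∈ A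
  have hle : ∀ L p, Nat.card {y : X // π L p y ∈ A} ≤ Nat.card X := fun L p =>
    Nat.card_le_card_of_injective (fun y : {y : X // π L p y ∈ A} => (y : X))
      Subtype.val_injective
  have hWprod : W = ∏ _p : P, Nat.card X ^ s := by
    rw [Finset.prod_const, Finset.card_univ, ← pow_mul, hW, mul_comm s]
  have htriv : ∀ L, F L ≤ W := by
    intro L
    rw [hWprod]
    exact Finset.prod_le_prod' fun p _ => Nat.pow_le_pow_left (hle L p) s
  have hgood : ∀ L, (∃ p, 10 * (A ∩ N L p).ncard < 9 * (N L p).ncard) → F L * 2 ^ n ≤ W := by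
    rintro L ⟨p, hp⟩
    have hc : 10 * Nat.card {y : X // π L p y ∈ A} ≤ 9 * Nat.card X := by
      have h1 := hπ L p A
      have h2 : {x | π L p x ∈ A}.ncard = Nat.card {y : X // π L p y ∈ A} := rfl
      rw [h2] at h1
      have hpos : 0 < (N L p).ncard := (Set.ncard_pos (Set.toFinite _)).2 (hN L p)
      refine Nat.le_of_mul_le_mul_right ?_ hpos
      calc 10 * Nat.card {y : X // π L p y ∈ A} * (N L p).ncard
          = 10 * ((A ∩ N L p).ncard * Nat.card X) := by rw [mul_assoc, h1]
        _ = (10 * (A ∩ N L p).ncard) * Nat.card X := by ring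
        _ ≤ (9 * (N L p).ncard) * Nat.card X := by gcongr
        _ = 9 * Nat.card X * (N L p).ncard := by ring
    have h3 : 10 ^ s * F L ≤ 9 ^ s * W := by
      rw [hF, hWprod]
      simp only
      rw [← Finset.mul_prod_erase _ _ (Finset.mem_univ p),
        ← Finset.mul_prod_erase Finset.univ (fun _ => Nat.card X ^ s) (Finset.mem_univ p)]
      calc 10 ^ s * (Nat.card {y : X // π L p y ∈ A} ^ s *
            ∏ x ∈ Finset.univ.erase p, Nat.card {y : X // π L x y ∈ A} ^ s)
          = (10 * Nat.card {y : X // π L p y ∈ A}) ^ s *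
            ∏ x ∈ Finset.univ.erase p, Nat.card {y : X // π L x y ∈ A} ^ s := by
            rw [mul_pow]; ring
        _ ≤ (9 * Nat.card X) ^ s * ∏ _x ∈ Finset.univ.erase p, Nat.card X ^ s := by
            refine Nat.mul_le_mul (Nat.pow_le_pow_left hc s) ?_
            exact Finset.prod_le_prod' fun x _ => Nat.pow_le_pow_left (hle L x) s
        _ = 9 ^ s * (Nat.card X ^ s * ∏ _x ∈ Finset.univ.erase p, Nat.card X ^ s) := by
            rw [mul_pow]; ring
    have h4 : 9 ^ s * 2 ^ n ≤ 10 ^ s := by rw [hsn]; exact oneCopy_pow n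
    refine Nat.le_of_mul_le_mul_left ?_ (show 0 < 10 ^ s by positivity)
    calc 10 ^ s * (F L * 2 ^ n) = (10 ^ s * F L) * 2 ^ n := by ring
      _ ≤ (9 ^ s * W) * 2 ^ n := by gcongr
      _ = (9 ^ s * 2 ^ n) * W := by ring
      _ ≤ 10 ^ s * W := by gcongr
  -- split the sum
  set Bad : Finset Λ := Finset.univ.filter fun L => ∀ p, 9 * (N L p).ncard ≤
    10 * (A ∩ N L p).ncard with hBad
  have hBadc : Bad.card * 2 ^ n ≤ Fintype.card Λ := by
    have h1 : {L : Λ | ∀ p, 9 * (N L p).ncard ≤ 10 * (A ∩ N L p).ncard}.ncard = Bad.card := by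
      rw [← Set.ncard_coe_finset]
      congr 1
      ext L
      simp [hBad]
    rw [h1, Nat.card_eq_fintype_card] at hA
    exact hA
  have hB : (∑ L ∈ Bad, F L) * 2 ^ n ≤ Fintype.card Λ * W := by
    calc (∑ L ∈ Bad, F L) * 2 ^ n ≤ (∑ _L ∈ Bad, W) * 2 ^ n := by
          gcongr with L _; exact htriv L
      _ = (Bad.card * 2 ^ n) * W := by rw [Finset.sum_const, smul_eq_mul]; ring
      _ ≤ _ := by gcongr
  have hG : (∑ L ∈ Finset.univ \ Bad, F L) * 2 ^ n ≤ Fintype.card Λ * W := by
    rw [Finset.sum_mul]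
    calc ∑ L ∈ Finset.univ \ Bad, F L * 2 ^ n ≤ ∑ _L ∈ Finset.univ \ Bad, W := by
          refine Finset.sum_le_sum fun L hL => hgood L ?_
          have h1 : L ∉ Bad := (Finset.mem_sdiff.1 hL).2
          rw [hBad, Finset.mem_filter] at h1
          push Not at h1
          exact h1 (Finset.mem_univ _)
      _ = (Finset.univ \ Bad).card * W := by rw [Finset.sum_const, smul_eq_mul]
      _ ≤ _ := by
          gcongr
          exact Finset.card_le_univ _
  rw [hsum, Nat.card_prod, hcardfun, Nat.card_eq_fintype_card,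
    ← Finset.sum_sdiff (Finset.subset_univ Bad), add_mul]
  omega

end Pool.Agent.SQD
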