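import Mathlib

set_option autoImplicit false

/-!
STUB. A linear projection onto a subspace sends the uniform distribution to the uniform distribution.

Proof. Take a linear projection `π` onto `N` (`Submodule.exists_isCompl`, or
`LinearMap.exists_leftInverse_of_injective` for `N.subtype`). As a map onto `N` its fibres have constant size
`|ker π| = |X| / |N|`, and `{x | π x ∈ A}` is the preimage of `A ∩ N`.
-/

namespace Pool.Agent.SQD

theorem proj_uniform {X : Type} [AddCommGroup X] [Module (ZMod 2) X] [Finite X]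
    (N : Submodule (ZMod 2) X) :
    ∃ π : X → X, (∀ x, π x ∈ N) ∧ ∀ A : Set X, {x | π x ∈ A}.ncard * (N : Set X).ncard =
      (A ∩ (N : Set X)).ncard * Nat.card X := by
  obtain ⟨C, hC⟩ := Submodule.exists_isCompl N
  let e : (N × C) ≃ₗ[ZMod 2] X := Submodule.prodEquivOfIsCompl N C hC
  refine ⟨fun x => ((e.symm x).1 : X), fun x => (e.symm x).1.2, fun A => ?_⟩
  have h1 : {x : X | ((e.symm x).1 : X) ∈ A} =
      e '' ({a : N | (a : X) ∈ A} ×ˢ (Set.univ : Set C)) := by
    ext x
    constructor
    · intro hx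
      exact ⟨e.symm x, ⟨hx, Set.mem_univ _⟩, e.apply_symm_apply x⟩
    · rintro ⟨y, ⟨hy, -⟩, rfl⟩
      change ((e.symm (e y)).1 : X) ∈ A
      rw [e.symm_apply_apply]
      exact hy
  have h2 : {a : N | (a : X) ∈ A}.ncard = (A ∩ (N : Set X)).ncard := by
    rw [← Set.ncard_image_of_injective _ (Subtype.val_injective (p := fun x => x ∈ N))]
    congr 1
    ext x
    constructor
    · rintro ⟨a, ha, rfl⟩
      exact ⟨ha, a.2⟩
    · rintro ⟨hx, hN⟩
      exact ⟨⟨x, hN⟩, hx, rfl⟩
  have h3 : Nat.card X = Nat.card N * Nat.card C := by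
    rw [← Nat.card_prod]
    exact (Nat.card_congr e.toEquiv).symm
  have h4 : (N : Set X).ncard = Nat.card N := (Nat.card_coe_set_eq _).symm
  rw [h1, Set.ncard_image_of_injective _ e.injective, Set.ncard_prod, h2, Set.ncard_univ, h3, h4]
  ring

end Pool.Agent.SQD
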