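import Pool.Agent.SQD.Defs

set_option autoImplicit false

/-!
STUB. A window sees few feature blocks.

Proof. Union bound over `k : Fin h` and `ι : I`. For fixed `k`, `ι` the linear map
`x ↦ (ev b ι (x (1, a) (k, i)))_i` from `(ZMod 2 × E) →ₗ (Fin h × Fin r → Pol κ d)` to `Fin r → ZMod 2` is onto: the
vector `(1, a)` is nonzero, so `x (1, a)` can be any element of `Fin h × Fin r → Pol κ d` (for example
`x v = v.1 • z`), and `ev b ι` is a nonzero functional (the formal monomial `τ = fun _ => none` has value `1`). So the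
kernel has `|X| / 2 ^ r` elements.
-/

namespace Pool.Agent.SQD

open Finset

theorem seen_ker {I κ E : Type} [AddCommGroup I] [Module (ZMod 2) I]
    [AddCommGroup E] [Module (ZMod 2) E] [Fintype κ] {h r d : ℕ}
    (b : Module.Basis κ (ZMod 2) I) (a : E) (k : Fin h) (ι : I) :
    ∃ Φ : ((ZMod 2 × E) →ₗ[ZMod 2] (Fin h × Fin r → Pol κ d)) →ₗ[ZMod 2] (Fin r → ZMod 2),
      Function.Surjective Φ ∧ ∀ x i, Φ x i = ev b ι (x (1, a) (k, i)) := by
  classical
  refine ⟨LinearMap.pi (fun i => (ev b ι) ∘ₗ (LinearMap.proj (k, i)) ∘ₗ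
    (LinearMap.applyₗ (1, a))), ?_, fun x i => rfl⟩
  intro w
  refine ⟨(LinearMap.fst (ZMod 2) (ZMod 2) E).smulRight
    (fun p τ => if τ = (fun _ => none) then w p.2 else 0), ?_⟩
  funext i
  simp only [LinearMap.pi_apply, LinearMap.comp_apply, LinearMap.applyₗ_apply_apply,
    LinearMap.smulRight_apply, LinearMap.fst_apply, one_smul, LinearMap.proj_apply]
  change ∑ τ : Fin d → Option κ, (if τ = (fun _ => none) then w i else 0) *
    ∏ j, coordOpt b ι (τ j) = w i
  rw [Finset.sum_eq_single (fun _ => none)]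
  · simp [coordOpt]
  · intro τ _ hτ
    rw [if_neg hτ, zero_mul]
  · intro hcon
    exact absurd (Finset.mem_univ _) hcon

theorem seen_card {I κ E : Type} [AddCommGroup I] [Module (ZMod 2) I] [Finite I]
    [AddCommGroup E] [Module (ZMod 2) E] [Finite E] [Fintype κ] {h r d : ℕ}
    (b : Module.Basis κ (ZMod 2) I) (a : E) :
    (Seen b a : Set ((ZMod 2 × E) →ₗ[ZMod 2] (Fin h × Fin r → Pol κ d))).ncard * 2 ^ r ≤
      h * Nat.card I * Nat.card ((ZMod 2 × E) →ₗ[ZMod 2] (Fin h × Fin r → Pol κ d)) := by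
  classical
  have : Fintype I := Fintype.ofFinite I
  have hfin : Finite ((ZMod 2 × E) →ₗ[ZMod 2] (Fin h × Fin r → Pol κ d)) :=
    Finite.of_injective (fun x => (x : (ZMod 2 × E) → (Fin h × Fin r → Pol κ d)))
      DFunLike.coe_injective
  choose Φ hΦs hΦ using fun (k : Fin h) (ι : I) => seen_ker (h := h) (r := r) (d := d) b a k ι
  have hcard : ∀ (k : Fin h) (ι : I), Nat.card (LinearMap.ker (Φ k ι)) * 2 ^ r =
      Nat.card ((ZMod 2 × E) →ₗ[ZMod 2] (Fin h × Fin r → Pol κ d)) := by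
    intro k ι
    have h1 := Submodule.card_eq_card_quotient_mul_card (LinearMap.ker (Φ k ι))
    have h2 : Nat.card (((ZMod 2 × E) →ₗ[ZMod 2] (Fin h × Fin r → Pol κ d)) ⧸
        LinearMap.ker (Φ k ι)) = 2 ^ r := by
      rw [Nat.card_congr ((Φ k ι).quotKerEquivOfSurjective (hΦs k ι)).toEquiv]
      simp
    rw [h2] at h1
    rw [h1]
  have hex : ∀ x : (Seen b a : Set ((ZMod 2 × E) →ₗ[ZMod 2] (Fin h × Fin r → Pol κ d))),
      ∃ p : Fin h × I, x.1 ∈ LinearMap.ker (Φ p.1 p.2) := by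
    rintro ⟨x, k, ι, hx⟩
    refine ⟨(k, ι), ?_⟩
    rw [LinearMap.mem_ker]
    funext i
    rw [hΦ]
    exact hx i
  choose p hp using hex
  have hinj : Function.Injective (fun x : (Seen b a : Set ((ZMod 2 × E) →ₗ[ZMod 2]
      (Fin h × Fin r → Pol κ d))) => (⟨p x, ⟨x.1, hp x⟩⟩ :
        Σ q : Fin h × I, LinearMap.ker (Φ q.1 q.2))) := by
    intro x y hxy
    simp only [Sigma.mk.injEq] at hxy
    obtain ⟨h1, h2⟩ := hxy
    have h3 : ∀ (q q' : Fin h × I) (_ : q = q') (u : LinearMap.ker (Φ q.1 q.2))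
        (v : LinearMap.ker (Φ q'.1 q'.2)), HEq u v → u.1 = v.1 := by
      intro q q' hq u v huv
      subst hq
      rw [eq_of_heq huv]
    exact Subtype.ext (h3 _ _ h1 _ _ h2)
  have hle := Nat.card_le_card_of_injective _ hinj
  rw [Nat.card_coe_set_eq, Nat.card_sigma] at hle
  calc (Seen b a : Set ((ZMod 2 × E) →ₗ[ZMod 2] (Fin h × Fin r → Pol κ d))).ncard * 2 ^ r
      ≤ (∑ q : Fin h × I, Nat.card (LinearMap.ker (Φ q.1 q.2))) * 2 ^ r :=
        Nat.mul_le_mul_right _ hle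
    _ = ∑ q : Fin h × I, Nat.card (LinearMap.ker (Φ q.1 q.2)) * 2 ^ r := by
        rw [Finset.sum_mul]
    _ = ∑ _q : Fin h × I, Nat.card ((ZMod 2 × E) →ₗ[ZMod 2] (Fin h × Fin r → Pol κ d)) :=
        Finset.sum_congr rfl fun q _ => hcard q.1 q.2
    _ = h * Nat.card I * Nat.card ((ZMod 2 × E) →ₗ[ZMod 2] (Fin h × Fin r → Pol κ d)) := by
        simp [Nat.card_eq_fintype_card]
    _ ≤ _ := le_refl _

end Pool.Agent.SQD
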