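import Pool.Agent.SQD.LemmaU
import Pool.Agent.SQD.GPrime
import Pool.Agent.SQD.OneCopy
import Pool.Agent.SQD.Proj
import Pool.Agent.SQD.SeenCard

set_option autoImplicit false

/-!
The one-copy system exists.

Proof. Let `I = K × (Fin m → K)`, an `F₂`-space of dimension `e0 = (m + 1) * h` (`Module.card_eq_pow_finrank`),
`b` a basis indexed by `Fin e0`, `bK` a basis of `K` indexed by `Fin h`, `Z = Fin h × Fin r → Pol (Fin e0) d`, of
dimension `h * r * (e0 + 1) ^ d`, `E = Fin (2 * e1) → ZMod 2`, `X = (ZMod 2 × E) →ₗ[ZMod 2] Z` (cardinality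
`2 ^ ((2 * e1 + 1) * dim Z)`, `Module.finrank_linearMap`), `φ₀ : K → ZMod 2` linear with `φ₀ 1 = 1` (`1 ≠ 0` in `K`,
extend), `φ ι = φ₀ ι.1`, `S p = Gad b bK p`, `N L p = XL φ (S p) L`, `π L p` from `proj_uniform`,
`L' = (I →ₗ E) × (P × Fin (8 * d * e1) → X)`, `win Y t = Y.1 (1, t)`, `smp Y (p, j) = π Y.1 p (Y.2 (p, j))`,
`V a = Seen b a`.
Seen property: `x := smp Y (p, j)` is in `XL φ (Gad b bK p) L`; if `p₀ ≠ ∑ t i * q i` then `pr (1, t) p ≠ 0`, so for some
`k` its `k`-th bit `bK.repr _ k` is nonzero, so `1`, so for all `i`, `ev b (1, t) (x (φ (1, t), L (1, t)) (k, i)) = 0`, and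
`φ (1, t) = 1`. Hiding: `lemmaU` (with `gprime`) and `one_copy`. Cardinality of `V a`: `seen_card`.
-/

namespace Pool.Agent.SQD

open Module

private theorem exists_repr_one {h : ℕ} {K : Type} [Field K] [Algebra (ZMod 2) K]
    (bK : Module.Basis (Fin h) (ZMod 2) K) {x : K} (hx : x ≠ 0) : ∃ k, bK.repr x k = 1 := by
  by_contra hcon
  push Not at hcon
  apply hx
  apply bK.repr.injective
  rw [map_zero]
  ext k
  have h1 := hcon k
  have h2 : ∀ z : ZMod 2, z ≠ 1 → z = 0 := by decide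
  rw [h2 _ h1]
  rfl

theorem system_exists (h m d r e1 : ℕ) (K : Type) [Field K] [Finite K] [Algebra (ZMod 2) K]
    (hK : Nat.card K = 2 ^ h) (hd : d ≤ m)
    (he : 2 * ((m + 1) * h) + ((m + 1) * h) * (h * r * ((m + 1) * h + 1) ^ d) ≤ e1) :
    ∃ (X E L : Type) (_ : Finite X) (_ : Finite E) (_ : Finite L) (_ : Nonempty E)
      (_ : Nonempty L) (win : L → (Fin m → K) → E)
      (smp : L → {p : K × (Fin m → K) // p ≠ 0} × Fin (8 * d * e1) → X) (V : E → Set X),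
      Nat.card X = 2 ^ ((2 * e1 + 1) * (h * r * ((m + 1) * h + 1) ^ d)) ∧
      Nat.card E = 2 ^ (2 * e1) ∧
      (∀ Y t p j, p.1.1 ≠ ∑ i, t i * p.1.2 i → smp Y (p, j) ∈ V (win Y t)) ∧
      (∀ a, (V a).ncard * 2 ^ r ≤ h * 2 ^ ((m + 1) * h) * Nat.card X) ∧
      (∀ A : Set X, 10 * A.ncard ≤ Nat.card X →
        Nat.card {Y : L // ∀ b, smp Y b ∈ A} * 2 ^ (d * e1) ≤ 2 * Nat.card L) := by
  classical
  have hKfin : Module.Finite (ZMod 2) K := Module.Finite.of_finite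
  have hfK : finrank (ZMod 2) K = h := by
    have h1 := Module.natCard_eq_pow_finrank (K := ZMod 2) (V := K)
    rw [hK, Nat.card_zmod] at h1
    exact (Nat.pow_right_injective (le_refl 2) h1).symm
  have hfI : finrank (ZMod 2) (K × (Fin m → K)) = (m + 1) * h := by
    rw [Module.finrank_prod, Module.finrank_pi_fintype]
    simp only [hfK, Finset.sum_const, Finset.card_univ, Fintype.card_fin, smul_eq_mul]
    ring
  have hcI : Nat.card (K × (Fin m → K)) = 2 ^ ((m + 1) * h) := by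
    rw [Module.natCard_eq_pow_finrank (K := ZMod 2) (V := K × (Fin m → K)), Nat.card_zmod, hfI]
  let b : Module.Basis (Fin ((m + 1) * h)) (ZMod 2) (K × (Fin m → K)) :=
    Module.finBasisOfFinrankEq _ _ hfI
  let bK : Module.Basis (Fin h) (ZMod 2) K := Module.finBasisOfFinrankEq _ _ hfK
  have hfZ : finrank (ZMod 2) (Fin h × Fin r → Pol (Fin ((m + 1) * h)) d) =
      h * r * ((m + 1) * h + 1) ^ d := by
    rw [Module.finrank_pi_fintype]
    simp only [Module.finrank_fintype_fun_eq_card, Finset.sum_const, Finset.card_univ,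
      Fintype.card_prod, Fintype.card_fin, smul_eq_mul, Fintype.card_fun, Fintype.card_option]
  have hfE : finrank (ZMod 2) (Fin (2 * e1) → ZMod 2) = 2 * e1 := by
    rw [Module.finrank_fintype_fun_eq_card, Fintype.card_fin]
  have hcE : Nat.card (Fin (2 * e1) → ZMod 2) = 2 ^ (2 * e1) := by
    rw [Module.natCard_eq_pow_finrank (K := ZMod 2) (V := Fin (2 * e1) → ZMod 2), Nat.card_zmod,
      hfE]
  have hcX : Nat.card ((ZMod 2 × (Fin (2 * e1) → ZMod 2)) →ₗ[ZMod 2]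
      (Fin h × Fin r → Pol (Fin ((m + 1) * h)) d)) =
      2 ^ ((2 * e1 + 1) * (h * r * ((m + 1) * h + 1) ^ d)) := by
    rw [Module.natCard_eq_pow_finrank (K := ZMod 2), Nat.card_zmod, Module.finrank_linearMap,
      Module.finrank_prod, Module.finrank_self, hfE, hfZ, add_comm 1]
  have hfinX : Finite ((ZMod 2 × (Fin (2 * e1) → ZMod 2)) →ₗ[ZMod 2]
      (Fin h × Fin r → Pol (Fin ((m + 1) * h)) d)) :=
    Nat.finite_of_card_ne_zero (by rw [hcX]; positivity)
  have hfinIE : Finite ((K × (Fin m → K)) →ₗ[ZMod 2] (Fin (2 * e1) → ZMod 2)) :=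
    Finite.of_injective (fun L => (L : (K × (Fin m → K)) → (Fin (2 * e1) → ZMod 2)))
      DFunLike.coe_injective
  obtain ⟨k₀, hk₀⟩ := exists_repr_one bK (one_ne_zero (α := K))
  let φ : (K × (Fin m → K)) →ₗ[ZMod 2] ZMod 2 :=
    (bK.coord k₀) ∘ₗ LinearMap.fst (ZMod 2) K (Fin m → K)
  let S : {p : K × (Fin m → K) // p ≠ 0} → Submodule (ZMod 2) ((K × (Fin m → K)) →ₗ[ZMod 2]
      (Fin h × Fin r → Pol (Fin ((m + 1) * h)) d)) := fun p => Gad b bK p.1
  let N : ((K × (Fin m → K)) →ₗ[ZMod 2] (Fin (2 * e1) → ZMod 2)) →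
      {p : K × (Fin m → K) // p ≠ 0} → Submodule (ZMod 2)
        ((ZMod 2 × (Fin (2 * e1) → ZMod 2)) →ₗ[ZMod 2]
          (Fin h × Fin r → Pol (Fin ((m + 1) * h)) d)) := fun L p => XL φ (S p) L
  choose π hπN hπ using fun L p => proj_uniform (N L p)
  refine ⟨(ZMod 2 × (Fin (2 * e1) → ZMod 2)) →ₗ[ZMod 2]
      (Fin h × Fin r → Pol (Fin ((m + 1) * h)) d), Fin (2 * e1) → ZMod 2,
    ((K × (Fin m → K)) →ₗ[ZMod 2] (Fin (2 * e1) → ZMod 2)) ×
      ({p : K × (Fin m → K) // p ≠ 0} × Fin (8 * d * e1) →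
        ((ZMod 2 × (Fin (2 * e1) → ZMod 2)) →ₗ[ZMod 2]
          (Fin h × Fin r → Pol (Fin ((m + 1) * h)) d))),
    hfinX, inferInstance, inferInstance, inferInstance, inferInstance,
    fun Y t => Y.1 (1, t), fun Y q => π Y.1 q.1 (Y.2 q), fun a => Seen b a, hcX, hcE, ?_, ?_, ?_⟩
  · intro Y t p j hp
    have hx : π Y.1 p (Y.2 (p, j)) ∈ XL φ (Gad b bK p.1) Y.1 := hπN Y.1 p (Y.2 (p, j))
    have hpr : pr ((1 : K), t) p.1 ≠ 0 := by
      unfold pr
      simp only [one_mul]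
      exact sub_ne_zero.2 hp
    obtain ⟨k, hk⟩ := exists_repr_one bK hpr
    refine ⟨k, (1, t), fun i => ?_⟩
    have h2 : φ ((1 : K), t) = 1 := hk₀
    have h1 : ev b (1, t) ((π Y.1 p (Y.2 (p, j))) (φ ((1 : K), t), Y.1 (1, t)) (k, i)) = 0 :=
      hx k i (1, t) hk
    rw [h2] at h1
    exact h1
  · intro a
    have h1 := seen_card (r := r) (d := d) (h := h) b a
    rw [hcI] at h1
    exact h1
  · intro A hA
    refine one_copy d e1 (fun L p => (N L p : Set ((ZMod 2 × (Fin (2 * e1) → ZMod 2)) →ₗ[ZMod 2]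
          (Fin h × Fin r → Pol (Fin ((m + 1) * h)) d)))) π hπ (fun L p => ⟨0, (N L p).zero_mem⟩) A ?_
    refine lemmaU φ S d e1 hcE ?_ ?_ A hA
    · rw [hcI, hfI, hfZ, ← pow_mul, ← pow_add]
      refine Nat.pow_le_pow_right (by norm_num) ?_
      calc (m + 1) * h * 2 + (m + 1) * h * (h * r * ((m + 1) * h + 1) ^ d) =
          2 * ((m + 1) * h) + ((m + 1) * h) * (h * r * ((m + 1) * h + 1) ^ d) := by ring
        _ ≤ e1 := he
    · intro J hJ
      exact gprime b bK hd J hJ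

end Pool.Agent.SQD
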