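import Pool.Agent.SQD.FromSystem
import Pool.Agent.SQD.System
import Pool.Agent.SQD.BlockTreeK
import Pool.Agent.SQD.ParamLog
import Pool.Agent.SQD.ParamGrow
import Pool.Agent.SQD.ParamFinal

set_option autoImplicit false

/-!
The main theorem for natural exponents.
-/

namespace Pool.Agent.SQD

open Finset Pool.Agent.H74.SQ

theorem forty (C : ℕ) : 40 * C ≤ 2 ^ (C + 6) := by
  have h := (Nat.lt_two_pow_self (n := C)).le
  calc 40 * C ≤ 64 * 2 ^ C := by omega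
    _ = 2 ^ (C + 6) := by rw [pow_add]; norm_num; ring

theorem core (c C : ℕ) (hc : 1 ≤ c) (hC : 1 ≤ C) :
    ∃ n r : ℕ, 3 ≤ n ∧ 1 ≤ r ∧ r ≤ n ∧ ∃ (D : (Fin n → Bool) → ℝ) (M : ℕ), IsDist D ∧
      n ^ C < M ∧
      HasFamily (DecisionLists n r) D (((r : ℝ) * Real.log n) ^ (-(c : ℝ))) M := by
  classical
  obtain ⟨d, hd⟩ : ∃ d, d = 24 * c + 8 := ⟨_, rfl⟩
  obtain ⟨h, hh, hgrow⟩ := param_grow c C d
  obtain ⟨e0, he0⟩ : ∃ e0, e0 = (d + 1) * h := ⟨_, rfl⟩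
  obtain ⟨r, hr⟩ : ∃ r, r = e0 + h + C + 6 := ⟨_, rfl⟩
  obtain ⟨Dz, hDz⟩ : ∃ Dz, Dz = h * r * (e0 + 1) ^ d := ⟨_, rfl⟩
  obtain ⟨e1, he1⟩ : ∃ e1, e1 = 2 * e0 + e0 * Dz := ⟨_, rfl⟩
  have hg := hgrow e0 r Dz e1 he0 hr hDz he1
  have hrDz : r ≤ Dz := by
    rw [hDz]
    have h1 : 1 ≤ (e0 + 1) ^ d := Nat.one_le_pow _ _ (by omega)
    calc r = 1 * r * 1 := by ring
      _ ≤ h * r * (e0 + 1) ^ d := Nat.mul_le_mul (Nat.mul_le_mul hh le_rfl) h1
  have hDz1 : C + 6 ≤ Dz := by omega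
  have he0pos : 1 ≤ e0 := by
    rw [he0]; exact Nat.mul_pos (by omega) hh
  have he1pos : 1 ≤ e1 := by rw [he1]; omega
  -- the field
  have hh0 : h ≠ 0 := by omega
  have hK : Nat.card (GaloisField 2 h) = 2 ^ h := GaloisField.card 2 h hh0
  haveI : Finite (GaloisField 2 h) := Nat.finite_of_card_ne_zero (by rw [hK]; positivity)
  haveI : Fintype (GaloisField 2 h) := Fintype.ofFinite _
  letI : LinearOrder (GaloisField 2 h) :=
    LinearOrder.lift' (Fintype.equivFin (GaloisField 2 h)) (Equiv.injective _)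
  obtain ⟨X, E, L, _, _, _, _, _, win, smp, V, hX, hE, hsee, hV, hhide⟩ :=
    system_exists h d d r e1 (GaloisField 2 h) hK le_rfl (by
      rw [← he0, ← hDz]; omega)
  rw [← he0] at hX hV
  rw [← hDz] at hX
  haveI : Fintype {p : GaloisField 2 h × (Fin d → GaloisField 2 h) // p ≠ 0} := Fintype.ofFinite _
  obtain ⟨T, hT⟩ := blockTree_exists (GaloisField 2 h) d
  have hlarge : C + 6 ≤ (2 * e1 + 1) * Dz := by nlinarith
  obtain ⟨w, hw⟩ : ∃ w, w = 2 ^ ((2 * e1 + 1) * Dz - (C + 6)) := ⟨_, rfl⟩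
  have hw1 : 1 ≤ w := by rw [hw]; exact Nat.one_le_two_pow
  have hwX : w * 2 ^ (C + 6) = Nat.card X := by
    rw [hX, hw, ← pow_add]
    congr 1
    omega
  have hVw : ∀ a, (V a).ncard ≤ w := by
    intro a
    have h1 := hV a
    have h2 : h ≤ 2 ^ h := (Nat.lt_two_pow_self (n := h)).le
    have h3 : (V a).ncard * 2 ^ (C + 6) * (2 ^ (e0 + h)) ≤ w * 2 ^ (C + 6) * 2 ^ (e0 + h) := by
      calc (V a).ncard * 2 ^ (C + 6) * (2 ^ (e0 + h)) = (V a).ncard * 2 ^ r := by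
            rw [hr, mul_assoc, ← pow_add]; congr 2; omega
        _ ≤ h * 2 ^ e0 * Nat.card X := h1
        _ ≤ 2 ^ h * 2 ^ e0 * Nat.card X := by gcongr
        _ = w * 2 ^ (C + 6) * 2 ^ (e0 + h) := by rw [hwX, pow_add]; ring
    have h4 := Nat.le_of_mul_le_mul_right h3 (by positivity)
    exact Nat.le_of_mul_le_mul_right h4 (by positivity)
  have hwC : 40 * C * w ≤ Nat.card X := by
    rw [← hwX, mul_comm w]
    exact Nat.mul_le_mul (forty C) le_rfl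
  obtain ⟨R, hR⟩ : ∃ R, R = 2 * Nat.card (GaloisField 2 h) ^ (2 * Dz * d) *
    Nat.card E ^ (2 * Dz) := ⟨_, rfl⟩
  have hR' : R = 2 * (2 ^ h) ^ (2 * Dz * d) * (2 ^ (2 * e1)) ^ (2 * Dz) := by
    rw [hR, hK, hE]
  have hR3 : 3 ≤ R := by
    rw [hR']
    have h1 : 1 ≤ (2 ^ h) ^ (2 * Dz * d) := Nat.one_le_pow _ _ (by positivity)
    have h2 : 2 ^ 2 ≤ (2 ^ (2 * e1)) ^ (2 * Dz) := by
      rw [← pow_mul]
      apply Nat.pow_le_pow_right (by norm_num)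
      have : 1 * 1 ≤ e1 * Dz := Nat.mul_le_mul he1pos (by omega)
      nlinarith
    calc 3 ≤ 2 * 1 * 2 ^ 2 := by norm_num
      _ ≤ 2 * (2 ^ h) ^ (2 * Dz * d) * (2 ^ (2 * e1)) ^ (2 * Dz) :=
        Nat.mul_le_mul (Nat.mul_le_mul le_rfl h1) h2
  obtain ⟨B, hB⟩ : ∃ B, B = max (R ^ C) (2 * Dz * Nat.card X) := ⟨_, rfl⟩
  have hB0 : B ≠ 0 := by
    have h1 : 1 ≤ R ^ C := Nat.one_le_pow _ _ (by omega)
    have h2 : R ^ C ≤ B := by rw [hB]; exact le_max_left _ _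
    omega
  obtain ⟨p, hp, hpB, hpB2⟩ := Nat.exists_prime_lt_and_le_two_mul B hB0
  have hpR : R ^ C < p := lt_of_le_of_lt (by rw [hB]; exact le_max_left _ _) hpB
  have hpX : 2 * Dz * Nat.card X < p := lt_of_le_of_lt (by rw [hB]; exact le_max_right _ _) hpB
  have hq0 : (0 : ℝ) ≤ 2 / 2 ^ (d * e1) := by positivity
  have hde : 1 ≤ d * e1 := Nat.mul_pos (by omega) he1pos
  have hq1 : (2 : ℝ) / 2 ^ (d * e1) ≤ 1 := by
    rw [div_le_one (by positivity)]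
    calc (2 : ℝ) = 2 ^ 1 := by norm_num
      _ ≤ 2 ^ (d * e1) := pow_le_pow_right₀ (by norm_num) hde
  obtain ⟨n, hRn, hnR, D, hD, hF⟩ := from_system (m := d) (s := 8 * d * e1) (g' := Dz) (w := w)
    (C := C) (p := p) (R := R) T win smp V
    (fun Y t p j hpt => hsee Y t p j ((hT t p).1 hpt)) hVw (2 / 2 ^ (d * e1)) hq0 hq1
    (fun A hA => by
      have h1 := hhide A hA
      rw [div_mul_eq_mul_div, le_div_iff₀ (by positivity)]
      exact_mod_cast h1)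
    hC hw1 hwC (by
      have : 8 * 1 ≤ 8 * (d * e1) := Nat.mul_le_mul le_rfl hde
      rw [mul_assoc]; omega) (by omega) hp hpX hR
  refine ⟨n, R, hR3.trans hRn, by omega, hRn, D, p ^ (C * (2 * Dz * w + 1) + 1), hD, ?_, ?_⟩
  · calc n ^ C ≤ (R * p ^ (2 * Dz * w + 1)) ^ C := Nat.pow_le_pow_left hnR C
      _ = R ^ C * p ^ (C * (2 * Dz * w + 1)) := by
          rw [mul_pow, ← pow_mul, mul_comm (2 * Dz * w + 1) C]
      _ < p * p ^ (C * (2 * Dz * w + 1)) :=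
          Nat.mul_lt_mul_of_pos_right hpR (pow_pos hp.pos _)
      _ = p ^ (C * (2 * Dz * w + 1) + 1) := by rw [pow_succ]; ring
  · obtain ⟨f, hf, hff⟩ := hF
    refine ⟨f, hf, fun i j hij => (hff i j hij).trans ?_⟩
    have hlog := param_log C d h Dz e1 w R n p hC hDz1 (by
        rw [he1, he0]; nlinarith [Nat.zero_le (h * Dz), Nat.zero_le ((d + 1) * h)]) he1pos
      (by rw [hwX, hX]) hR' (by omega) hnR (by rw [← hX, ← hB]; exact hpB2)
    have hn3 : (3 : ℝ) ≤ n := by exact_mod_cast hR3.trans hRn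
    have hx : 0 < (R : ℝ) * Real.log n := by
      have h1 : (0 : ℝ) < R := by exact_mod_cast (by omega : 0 < R)
      exact mul_pos h1 (Real.log_pos (by linarith))
    have hfin := param_final c d h Dz e1 hd (by omega) he1pos hg _ hx hlog
    rw [hK]
    push_cast at hfin ⊢
    exact hfin

end Pool.Agent.SQD
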