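import Pool.Agent.SQD.DlVal

set_option autoImplicit false

/-!
From attribute functions on a finite probability space to decision lists on the cube.

Proof. Let `n = Fintype.card A`, `e : A ≃ Fin n` (`Fintype.equivFin A`), and let
`F : Ω → (Fin n → Bool)` be `F ω i = att (e.symm i) ω`. Put `D x = #{ω | F ω = x} / #Ω`,
`f u x = dlVal b b₀ (fun k => x (e (idx u k)))`. `f u` is a decision list with the literals
`(e (idx u k), true)` (`dlVal_hit`, `dlVal_miss`). `∑ x, D x * g x = (∑ ω, g (F ω)) / #Ω` for every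
`g` (`Finset.sum_fiberwise` or `Finset.sum_comm`).
-/

namespace Pool.Agent.SQD

open Finset Pool.Agent.H74.SQ

private theorem cube_push {Ω X : Type} [Fintype Ω] [Nonempty Ω] [Fintype X] [DecidableEq X]
    (F : Ω → X) (g : X → ℝ) :
    ∑ x, ((univ.filter (fun ω => F ω = x)).card : ℝ) / (Nat.card Ω : ℝ) * g x =
      (∑ ω, g (F ω)) / (Nat.card Ω : ℝ) := by
  have h1 : ∀ x, ((univ.filter (fun ω => F ω = x)).card : ℝ) / (Nat.card Ω : ℝ) * g x =
      (∑ ω ∈ univ.filter (fun ω => F ω = x), g (F ω)) / (Nat.card Ω : ℝ) := by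
    intro x
    rw [Finset.sum_congr rfl (g := fun _ => g x) (fun ω hω => by
      rw [(Finset.mem_filter.1 hω).2]), Finset.sum_const, nsmul_eq_mul]
    ring
  rw [Finset.sum_congr rfl fun x _ => h1 x, ← Finset.sum_div, Finset.sum_fiberwise]

theorem cube {Ω A U : Type} [Fintype Ω] [Nonempty Ω] [Fintype A] (att : A → Ω → Bool) {R : ℕ}
    (b : Fin R → ℝ) (b₀ : ℝ) (hb : ∀ k, b k = 1 ∨ b k = -1) (hb₀ : b₀ = 1 ∨ b₀ = -1)
    (idx : U → Fin R → A) :
    ∃ (D : (Fin (Fintype.card A) → Bool) → ℝ) (f : U → (Fin (Fintype.card A) → Bool) → ℝ),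
      IsDist D ∧ (∀ u, f u ∈ DecisionLists (Fintype.card A) R) ∧
      ∀ u v, expect D (fun x => f u x * f v x) =
        (∑ ω, dlVal b b₀ (fun k => att (idx u k) ω) * dlVal b b₀ (fun k => att (idx v k) ω)) /
          (Nat.card Ω : ℝ) := by
  classical
  have e : A ≃ Fin (Fintype.card A) := Fintype.equivFin A
  set F : Ω → (Fin (Fintype.card A) → Bool) := fun ω i => att (e.symm i) ω with hF
  refine ⟨fun x => ((univ.filter (fun ω => F ω = x)).card : ℝ) / (Nat.card Ω : ℝ),
    fun u x => dlVal b b₀ (fun k => x (e (idx u k))), ⟨?_, ?_⟩, ?_, ?_⟩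
  · intro x
    positivity
  · have h := cube_push F (fun _ => (1 : ℝ))
    simp only [mul_one] at h
    rw [h]
    have hc : (Nat.card Ω : ℝ) ≠ 0 := by
      rw [Nat.card_eq_fintype_card]
      exact_mod_cast Fintype.card_ne_zero
    rw [Finset.sum_const, Finset.card_univ, nsmul_eq_mul, mul_one, ← Nat.card_eq_fintype_card]
    exact div_self hc
  · intro u
    refine ⟨fun k => (e (idx u k), true), b, b₀, hb, hb₀, fun x => ⟨?_, ?_⟩⟩
    · intro k hk hj
      refine dlVal_hit b b₀ _ k hk fun j hjk => ?_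
      have := hj j hjk
      simpa using this
    · intro h
      refine dlVal_miss b b₀ _ fun j => ?_
      have := h j
      simpa using this
  · intro u v
    unfold Pool.Agent.H74.SQ.expect
    rw [cube_push F (fun x => dlVal b b₀ (fun k => x (e (idx u k))) *
      dlVal b b₀ (fun k => x (e (idx v k))))]
    simp only [hF, Equiv.symm_apply_apply]

end Pool.Agent.SQD
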