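import Pool.Agent.H74.SQ.Defs

set_option autoImplicit false

/-!
# Statistical query dimension of decision lists: auxiliary definitions

Overview of the construction (problem MP_52fefc_lc, negative answer to Q1 and Q2).
`K` is a field with `2 ^ h` elements, `I = K × (Fin m → K)`, points are the nonzero vectors `p`
of `I`, a leaf `t : Fin m → K` is the vector `(1, t)` of `I`, and it sees the point `p` iff
`pr (1, t) p ≠ 0`. The parity of all point bits is computed by a decision list whose rules are
indexed by the leaves (`BlockTree`, `fires`, `game_order`). The points are hidden in feature blocks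
`X = Hom(F₂ × E, Z)` by a random linear map `L : I → E` (`XL`, `Gad`), so that no set of at most
one tenth of the feature blocks contains the hidden samples (`lemmaU`). Concepts are Reed-Solomon
words on the feature blocks (`realise`).
-/

namespace Pool.Agent.SQD

open Finset

/-! ### Decision lists on vectors of literal values, energies -/

/-- The value of a decision list with outputs `b` and default `b₀` when `v` is the vector of the
truth values of its literals. -/
noncomputable def dlVal {R : ℕ} (b : Fin R → ℝ) (b₀ : ℝ) (v : Fin R → Bool) : ℝ :=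
  if h : (univ.filter (fun k => v k = true)).Nonempty then
    b ((univ.filter (fun k => v k = true)).min' h) else b₀

/-- The sign `(-1) ^ z` of a bit. -/
noncomputable def sgn (z : ZMod 2) : ℝ := if z = 0 then 1 else -1

/-- `a` on `A` and `b` off `A`. -/
def glue {N W : Type} [DecidableEq N] (A : Finset N) (a b : N → W) : N → W :=
  fun x => if x ∈ A then a x else b x

/-- `E_a (E_b G (a on A, b off A)) ^ 2` for independent uniform `a`, `b`. -/
noncomputable def energy {N W : Type} [Fintype N] [DecidableEq N] [Fintype W] (A : Finset N)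
    (G : (N → W) → ℝ) : ℝ :=
  (∑ a : N → W, ((∑ b : N → W, G (glue A a b)) / (Nat.card (N → W) : ℝ)) ^ 2) /
    (Nat.card (N → W) : ℝ)

/-- The parity of all sampled bits: the label is `(a none).2`, and the bit named `b` is read in the
block `smp label b`. -/
noncomputable def parityF {X B L : Type} [Fintype B] (smp : L → B → X) :
    (Option X → (B → ZMod 2) × L) → ℝ :=
  fun a => sgn (∑ b, (a (some (smp (a none).2 b))).1 b)

/-! ### The tree of blocks and the rules -/

/-- A tree of blocks of points: `vis t` is the set of points seen at the leaf `t`, and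
`blk j t s` is the block of the branch `s` at level `j` below the prefix of `t`. -/
structure BlockTree (m : ℕ) (S P : Type) [Fintype P] : Type where
  /-- the block of branch `s` at level `j` below the prefix `t` -/
  blk : Fin m → (Fin m → S) → S → Finset P
  /-- the points seen at the leaf `t` -/
  vis : (Fin m → S) → Finset P
  dep : ∀ (j : Fin m) (t t' : Fin m → S) (s : S), (∀ i, i < j → t i = t' i) →
    blk j t s = blk j t' s
  sub : ∀ (j : Fin m) (t : Fin m → S) (s : S), s ≠ t j → blk j t s ⊆ vis t
  total : ∀ (t : Fin m → S) (Z : P → ZMod 2),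
    ∑ p, Z p = ∑ p ∈ vis t, Z p + ∑ j, ∑ p ∈ blk j t (t j), Z p
  disj : ∀ (j : Fin m) (t : Fin m → S) (s s' : S), s ≠ s' → Disjoint (blk j t s) (blk j t s')
  ne : ∀ (j : Fin m) (t : Fin m → S) (s : S), (blk j t s).Nonempty

/-- A rule: a leaf for each copy, a window for each copy, and the predicted parity. -/
abbrev Rule (g m : ℕ) (S E : Type) : Type := (Fin g × Fin m → S) × (Fin g → E) × ZMod 2

/-- The rule `ρ` fires: its windows are the right ones, its leaves are active in all copies (all
blocks which branch off before the leaf have parity zero), and the predicted parity is that of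
the seen points plus `g m`. Here `wn i t` is the window of the leaf `t` in copy `i`, and `Z i p`
is the bit of the point `p` of copy `i`. -/
noncomputable def fires {g m : ℕ} {S P E : Type} [Fintype P] [LinearOrder S]
    (T : BlockTree m S P) (wn : Fin g → (Fin m → S) → E) (Z : Fin g → P → ZMod 2)
    (ρ : Rule g m S E) : Bool :=
  open Classical in
  decide ((∀ i, wn i (fun j => ρ.1 (i, j)) = ρ.2.1 i) ∧
    (∀ i j s, s < ρ.1 (i, j) → ∑ p ∈ T.blk j (fun j' => ρ.1 (i, j')) s, Z i p = 0) ∧
    ∑ i, ∑ p ∈ T.vis (fun j => ρ.1 (i, j)), Z i p + ((g * m : ℕ) : ZMod 2) = ρ.2.2)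

/-- The bit of the point `p` of copy `i`: the sum of the bits of its `s` samples. -/
def ptBit {g s : ℕ} {P X L : Type} (smp : L → P × Fin s → X)
    (ζ : Fin g × X → Fin g × (P × Fin s) → ZMod 2) (Y : Fin g → L) (i : Fin g) (p : P) : ZMod 2 :=
  ∑ j : Fin s, ζ (i, smp (Y i) (p, j)) (i, (p, j))

/-! ### Polynomials over `F₂`, as formal sums of products of `d` coordinates or ones -/

/-- Formal polynomials of degree at most `d` over `F₂` in the variables `κ`. -/
abbrev Pol (κ : Type) (d : ℕ) : Type := (Fin d → Option κ) → ZMod 2

section Poly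

variable {I κ : Type} [AddCommGroup I] [Module (ZMod 2) I]

/-- The value at `ι` of the constant `1` (`none`) or of the coordinate `k` (`some k`). -/
noncomputable def coordOpt (b : Module.Basis κ (ZMod 2) I) (ι : I) : Option κ → ZMod 2
  | none => 1
  | some k => b.repr ι k

/-- Evaluation of formal polynomials at the point `ι`, a linear functional. -/
noncomputable def ev [Fintype κ] {d : ℕ} (b : Module.Basis κ (ZMod 2) I) (ι : I) :
    Pol κ d →ₗ[ZMod 2] ZMod 2 where
  toFun c := ∑ τ : Fin d → Option κ, c τ * ∏ i, coordOpt b ι (τ i)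
  map_add' c c' := by
    simp only [Pi.add_apply, add_mul, Finset.sum_add_distrib]
  map_smul' a c := by
    simp only [Pi.smul_apply, smul_eq_mul, RingHom.id_apply, Finset.mul_sum, mul_assoc]

end Poly

/-- The pairing of leaves (and all vectors) with points. -/
def pr {K : Type} [Field K] {m : ℕ} (ι p : K × (Fin m → K)) : K :=
  ι.1 * p.1 - ∑ i, ι.2 i * p.2 i

/-- The gadget space of the point `p`: linear maps `M` from `I` to `h × r` polynomials such that
the polynomials `M ι (k, i)` vanish at `ι` whenever the `k`-th bit of `pr ι p` is one. -/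
noncomputable def Gad {K : Type} [Field K] [Algebra (ZMod 2) K] {m h r d : ℕ} {κ : Type}
    [Fintype κ] (b : Module.Basis κ (ZMod 2) (K × (Fin m → K)))
    (bK : Module.Basis (Fin h) (ZMod 2) K) (p : K × (Fin m → K)) :
    Submodule (ZMod 2) ((K × (Fin m → K)) →ₗ[ZMod 2] (Fin h × Fin r → Pol κ d)) where
  carrier := {M | ∀ k i ι, bK.repr (pr ι p) k = 1 → ev b ι (M ι (k, i)) = 0}
  zero_mem' := by
    intro k i ι _
    simp
  add_mem' := by
    intro M M' hM hM' k i ι h
    have h1 := hM k i ι h
    have h2 := hM' k i ι h
    simp [h1, h2]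
  smul_mem' := by
    intro a M hM k i ι h
    have h1 := hM k i ι h
    simp [h1]

/-- The feature blocks compatible with the hidden map `L` for the gadget space `S`. -/
def XL {I E Z : Type} [AddCommGroup I] [Module (ZMod 2) I] [AddCommGroup E] [Module (ZMod 2) E]
    [AddCommGroup Z] [Module (ZMod 2) Z] (φ : I →ₗ[ZMod 2] ZMod 2)
    (S : Submodule (ZMod 2) (I →ₗ[ZMod 2] Z)) (L : I →ₗ[ZMod 2] E) :
    Submodule (ZMod 2) ((ZMod 2 × E) →ₗ[ZMod 2] Z) where
  carrier := {x | x ∘ₗ (φ.prod L) ∈ S}
  zero_mem' := by
    simp
  add_mem' := by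
    intro x y hx hy
    simp only [Set.mem_setOf_eq, LinearMap.add_comp] at *
    exact S.add_mem hx hy
  smul_mem' := by
    intro a x hx
    simp only [Set.mem_setOf_eq, LinearMap.smul_comp] at *
    exact S.smul_mem a hx

/-- The feature blocks seen from the window `a`. -/
def Seen {I κ E : Type} [AddCommGroup I] [Module (ZMod 2) I] [AddCommGroup E]
    [Module (ZMod 2) E] [Fintype κ] {h r d : ℕ} (b : Module.Basis κ (ZMod 2) I) (a : E) :
    Set ((ZMod 2 × E) →ₗ[ZMod 2] (Fin h × Fin r → Pol κ d)) :=
  {x | ∃ k ι, ∀ i, ev b ι (x (1, a) (k, i)) = 0}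

end Pool.Agent.SQD
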