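import Pool.Agent.SQD.Defs

set_option autoImplicit false

/-!
Basic facts on `dlVal` and `sgn`. Proof: unfold; the least index of the filter is `min'`.
-/

namespace Pool.Agent.SQD

open Finset

theorem dlVal_hit {R : ℕ} (b : Fin R → ℝ) (b₀ : ℝ) (v : Fin R → Bool) (k : Fin R)
    (hk : v k = true) (hj : ∀ j, j < k → v j = false) : dlVal b b₀ v = b k := by
  have hne : (univ.filter (fun k => v k = true)).Nonempty := ⟨k, by simp [hk]⟩
  unfold dlVal
  rw [dif_pos hne]
  congr 1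
  apply le_antisymm
  · exact Finset.min'_le _ _ (by simp [hk])
  · by_contra hlt
    push Not at hlt
    have h1 := hj _ hlt
    have h2 := Finset.min'_mem _ hne
    simp only [mem_filter, mem_univ, true_and] at h2
    rw [h1] at h2
    exact Bool.false_ne_true h2

theorem dlVal_miss {R : ℕ} (b : Fin R → ℝ) (b₀ : ℝ) (v : Fin R → Bool)
    (h : ∀ j, v j = false) : dlVal b b₀ v = b₀ := by
  unfold dlVal
  rw [dif_neg]
  rintro ⟨k, hk⟩
  simp [h k] at hk

theorem dlVal_or {R : ℕ} (b : Fin R → ℝ) (b₀ : ℝ) (v : Fin R → Bool)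
    (hb : ∀ k, b k = 1 ∨ b k = -1) (hb₀ : b₀ = 1 ∨ b₀ = -1) :
    dlVal b b₀ v = 1 ∨ dlVal b b₀ v = -1 := by
  unfold dlVal
  split_ifs with h
  · exact hb _
  · exact hb₀

theorem sgn_or (z : ZMod 2) : sgn z = 1 ∨ sgn z = -1 := by
  unfold sgn
  split_ifs
  · exact Or.inl rfl
  · exact Or.inr rfl

theorem sgn_add (y z : ZMod 2) : sgn (y + z) = sgn y * sgn z := by
  have h : ∀ y z : ZMod 2, (y + z = 0) ↔ ((y = 0 ∧ z = 0) ∨ (y ≠ 0 ∧ z ≠ 0)) := by decide
  unfold sgn
  by_cases hy : y = 0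
  · subst hy; simp
  · by_cases hz : z = 0
    · subst hz; simp [hy]
    · have := (h y z).2 (Or.inr ⟨hy, hz⟩)
      simp [hy, hz, this]

end Pool.Agent.SQD
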