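import Pool.Agent.SQD.Defs

set_option autoImplicit false

/-!
Comparison of the energies of two `±1` functions which differ rarely.

Proof. Write `H_G a = E_b G (glue A a b)`. `H_G ^ 2 ≤ 2 * H_F ^ 2 + 2 * (H_G - H_F) ^ 2`, and by
Cauchy-Schwarz (`(E_b f) ^ 2 ≤ E_b (f ^ 2)`) `(H_G a - H_F a) ^ 2 ≤ E_b ((G - F) (glue A a b)) ^ 2`.
The average over `a` of the right side is `E_ω ((G - F) ω) ^ 2 ≤ 4 * Pr (F ≠ G)`, since `glue A a b` is
uniform for uniform independent `a`, `b`: for every `g : (N → W) → ℝ`,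
`∑ a, ∑ b, g (glue A a b) = Nat.card (N → W) * ∑ ω, g ω`, by the bijection
`(a, b) ↦ (glue A a b, glue A b a)` of `(N → W) × (N → W)`, which is an involution.
-/

namespace Pool.Agent.SQD

open Finset

private theorem glue_glue {N W : Type} [DecidableEq N] (A : Finset N) (a b : N → W) :
    glue A (glue A a b) (glue A b a) = a := by
  funext x
  by_cases hx : x ∈ A <;> simp [glue, hx]

theorem sum_glue {N W : Type} [Fintype N] [DecidableEq N] [Fintype W] (A : Finset N)
    (g : (N → W) → ℝ) :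
    ∑ a : N → W, ∑ b : N → W, g (glue A a b) = (Nat.card (N → W) : ℝ) * ∑ ω, g ω := by
  classical
  rw [← Fintype.sum_prod_type']
  let Φ : ((N → W) × (N → W)) ≃ ((N → W) × (N → W)) :=
    { toFun := fun ab => (glue A ab.1 ab.2, glue A ab.2 ab.1)
      invFun := fun ab => (glue A ab.1 ab.2, glue A ab.2 ab.1)
      left_inv := fun ab => by
        obtain ⟨a, b⟩ := ab
        simp only [glue_glue]
      right_inv := fun ab => by
        obtain ⟨a, b⟩ := ab
        simp only [glue_glue] }
  have h1 : ∑ x : (N → W) × (N → W), g (glue A x.1 x.2) =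
      ∑ x : (N → W) × (N → W), g x.1 :=
    Equiv.sum_comp Φ (fun x => g x.1)
  rw [h1, Fintype.sum_prod_type]
  simp only [Finset.sum_const, Finset.card_univ, nsmul_eq_mul]
  rw [← Finset.mul_sum, Nat.card_eq_fintype_card]

theorem energy_cmp {N W : Type} [Fintype N] [DecidableEq N] [Fintype W] [Nonempty W]
    (A : Finset N) (F G : (N → W) → ℝ) (hF : ∀ a, F a = 1 ∨ F a = -1)
    (hG : ∀ a, G a = 1 ∨ G a = -1) (δ : ℝ)
    (h : ((Nat.card {a : N → W // G a ≠ F a} : ℕ) : ℝ) ≤ δ * (Nat.card (N → W) : ℝ)) :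
    energy A G ≤ 2 * energy A F + 8 * δ := by
  classical
  set c : ℝ := (Nat.card (N → W) : ℝ) with hc
  have hc0 : 0 < c := by
    rw [hc]
    exact_mod_cast Nat.card_pos
  have hcard : ((Finset.univ : Finset (N → W)).card : ℝ) = c := by
    rw [hc, Nat.card_eq_fintype_card, Finset.card_univ]
  -- squares of differences
  have hsq : ∀ ω, (G ω - F ω) ^ 2 = if G ω ≠ F ω then 4 else 0 := by
    intro ω
    rcases hF ω with h1 | h1 <;> rcases hG ω with h2 | h2 <;> rw [h1, h2] <;> norm_num
  have hsum : ∑ ω : N → W, (G ω - F ω) ^ 2 ≤ 4 * (δ * c) := by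
    have h1 : ∑ ω : N → W, (G ω - F ω) ^ 2 =
        4 * ((Nat.card {a : N → W // G a ≠ F a} : ℕ) : ℝ) := by
      rw [Finset.sum_congr rfl (fun ω _ => hsq ω), ← Finset.sum_filter, Finset.sum_const,
        nsmul_eq_mul, mul_comm, Nat.card_eq_fintype_card, Fintype.card_subtype]
    rw [h1]
    linarith
  -- pointwise bound
  have hpt : ∀ a : N → W, ((∑ b : N → W, G (glue A a b)) / c) ^ 2 ≤
      2 * ((∑ b : N → W, F (glue A a b)) / c) ^ 2 +
        2 * ((∑ b : N → W, (G (glue A a b) - F (glue A a b)) ^ 2) / c) := by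
    intro a
    have h1 : (∑ b : N → W, (G (glue A a b) - F (glue A a b))) ^ 2 ≤
        c * ∑ b : N → W, (G (glue A a b) - F (glue A a b)) ^ 2 := by
      have := sq_sum_le_card_mul_sum_sq (s := (Finset.univ : Finset (N → W)))
        (f := fun b => G (glue A a b) - F (glue A a b))
      rwa [hcard] at this
    have h2 : ((∑ b : N → W, (G (glue A a b) - F (glue A a b))) / c) ^ 2 ≤
        (∑ b : N → W, (G (glue A a b) - F (glue A a b)) ^ 2) / c := by
      rw [div_pow, div_le_div_iff₀ (by positivity) hc0]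
      nlinarith [mul_le_mul_of_nonneg_right h1 hc0.le]
    have h3 : (∑ b : N → W, G (glue A a b)) / c =
        (∑ b : N → W, F (glue A a b)) / c +
          (∑ b : N → W, (G (glue A a b) - F (glue A a b))) / c := by
      rw [Finset.sum_sub_distrib]
      ring
    rw [h3]
    nlinarith [sq_nonneg ((∑ b : N → W, F (glue A a b)) / c -
      (∑ b : N → W, (G (glue A a b) - F (glue A a b))) / c)]
  have hS : ∑ a : N → W, ∑ b : N → W, (G (glue A a b) - F (glue A a b)) ^ 2 ≤
      c * (4 * (δ * c)) := by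
    have := sum_glue A (fun ω : N → W => (G ω - F ω) ^ 2)
    rw [this]
    exact mul_le_mul_of_nonneg_left hsum hc0.le
  unfold energy
  rw [← hc]
  have h4 : ∑ a : N → W, ((∑ b : N → W, G (glue A a b)) / c) ^ 2 ≤
      2 * (∑ a : N → W, ((∑ b : N → W, F (glue A a b)) / c) ^ 2) + 8 * δ * c := by
    calc ∑ a : N → W, ((∑ b : N → W, G (glue A a b)) / c) ^ 2
        ≤ ∑ a : N → W, (2 * ((∑ b : N → W, F (glue A a b)) / c) ^ 2 +
        2 * ((∑ b : N → W, (G (glue A a b) - F (glue A a b)) ^ 2) / c)) :=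
          Finset.sum_le_sum (fun a _ => hpt a)
      _ = 2 * (∑ a : N → W, ((∑ b : N → W, F (glue A a b)) / c) ^ 2) +
          2 * ((∑ a : N → W, ∑ b : N → W, (G (glue A a b) - F (glue A a b)) ^ 2) / c) := by
          rw [Finset.sum_add_distrib, ← Finset.mul_sum, ← Finset.mul_sum, Finset.sum_div]
      _ ≤ _ := by
          have : (∑ a : N → W, ∑ b : N → W, (G (glue A a b) - F (glue A a b)) ^ 2) / c ≤
              4 * (δ * c) := by
            rw [div_le_iff₀ hc0]
            linarith
          linarith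
  calc (∑ a : N → W, ((∑ b : N → W, G (glue A a b)) / c) ^ 2) / c
      ≤ (2 * (∑ a : N → W, ((∑ b : N → W, F (glue A a b)) / c) ^ 2) + 8 * δ * c) / c :=
        div_le_div_of_nonneg_right h4 hc0.le
    _ = 2 * ((∑ a : N → W, ((∑ b : N → W, F (glue A a b)) / c) ^ 2) / c) + 8 * δ := by
        field_simp

end Pool.Agent.SQD
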