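import Pool.Agent.SQD.DlVal
import Pool.Agent.SQD.EnergyCmp

set_option autoImplicit false

/-!
The energy of the parity of the samples is at most the probability that all samples lie in `A`.

Proof. Let `all (a) : Prop := ∀ b, some (smp (a none).2 b) ∈ A`. For fixed `a`,
`∑ b', parityF smp (glue A a b') * [¬ all (glue A a b')] = 0`: the involution `b' ↦ b''`, which
flips the bit `(b' (some (smp Y β))).1 β`, where `Y = (glue A a b' none).2` is the label and `β` is
a bit name with `some (smp Y β) ∉ A` chosen as a function of `Y` (only), does not change `Y`,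
and changes the sign of `parityF`, because the bit named `β` occurs exactly once in the sum. (Flipping
a coordinate of `b'` at a place not in `A`, so `glue A a b''` changes exactly there.)
Hence `|E_b' parityF (glue A a b')| ≤ E_b' [all (glue A a b')]`, and its square is at most the same
(`x ∈ [0,1]`). Average over `a` with `sum_glue`: the energy is at most the proportion of the `ω : Option X →
(B → ZMod 2) × L` with `all ω`, which is the proportion of the labels `Y` with `∀ b, some (smp Y b) ∈ A`.
-/

namespace Pool.Agent.SQD

open Finset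

private theorem glue_update {N W : Type} [DecidableEq N] (A : Finset N) (a b : N → W) (x : N)
    (hx : x ∉ A) (w : W) :
    glue A a (Function.update b x w) = Function.update (glue A a b) x w := by
  funext y
  by_cases hy : y = x
  · subst hy; simp [glue, hx]
  · simp [glue, Function.update_of_ne hy]

private theorem hide_sum {X B L : Type} [Fintype X] [DecidableEq X] [Fintype B] [DecidableEq B]
    [Fintype L] (smp : L → B → X) (A : Finset (Option X))
    (a : Option X → (B → ZMod 2) × L) (s : Finset (Option X → (B → ZMod 2) × L))
    (hs : ∀ b', b' ∈ s ↔ ¬ ∀ b, some (smp (glue A a b' none).2 b) ∈ A) :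
    ∑ b' ∈ s, parityF smp (glue A a b') = 0 := by
  classical
  rcases isEmpty_or_nonempty B with hB | hB
  · have : s = ∅ := by
      ext b'
      rw [hs]
      simp
    rw [this, Finset.sum_empty]
  have hex : ∀ Y : L, ∃ β : B, (∃ b, some (smp Y b) ∉ A) → some (smp Y β) ∉ A := by
    intro Y
    by_cases h : ∃ b, some (smp Y b) ∉ A
    · exact ⟨h.choose, fun _ => h.choose_spec⟩
    · exact ⟨Classical.arbitrary B, fun h' => absurd h' h⟩
  choose β hβ using hex
  let Yo : (Option X → (B → ZMod 2) × L) → L := fun b' => (glue A a b' none).2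
  let pl : (Option X → (B → ZMod 2) × L) → Option X := fun b' => some (smp (Yo b') (β (Yo b')))
  let fl : B → (B → ZMod 2) × L → (B → ZMod 2) × L :=
    fun c w => (Function.update w.1 c (w.1 c + 1), w.2)
  let g : (Option X → (B → ZMod 2) × L) → (Option X → (B → ZMod 2) × L) :=
    fun b' => Function.update b' (pl b') (fl (β (Yo b')) (b' (pl b')))
  have hout : ∀ b' ∈ s, pl b' ∉ A := by
    intro b' hb'
    apply hβ
    rw [hs] at hb'
    push Not at hb'
    exact hb'
  have hglue : ∀ b' ∈ s, glue A a (g b')
      = Function.update (glue A a b') (pl b') (fl (β (Yo b')) (b' (pl b'))) := by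
    intro b' hb'
    exact glue_update A a b' _ (hout b' hb') _
  have hY : ∀ b' ∈ s, glue A a (g b') none = glue A a b' none := by
    intro b' hb'
    rw [hglue b' hb', Function.update_of_ne]
    simp [pl]
  have hYo : ∀ b' ∈ s, Yo (g b') = Yo b' := by
    intro b' hb'
    simp only [Yo, hY b' hb']
  have hflip : ∀ z : ZMod 2, sgn z + sgn (z + 1) = 0 := by
    intro z
    have h1 : sgn (1 : ZMod 2) = -1 := by
      unfold sgn
      rw [if_neg (by decide)]
    rw [sgn_add, h1]
    ring
  refine Finset.sum_involution (fun b' _ => g b') ?_ ?_ ?_ ?_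
  · intro b' hb'
    have e : ∑ b, (glue A a (g b') (some (smp (glue A a (g b') none).2 b))).1 b
        = ∑ b, (glue A a b' (some (smp (glue A a b' none).2 b))).1 b + 1 := by
      rw [hY b' hb', hglue b' hb']
      have hval : glue A a b' (pl b') = b' (pl b') := by
        simp [glue, hout b' hb']
      have hterm : ∀ b, (Function.update (glue A a b') (pl b')
            (fl (β (Yo b')) (b' (pl b'))) (some (smp (glue A a b' none).2 b))).1 b
          = (glue A a b' (some (smp (glue A a b' none).2 b))).1 b
            + (if b = β (Yo b') then 1 else 0) := by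
        intro b
        by_cases hx : some (smp (glue A a b' none).2 b) = pl b'
        · rw [hx, Function.update_self, hval]
          simp only [fl]
          by_cases hb : b = β (Yo b')
          · subst hb
            simp
          · simp [Function.update_of_ne hb, hb]
        · rw [Function.update_of_ne hx]
          have hb : b ≠ β (Yo b') := by
            rintro rfl
            exact hx rfl
          simp [hb]
      rw [Finset.sum_congr rfl (fun b _ => hterm b), Finset.sum_add_distrib]
      simp
    have e2 : parityF smp (glue A a (g b'))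
        = sgn (∑ b, (glue A a b' (some (smp (glue A a b' none).2 b))).1 b + 1) := by
      unfold parityF
      rw [e]
    rw [e2]
    exact hflip _
  · intro b' hb' _ heq
    have := congrFun heq (pl b')
    simp only [g, Function.update_self, fl] at this
    have h2 := congrFun (congrArg Prod.fst this) (β (Yo b'))
    simp at h2
  · intro b' hb'
    rw [hs]
    rw [hs] at hb'
    have hb'' : b' ∈ s := (hs b').2 hb'
    rw [hY b' hb'']
    exact hb'
  · intro b' hb'
    have h1 : Yo (g b') = Yo b' := hYo b' hb'
    have h2 : pl (g b') = pl b' := by simp only [pl, h1]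
    change Function.update (g b') (pl (g b')) (fl (β (Yo (g b'))) (g b' (pl (g b')))) = b'
    rw [h1, h2]
    funext y
    by_cases hy : y = pl b'
    · subst hy
      rw [Function.update_self]
      simp only [g, Function.update_self, fl, Function.update_idem]
      ext c
      · by_cases hc : c = β (Yo b')
        · subst hc
          simp only [Function.update_self]
          have : (1:ZMod 2) + 1 = 0 := by decide
          rw [add_assoc, this, add_zero]
        · simp [Function.update_of_ne hc]
      · rfl
    · rw [Function.update_of_ne hy]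
      simp only [g]
      rw [Function.update_of_ne hy]

theorem energy_hide {X B L : Type} [Fintype X] [DecidableEq X] [Fintype B] [DecidableEq B]
    [Fintype L] [Nonempty L] (smp : L → B → X) (A : Finset (Option X)) (q : ℝ)
    (h : ((Nat.card {Y : L // ∀ b, some (smp Y b) ∈ A} : ℕ) : ℝ) ≤ q * (Nat.card L : ℝ)) :
    energy A (parityF smp) ≤ q := by
  classical
  let good : L → Prop := fun Y => ∀ b, some (smp Y b) ∈ A
  let ind : (Option X → (B → ZMod 2) × L) → ℝ := fun ω => if good (ω none).2 then 1 else 0
  set C : ℝ := (Nat.card (Option X → (B → ZMod 2) × L) : ℝ) with hC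
  have hCpos : 0 < C := by
    have : 0 < Nat.card (Option X → (B → ZMod 2) × L) := Nat.card_pos
    rw [hC]; exact_mod_cast this
  have hCu : ((Finset.univ : Finset (Option X → (B → ZMod 2) × L)).card : ℝ) = C := by
    rw [hC, Nat.card_eq_fintype_card, Finset.card_univ]
  -- fixed a
  have key : ∀ a : Option X → (B → ZMod 2) × L,
      |∑ b', parityF smp (glue A a b')| ≤ ∑ b', ind (glue A a b') := by
    intro a
    rw [← Finset.sum_filter_add_sum_filter_not Finset.univ
      (fun b' => good (glue A a b' none).2) (fun b' => parityF smp (glue A a b')),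
      hide_sum smp A a (Finset.univ.filter (fun b' => ¬ good (glue A a b' none).2))
        (by intro b'; simp [good]), add_zero]
    refine (Finset.abs_sum_le_sum_abs _ _).trans ?_
    rw [Finset.sum_filter]
    refine Finset.sum_le_sum fun b' _ => ?_
    by_cases hg : good (glue A a b' none).2
    · simp only [hg, if_true, ind]
      unfold parityF
      rcases sgn_or (∑ b, (glue A a b' (some (smp (glue A a b' none).2 b))).1 b) with h1 | h1 <;>
        simp [h1]
    · simp [hg, ind]
  have hle1 : ∀ a : Option X → (B → ZMod 2) × L, ∑ b', ind (glue A a b') ≤ C := by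
    intro a
    rw [← hCu, ← nsmul_one, ← Finset.sum_const]
    refine Finset.sum_le_sum fun b' _ => ?_
    simp only [ind]
    split_ifs <;> norm_num
  have hge0 : ∀ a : Option X → (B → ZMod 2) × L, 0 ≤ ∑ b', ind (glue A a b') := by
    intro a
    refine Finset.sum_nonneg fun b' _ => ?_
    simp only [ind]
    split_ifs <;> norm_num
  have hsq : ∀ a : Option X → (B → ZMod 2) × L,
      ((∑ b', parityF smp (glue A a b')) / C) ^ 2 ≤ (∑ b', ind (glue A a b')) / C := by
    intro a
    have h1 : |(∑ b', parityF smp (glue A a b')) / C| ≤ (∑ b', ind (glue A a b')) / C := by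
      rw [abs_div, abs_of_pos hCpos]
      exact div_le_div_of_nonneg_right (key a) hCpos.le
    have h2 : (∑ b', ind (glue A a b')) / C ≤ 1 := by
      rw [div_le_one hCpos]; exact hle1 a
    have h3 : 0 ≤ (∑ b', ind (glue A a b')) / C := div_nonneg (hge0 a) hCpos.le
    rw [← sq_abs]
    nlinarith [abs_nonneg ((∑ b', parityF smp (glue A a b')) / C)]
  have hen : energy A (parityF smp) ≤ (∑ ω, ind ω) / C := by
    unfold energy
    rw [← hC]
    have h1 : ∑ a : Option X → (B → ZMod 2) × L, ((∑ b', parityF smp (glue A a b')) / C) ^ 2
        ≤ ∑ ω, ind ω := by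
      calc ∑ a : Option X → (B → ZMod 2) × L, ((∑ b', parityF smp (glue A a b')) / C) ^ 2
          ≤ ∑ a : Option X → (B → ZMod 2) × L, (∑ b', ind (glue A a b')) / C :=
            Finset.sum_le_sum fun a _ => hsq a
        _ = (∑ a : Option X → (B → ZMod 2) × L, ∑ b', ind (glue A a b')) / C := by
            rw [Finset.sum_div]
        _ = ∑ ω, ind ω := by
            rw [sum_glue, ← hC]
            field_simp
    exact div_le_div_of_nonneg_right h1 hCpos.le
  refine hen.trans ?_
  -- count
  have hsum : ∑ ω, ind ω
      = (Fintype.card (X → (B → ZMod 2) × L) : ℝ) * ((Fintype.card (B → ZMod 2) : ℝ)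
        * (Nat.card {Y : L // good Y} : ℝ)) := by
    rw [Fintype.sum_equiv (Equiv.piOptionEquivProd (β := fun _ : Option X => (B → ZMod 2) × L))
      ind (fun p => if good p.1.2 then (1:ℝ) else 0) (by intro ω; rfl)]
    have e1 : ∑ p : ((B → ZMod 2) × L) × (X → (B → ZMod 2) × L), (if good p.1.2 then (1:ℝ) else 0)
        = ∑ w : (B → ZMod 2) × L, (Fintype.card (X → (B → ZMod 2) × L) : ℝ)
            * (if good w.2 then (1:ℝ) else 0) := by
      rw [Fintype.sum_prod_type]
      refine Finset.sum_congr rfl fun w _ => ?_
      change ∑ _y : X → (B → ZMod 2) × L, (if good w.2 then (1:ℝ) else 0) = _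
      rw [Finset.sum_const, Finset.card_univ, nsmul_eq_mul]
    have e2 : ∑ w : (B → ZMod 2) × L, (if good w.2 then (1:ℝ) else 0)
        = (Fintype.card (B → ZMod 2) : ℝ) * ∑ Y : L, (if good Y then (1:ℝ) else 0) := by
      rw [Fintype.sum_prod_type]
      change ∑ _y : B → ZMod 2, ∑ Y : L, (if good Y then (1:ℝ) else 0) = _
      rw [Finset.sum_const, Finset.card_univ, nsmul_eq_mul]
    have e3 : ∑ Y : L, (if good Y then (1:ℝ) else 0) = (Nat.card {Y : L // good Y} : ℝ) := by
      rw [← Finset.sum_filter, Finset.sum_const, nsmul_eq_mul, mul_one,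
        Nat.card_eq_fintype_card, Fintype.card_subtype]
    rw [← e3, ← e2]
    refine Eq.trans ?_ (Finset.mul_sum _ _ _).symm
    exact e1
  have hCe : C = (Fintype.card (X → (B → ZMod 2) × L) : ℝ) * ((Fintype.card (B → ZMod 2) : ℝ)
        * (Nat.card L : ℝ)) := by
    rw [hC, Nat.card_congr (Equiv.piOptionEquivProd (β := fun _ : Option X => (B → ZMod 2) × L)),
      Nat.card_prod, Nat.card_prod, Nat.card_eq_fintype_card, Nat.card_eq_fintype_card,
      Nat.card_eq_fintype_card]
    push_cast
    ring
  rw [div_le_iff₀ hCpos, hsum, hCe]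
  have hp1 : (0:ℝ) ≤ (Fintype.card (X → (B → ZMod 2) × L) : ℝ) := Nat.cast_nonneg _
  have hp2 : (0:ℝ) ≤ (Fintype.card (B → ZMod 2) : ℝ) := Nat.cast_nonneg _
  have := mul_le_mul_of_nonneg_left (mul_le_mul_of_nonneg_left h hp2) hp1
  calc _ ≤ _ := this
    _ = _ := by ring

end Pool.Agent.SQD
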