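import Pool.Agent.SQD.Defs

set_option autoImplicit false

/-!
STUB. Whether a rule fires depends only on the blocks seen from its windows.

Proof. If the window check `∀ i, win (Y i) (fun j => ρ.1 (i, j)) = ρ.2.1 i` fails, both sides are `false`.
Otherwise every point bit `ptBit smp ζ Y i p` with `p ∈ T.vis (fun j => ρ.1 (i, j))` is the same for `ζ`
and `ζ'`, because its samples lie in `V (win (Y i) _) = V (ρ.2.1 i)` by `hV`; the blocks
`T.blk j _ s` with `s < ρ.1 (i, j)` are contained in `T.vis _` by `T.sub`.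
-/

namespace Pool.Agent.SQD

open Finset

theorem fires_local {g m s : ℕ} {S P X E L : Type} [Fintype P] [LinearOrder S]
    (T : BlockTree m S P) (win : L → (Fin m → S) → E) (smp : L → P × Fin s → X)
    (V : E → Set X) (hV : ∀ Y t p j, p ∈ T.vis t → smp Y (p, j) ∈ V (win Y t))
    (ρ : Rule g m S E) (ζ ζ' : Fin g × X → Fin g × (P × Fin s) → ZMod 2) (Y : Fin g → L)
    (h : ∀ i x, x ∈ V (ρ.2.1 i) → ζ (i, x) = ζ' (i, x)) :
    fires T (fun i => win (Y i)) (ptBit smp ζ Y) ρ =
      fires T (fun i => win (Y i)) (ptBit smp ζ' Y) ρ := by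
  classical
  unfold fires
  rw [decide_eq_decide]
  refine and_congr_right fun hA => ?_
  have hpt : ∀ i p, p ∈ T.vis (fun j => ρ.1 (i, j)) →
      ptBit smp ζ Y i p = ptBit smp ζ' Y i p := by
    intro i p hp
    unfold ptBit
    refine Finset.sum_congr rfl fun j _ => ?_
    have h1 := hV (Y i) _ p j hp
    have h2 : win (Y i) (fun j => ρ.1 (i, j)) = ρ.2.1 i := hA i
    rw [h2] at h1
    rw [h i _ h1]
  have hB : ∀ i j s', s' < ρ.1 (i, j) →
      ∑ p ∈ T.blk j (fun j' => ρ.1 (i, j')) s', ptBit smp ζ Y i p =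
      ∑ p ∈ T.blk j (fun j' => ρ.1 (i, j')) s', ptBit smp ζ' Y i p := by
    intro i j s' hs'
    refine Finset.sum_congr rfl fun p hp => hpt i p ?_
    exact T.sub j (fun j' => ρ.1 (i, j')) s' (ne_of_lt hs') hp
  have hC : ∑ i, ∑ p ∈ T.vis (fun j => ρ.1 (i, j)), ptBit smp ζ Y i p =
      ∑ i, ∑ p ∈ T.vis (fun j => ρ.1 (i, j)), ptBit smp ζ' Y i p :=
    Finset.sum_congr rfl fun i _ => Finset.sum_congr rfl fun p hp => hpt i p hp
  rw [hC]
  refine and_congr_left' ?_
  constructor
  · intro hb i j s' hs'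
    rw [← hB i j s' hs']
    exact hb i j s' hs'
  · intro hb i j s' hs'
    rw [hB i j s' hs']
    exact hb i j s' hs'

end Pool.Agent.SQD
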