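import Pool.Agent.SQD.Defs

set_option autoImplicit false

/-!
The game fails rarely.

Proof. Union bound over `i : Fin g`, `j : Fin m`, `t : Fin m → S`: for fixed `i, j, t` the map
`Z ↦ (∑ p ∈ T.blk j t s, Z i p)_s` from `Fin g → P → ZMod 2` to `S → ZMod 2` is additive and onto, because
the blocks are nonempty (`T.ne`) and pairwise disjoint (`T.disj`); so its kernel has
`Nat.card (Fin g → P → ZMod 2) / 2 ^ Nat.card S` elements.
-/

namespace Pool.Agent.SQD

open Finset

private lemma gameFail_ker {G H : Type} [AddCommGroup G] [AddCommGroup H] [Finite G] [Finite H]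
    (f : G →+ H) (hf : Function.Surjective f) :
    Nat.card {z : G // f z = 0} * Nat.card H = Nat.card G := by
  have h1 := AddSubgroup.card_eq_card_quotient_mul_card_addSubgroup f.ker
  have h2 : Nat.card (G ⧸ f.ker) = Nat.card H :=
    Nat.card_congr (QuotientAddGroup.quotientKerEquivOfSurjective f hf).toEquiv
  have h3 : Nat.card f.ker = Nat.card {z : G // f z = 0} := rfl
  rw [h1, h2, h3, mul_comm]

/-- The parities of the blocks. -/
private def gameFailMap {g m : ℕ} {S P : Type} [Fintype P] (T : BlockTree m S P) (i : Fin g)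
    (j : Fin m) (t : Fin m → S) : (Fin g → P → ZMod 2) →+ (S → ZMod 2) where
  toFun Z := fun s => ∑ p ∈ T.blk j t s, Z i p
  map_zero' := by
    funext s
    simp
  map_add' Z Z' := by
    funext s
    simp [Finset.sum_add_distrib]

private lemma gameFailMap_surj {g m : ℕ} {S P : Type} [Finite S] [Fintype P]
    (T : BlockTree m S P) (i : Fin g) (j : Fin m) (t : Fin m → S) :
    Function.Surjective (gameFailMap T i j t) := by
  classical
  have := Fintype.ofFinite S
  intro y
  choose q hq using fun s => T.ne j t s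
  refine ⟨fun _ p => ∑ s, if p = q s then y s else 0, ?_⟩
  funext s
  show ∑ p ∈ T.blk j t s, (∑ s', if p = q s' then y s' else 0) = y s
  rw [Finset.sum_comm, Finset.sum_eq_single s]
  · rw [Finset.sum_ite_eq' (T.blk j t s) (q s) (fun _ => y s), if_pos (hq s)]
  · intro s' _ hs'
    rw [Finset.sum_ite_eq' (T.blk j t s) (q s') (fun _ => y s'), if_neg]
    intro h
    exact (Finset.disjoint_left.1 (T.disj j t s' s hs')) (hq s') h
  · intro h
    exact absurd (Finset.mem_univ s) h

theorem game_fail {g m : ℕ} {S P : Type} [Finite S] [Fintype P] (T : BlockTree m S P) :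
    ((Nat.card {Z : Fin g → P → ZMod 2 // ∃ i j t, ∀ s, ∑ p ∈ T.blk j t s, Z i p = 0} : ℕ) : ℝ) ≤
      ((g : ℝ) * m * (Nat.card S : ℝ) ^ m / 2 ^ Nat.card S) *
        (Nat.card (Fin g → P → ZMod 2) : ℝ) := by
  classical
  have := Fintype.ofFinite S
  set κ := Fin g × Fin m × (Fin m → S) with hκ
  have hfib : ∀ k : κ, (Nat.card {Z : Fin g → P → ZMod 2 //
      ∀ s, ∑ p ∈ T.blk k.2.1 k.2.2 s, Z k.1 p = 0} : ℝ) =
      (Nat.card (Fin g → P → ZMod 2) : ℝ) / 2 ^ Nat.card S := by
    intro k
    have h1 := gameFail_ker (gameFailMap T k.1 k.2.1 k.2.2)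
      (gameFailMap_surj T k.1 k.2.1 k.2.2)
    have h2 : Nat.card {Z : Fin g → P → ZMod 2 // gameFailMap T k.1 k.2.1 k.2.2 Z = 0} =
        Nat.card {Z : Fin g → P → ZMod 2 // ∀ s, ∑ p ∈ T.blk k.2.1 k.2.2 s, Z k.1 p = 0} := by
      refine Nat.card_congr (Equiv.subtypeEquivRight fun Z => ?_)
      exact funext_iff
    have h3 : Nat.card (S → ZMod 2) = 2 ^ Nat.card S := by
      rw [Nat.card_fun]
      simp
    rw [h2, h3] at h1
    rw [eq_div_iff (by positivity)]
    exact_mod_cast h1
  have hunion : (Nat.card {Z : Fin g → P → ZMod 2 //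
      ∃ i j t, ∀ s, ∑ p ∈ T.blk j t s, Z i p = 0} : ℕ) ≤
      ∑ k : κ, Nat.card {Z : Fin g → P → ZMod 2 //
        ∀ s, ∑ p ∈ T.blk k.2.1 k.2.2 s, Z k.1 p = 0} := by
    simp only [Nat.card_eq_fintype_card, Fintype.card_subtype]
    refine le_trans (Finset.card_le_card ?_) Finset.card_biUnion_le
    intro Z hZ
    simp only [Finset.mem_filter, Finset.mem_univ, true_and] at hZ
    obtain ⟨i, j, t, h⟩ := hZ
    simp only [Finset.mem_biUnion, Finset.mem_filter, Finset.mem_univ, true_and]
    exact ⟨(i, j, t), h⟩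
  calc ((Nat.card {Z : Fin g → P → ZMod 2 //
        ∃ i j t, ∀ s, ∑ p ∈ T.blk j t s, Z i p = 0} : ℕ) : ℝ)
      ≤ ((∑ k : κ, Nat.card {Z : Fin g → P → ZMod 2 //
        ∀ s, ∑ p ∈ T.blk k.2.1 k.2.2 s, Z k.1 p = 0} : ℕ) : ℝ) := by exact_mod_cast hunion
    _ = ∑ k : κ, (Nat.card (Fin g → P → ZMod 2) : ℝ) / 2 ^ Nat.card S := by
        push_cast
        exact Finset.sum_congr rfl fun k _ => hfib k
    _ = _ := by
        have hc : Fintype.card κ = g * (m * Nat.card S ^ m) := by
          rw [Nat.card_eq_fintype_card (α := S)]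
          simp [κ]
        rw [Finset.sum_const, Finset.card_univ, nsmul_eq_mul, hc]
        push_cast
        ring

end Pool.Agent.SQD
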