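import Pool.Agent.SQD.DlVal

set_option autoImplicit false

/-!
STUB. Sorting the rules by decreasing priority gives a decision list whose value is the common output
of the firing rules of highest priority.

Proof. `e₀ : Fin n ≃ Q` any enumeration, `σ = Tuple.sort (fun k => OrderDual.toDual (prio (e₀ k)))`,
`e = σ.trans e₀`; `Tuple.monotone_sort` says that `k ↦ prio (e k)` is antitone. The first `k` with
`v (e k) = true` has maximal priority among the firing rules; use `dlVal_hit`.
-/

namespace Pool.Agent.SQD

open Finset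

theorem sort_rules {Q α : Type} [Fintype Q] [LinearOrder α] (prio : Q → α) {n : ℕ}
    (hn : Fintype.card Q = n) :
    ∃ e : Fin n ≃ Q, ∀ (out : Q → ℝ) (b₀ : ℝ) (v : Q → Bool) (y : ℝ), (∃ ρ, v ρ = true) →
      (∀ ρ, v ρ = true → (∀ ρ', v ρ' = true → prio ρ' ≤ prio ρ) → out ρ = y) →
      dlVal (fun k => out (e k)) b₀ (fun k => v (e k)) = y := by
  classical
  let e₀ : Fin n ≃ Q := (Fintype.equivFinOfCardEq hn).symm
  let f : Fin n → αᵒᵈ := fun k => OrderDual.toDual (prio (e₀ k))
  let σ : Equiv.Perm (Fin n) := Tuple.sort f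
  have hmono : Monotone (f ∘ σ) := Tuple.monotone_sort f
  refine ⟨σ.trans e₀, ?_⟩
  intro out b₀ v y hex hmax
  set e : Fin n ≃ Q := σ.trans e₀ with he
  have hanti : ∀ j k : Fin n, j ≤ k → prio (e k) ≤ prio (e j) := by
    intro j k hjk
    have := hmono hjk
    exact OrderDual.toDual_le_toDual.1 this
  have hne : (univ.filter (fun k => v (e k) = true)).Nonempty := by
    obtain ⟨ρ, hρ⟩ := hex
    refine ⟨e.symm ρ, ?_⟩
    simp [hρ]
  set k := (univ.filter (fun k => v (e k) = true)).min' hne with hk
  have hkm : v (e k) = true := by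
    have := Finset.min'_mem _ hne
    rw [mem_filter] at this
    exact this.2
  have hlt : ∀ j, j < k → v (e j) = false := by
    intro j hj
    by_contra hcon
    have h1 : v (e j) = true := by
      cases h : v (e j)
      · exact absurd h hcon
      · rfl
    have h2 : k ≤ j := Finset.min'_le _ _ (by simp [h1])
    exact absurd hj (not_lt.2 h2)
  rw [dlVal_hit (fun k => out (e k)) b₀ (fun k => v (e k)) k hkm hlt]
  apply hmax _ hkm
  intro ρ' hρ'
  have h1 : v (e (e.symm ρ')) = true := by rw [Equiv.apply_symm_apply]; exact hρ'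
  have h2 : k ≤ e.symm ρ' := Finset.min'_le _ _ (by
    simp only [mem_filter, mem_univ, true_and]; exact h1)
  have h3 := hanti _ _ h2
  rw [Equiv.apply_symm_apply] at h3
  exact h3

end Pool.Agent.SQD
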