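import Pool.Agent.SQD.TreeMax
import Pool.Agent.SQD.SortRules

set_option autoImplicit false

/-!
The decision list computes the parity of all point bits, unless all blocks at some level below
some prefix have parity zero.

Proof. Use `sort_rules` with the priority `prio ρ = toLex (fun ij : Fin g ×ₗ Fin m => ρ.1 (ofLex ij))` in
`Lex ((Fin g ×ₗ Fin m) → S)`. For given `wn`, `Z` let
`f ij t s := ∑ p ∈ T.blk j (fun j' => t (toLex (i, j'))) s, Z i p ≠ 0`, `(i, j) = ofLex ij`.
It depends only on the `t ij'` with `ij' < ij` (`T.dep`: for `j' < j`, `(i, j') < (i, j)` in the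
lexicographic order). A firing rule has an active leaf, and conversely every active leaf
has exactly one firing rule (window `wn i t_i`, predicted parity computed). The set of active
leaves is nonempty (the constant least leaf is active). So if `ρ` is a firing rule of maximal priority,
its leaf is the lexicographically largest active one, and by `tree_max` all the blocks
`T.blk j t_i (t_i j)` have parity `1` (nonzero in `ZMod 2`). By `T.total`,
`∑ i, ∑ p, Z i p = ∑ i, ∑ p ∈ T.vis t_i, Z i p + g * m`, which is the predicted parity `ρ.2.2`.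
-/

namespace Pool.Agent.SQD

open Finset

private lemma gameOrder_fires_iff {g m : ℕ} {S P E : Type} [Fintype P] [LinearOrder S]
    (T : BlockTree m S P) (wn : Fin g → (Fin m → S) → E) (Z : Fin g → P → ZMod 2)
    (ρ : Rule g m S E) :
    fires T wn Z ρ = true ↔ ((∀ i, wn i (fun j => ρ.1 (i, j)) = ρ.2.1 i) ∧
    (∀ i j s, s < ρ.1 (i, j) → ∑ p ∈ T.blk j (fun j' => ρ.1 (i, j')) s, Z i p = 0) ∧
    ∑ i, ∑ p ∈ T.vis (fun j => ρ.1 (i, j)), Z i p + ((g * m : ℕ) : ZMod 2) = ρ.2.2) := by
  classical
  unfold fires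
  exact decide_eq_true_iff

theorem game_order {g m : ℕ} {S P E : Type} [LinearOrder S] [Fintype S] [Nonempty S]
    [Fintype P] [Finite E] (T : BlockTree m S P) {n : ℕ}
    (hn : Nat.card (Rule g m S E) = n) :
    ∃ e : Fin n ≃ Rule g m S E, ∀ (wn : Fin g → (Fin m → S) → E) (Z : Fin g → P → ZMod 2),
      (∀ i j t, ∃ s, ∑ p ∈ T.blk j t s, Z i p ≠ 0) →
      dlVal (fun k => sgn (e k).2.2) 1 (fun k => fires T wn Z (e k)) =
        sgn (∑ i, ∑ p, Z i p) := by
  classical
  have := Fintype.ofFinite E
  set prio : Rule g m S E → Lex ((Fin g ×ₗ Fin m) → S) :=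
    fun ρ => toLex (fun ij => ρ.1 (ofLex ij)) with hprio
  have hn' : Fintype.card (Rule g m S E) = n := by
    rw [← hn, Nat.card_eq_fintype_card]
  obtain ⟨e, he⟩ := sort_rules prio hn'
  refine ⟨e, fun wn Z hZ => ?_⟩
  refine he (fun ρ => sgn ρ.2.2) 1 (fun ρ => fires T wn Z ρ) _ ?_ ?_
  · obtain ⟨s₀, hs₀⟩ := Finite.exists_min (id : S → S)
    refine ⟨(fun _ => s₀, fun i => wn i (fun _ => s₀),
      ∑ i : Fin g, ∑ p ∈ T.vis (fun _ : Fin m => s₀), Z i p + ((g * m : ℕ) : ZMod 2)), ?_⟩
    rw [gameOrder_fires_iff]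
    refine ⟨fun i => rfl, fun i j s hs => ?_, rfl⟩
    exact absurd hs (not_lt.2 (hs₀ s))
  · intro ρ hρ hmaxρ
    rw [gameOrder_fires_iff] at hρ
    obtain ⟨hw, hact, hpar⟩ := hρ
    have hkey := tree_max (N := Fin g ×ₗ Fin m) (S := S)
      (fun ij t s => ∑ p ∈ T.blk (ofLex ij).2 (fun j' => t (toLex ((ofLex ij).1, j'))) s,
        Z (ofLex ij).1 p ≠ 0)
      (by
        intro ij t t' s h
        have h1 := T.dep (ofLex ij).2 (fun j' => t (toLex ((ofLex ij).1, j')))
          (fun j' => t' (toLex ((ofLex ij).1, j'))) s (by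
            intro j' hj'
            apply h
            have h2 : toLex ((ofLex ij).1, j') < toLex ((ofLex ij).1, (ofLex ij).2) := by
              rw [Prod.Lex.toLex_lt_toLex]
              right
              exact ⟨rfl, hj'⟩
            exact h2)
        simp only [h1])
      (by
        intro ij t
        exact hZ (ofLex ij).1 (ofLex ij).2 _)
      (fun ij => ρ.1 (ofLex ij))
      (by
        intro ij s hs
        have h1 := hact (ofLex ij).1 (ofLex ij).2 s hs
        simpa using h1)
      (by
        intro t' ht'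
        have h1 := hmaxρ (fun q => t' (toLex q), fun i => wn i (fun j => t' (toLex (i, j))),
          ∑ i : Fin g, ∑ p ∈ T.vis (fun j : Fin m => t' (toLex (i, j))), Z i p +
            ((g * m : ℕ) : ZMod 2)) (by
            rw [gameOrder_fires_iff]
            refine ⟨fun i => rfl, fun i j s hs => ?_, rfl⟩
            have h2 := ht' (toLex (i, j)) s hs
            simpa using h2)
        exact h1)
    have h01 : ∀ z : ZMod 2, z ≠ 0 → z = 1 := by decide
    have hone : ∀ i j, ∑ p ∈ T.blk j (fun j' => ρ.1 (i, j')) (ρ.1 (i, j)), Z i p = 1 :=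
      fun i j => h01 _ (hkey (toLex (i, j)))
    show sgn ρ.2.2 = _
    congr 1
    rw [← hpar]
    have h3 : ∀ i, ∑ p, Z i p = ∑ p ∈ T.vis (fun j => ρ.1 (i, j)), Z i p + (m : ZMod 2) := by
      intro i
      rw [T.total (fun j => ρ.1 (i, j)) (Z i)]
      congr 1
      rw [Finset.sum_congr rfl fun j _ => hone i j]
      simp
    rw [Finset.sum_congr rfl fun i _ => h3 i, Finset.sum_add_distrib]
    simp

end Pool.Agent.SQD
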