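import Pool.Agent.SQD.Defs

set_option autoImplicit false

/-!
STUB. For a fixed label the point bits are uniform.

Proof. `ζ ↦ ptBit smp ζ Y` is additive and onto: given `Z`, put `ζ x β = Z i p` if
`β = (i, (p, j₀))`, with a fixed `j₀ : Fin s`, and `0` otherwise (for all blocks `x`); then
`ptBit smp ζ Y i p = Z i p`. A surjective homomorphism of finite groups has fibres of constant size.
-/

namespace Pool.Agent.SQD

open Finset

private def fibEquiv {G H : Type} [AddCommGroup G] [AddCommGroup H] (φ : G →+ H) (σ : H → G)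
    (hσ : ∀ h, φ (σ h) = h) (C : Set H) : {x : G // φ x ∈ C} ≃ C × φ.ker where
  toFun x := (⟨φ x.1, x.2⟩, ⟨x.1 - σ (φ x.1), by
    rw [AddMonoidHom.mem_ker, map_sub, hσ, sub_self]⟩)
  invFun y := ⟨σ y.1.1 + y.2.1, by
    have h1 : φ y.2.1 = 0 := (AddMonoidHom.mem_ker).1 y.2.2
    rw [map_add, hσ, h1, add_zero]
    exact y.1.2⟩
  left_inv x := by
    apply Subtype.ext
    simp
  right_inv y := by
    have h1 : φ y.2.1 = 0 := (AddMonoidHom.mem_ker).1 y.2.2
    have h2 : φ (σ y.1.1 + y.2.1) = y.1.1 := by rw [map_add, hσ, h1, add_zero]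
    apply Prod.ext
    · apply Subtype.ext
      exact h2
    · apply Subtype.ext
      show σ y.1.1 + y.2.1 - σ (φ (σ y.1.1 + y.2.1)) = y.2.1
      rw [h2]
      abel

private theorem card_fib {G H : Type} [AddCommGroup G] [AddCommGroup H] (φ : G →+ H) (σ : H → G)
    (hσ : ∀ h, φ (σ h) = h) (B : Set H) :
    Nat.card {x : G // φ x ∈ B} * Nat.card H = Nat.card B * Nat.card G := by
  have h1 := Nat.card_congr (fibEquiv φ σ hσ B)
  have h2 := Nat.card_congr (fibEquiv φ σ hσ Set.univ)
  rw [Nat.card_prod] at h1 h2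
  have h3 : Nat.card {x : G // φ x ∈ (Set.univ : Set H)} = Nat.card G :=
    Nat.card_congr (Equiv.subtypeUnivEquiv fun x => Set.mem_univ (φ x))
  have h4 : Nat.card (Set.univ : Set H) = Nat.card H := Nat.card_congr (Equiv.Set.univ H)
  rw [h3, h4] at h2
  rw [h1, h2]
  ring

theorem pt_uniform {g s : ℕ} {P X L : Type} [Finite P] [Finite X] (smp : L → P × Fin s → X)
    (hs : 1 ≤ s) (Y : Fin g → L) (B : Set (Fin g → P → ZMod 2)) :
    Nat.card {ζ : Fin g × X → Fin g × (P × Fin s) → ZMod 2 // ptBit smp ζ Y ∈ B} *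
        Nat.card (Fin g → P → ZMod 2) =
      Nat.card B * Nat.card (Fin g × X → Fin g × (P × Fin s) → ZMod 2) := by
  let φ : (Fin g × X → Fin g × (P × Fin s) → ZMod 2) →+ (Fin g → P → ZMod 2) :=
    { toFun := fun ζ => ptBit smp ζ Y
      map_zero' := by
        funext i p
        simp [ptBit]
      map_add' := by
        intro a b
        funext i p
        simp [ptBit, Finset.sum_add_distrib] }
  let j₀ : Fin s := ⟨0, by omega⟩
  let σ : (Fin g → P → ZMod 2) → (Fin g × X → Fin g × (P × Fin s) → ZMod 2) :=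
    fun Z _ β => if β.2.2 = j₀ then Z β.1 β.2.1 else 0
  have hσ : ∀ h, φ (σ h) = h := by
    intro Z
    funext i p
    show ∑ j : Fin s, (if j = j₀ then Z i p else 0) = Z i p
    simp
  exact card_fib φ σ hσ B

end Pool.Agent.SQD
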