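import Pool.Agent.SQD.Realise
import Pool.Agent.SQD.GameOrder
import Pool.Agent.SQD.GameFail
import Pool.Agent.SQD.PtUniform
import Pool.Agent.SQD.FiresLocal
import Pool.Agent.SQD.Copies

set_option autoImplicit false

/-!
From a one-copy system to the family of decision lists.

Proof. Let `g = 2 * g'`, `X' = Fin g × X`, `B' = Fin g × (P × Fin s)`, `L' = Fin g → L`,
`smp' Y β = (β.1, smp (Y β.1) β.2)`. `Nat.card (Rule g m S E) = R` (`2 * |S| ^ (g m) * |E| ^ g`); take
`e : Fin R ≃ Rule g m S E` from `game_order`. Apply `realise` to `smp'`, `w' = g * w`,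
`V' k = {x | x.2 ∈ V ((e k).2.1 x.1)}` (at most `g * w` elements), `fire k ζ Y =
fires T (fun i => win (Y i)) (ptBit smp ζ Y) (e k)` (`hfire` is `fires_local`), `b k = sgn (e k).2.2`,
`b₀ = 1`, `ε = q ^ g'` (`copies`), and `δ` = the bound of `game_fail`: for every `Y`, if
`ptBit smp ζ Y` is not in the bad set of `game_fail`, the value is
`sgn (∑ i, ∑ p, ptBit smp ζ Y i p) = sgn (∑ β, ζ (smp' Y β) β)` (`game_order`; `Fintype.sum_prod_type`),
and the proportion of the `ζ` with `ptBit smp ζ Y` bad is the proportion of the bad set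
(`pt_uniform`). Sum over `Y`.
-/

namespace Pool.Agent.SQD

open Finset Pool.Agent.H74.SQ

private lemma fromSystem_card {g m R : ℕ} {S E : Type} [Finite S] [Finite E]
    (hR : R = 2 * Nat.card S ^ (g * m) * Nat.card E ^ g) :
    Nat.card (Rule g m S E) = R := by
  rw [hR]
  unfold Rule
  rw [Nat.card_prod, Nat.card_prod, Nat.card_fun, Nat.card_fun]
  have h1 : Nat.card (Fin g × Fin m) = g * m := by simp
  have h2 : Nat.card (ZMod 2) = 2 := by simp
  rw [h1, h2, Nat.card_eq_fintype_card (α := Fin g), Fintype.card_fin]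
  ring

private lemma fromSystem_ncard {g w : ℕ} {X : Type} [Finite X] (U : Fin g → Set X)
    (hU : ∀ i, (U i).ncard ≤ w) :
    {x : Fin g × X | x.2 ∈ U x.1}.ncard ≤ g * w := by
  classical
  have := Fintype.ofFinite X
  have e : {x : Fin g × X | x.2 ∈ U x.1} = ⋃ i, (fun x : X => (i, x)) '' U i := by
    ext ⟨i, x⟩
    simp only [Set.mem_ofPred_eq, Set.mem_iUnion, Set.mem_image, Prod.mk.injEq]
    constructor
    · intro h
      exact ⟨i, x, h, rfl, rfl⟩
    · rintro ⟨i', x', h, rfl, rfl⟩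
      exact h
  rw [e]
  calc (⋃ i, (fun x : X => (i, x)) '' U i).ncard
      ≤ ∑ i, ((fun x : X => (i, x)) '' U i).ncard := by
        have h1 := Set.ncard_iUnion_le_of_fintype (fun i => (fun x : X => (i, x)) '' U i)
        exact h1
    _ ≤ ∑ _i : Fin g, w := by
        refine Finset.sum_le_sum fun i _ => ?_
        exact (Set.ncard_image_le (Set.toFinite _)).trans (hU i)
    _ = g * w := by simp

theorem from_system {m s g' w C p R : ℕ} {S P X E L : Type} [LinearOrder S] [Fintype S]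
    [Nonempty S] [Fintype P] [Finite X] [Finite E] [Nonempty E] [Finite L] [Nonempty L]
    (T : BlockTree m S P) (win : L → (Fin m → S) → E) (smp : L → P × Fin s → X)
    (V : E → Set X) (hV : ∀ Y t p j, p ∈ T.vis t → smp Y (p, j) ∈ V (win Y t))
    (hVw : ∀ a, (V a).ncard ≤ w) (q : ℝ) (hq : 0 ≤ q) (hq1 : q ≤ 1)
    (hide : ∀ A : Set X, 10 * A.ncard ≤ Nat.card X →
      ((Nat.card {Y : L // ∀ b, smp Y b ∈ A} : ℕ) : ℝ) ≤ q * (Nat.card L : ℝ))
    (hC : 1 ≤ C) (hw : 1 ≤ w) (hw' : 40 * C * w ≤ Nat.card X) (hs : 1 ≤ s) (hg : 1 ≤ g')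
    (hp : p.Prime) (hpX : 2 * g' * Nat.card X < p)
    (hR : R = 2 * Nat.card S ^ (2 * g' * m) * Nat.card E ^ (2 * g')) :
    ∃ n : ℕ, R ≤ n ∧ n ≤ R * p ^ (2 * g' * w + 1) ∧ ∃ D : (Fin n → Bool) → ℝ, IsDist D ∧
      HasFamily (DecisionLists n R) D
        (2 * q ^ g' + 8 * (((2 * g' : ℕ) : ℝ) * m * (Nat.card S : ℝ) ^ m / 2 ^ Nat.card S))
        (p ^ (C * (2 * g' * w + 1) + 1)) := by
  classical
  have hcard : Nat.card (Rule (2 * g') m S E) = R := fromSystem_card hR
  have hR1 : 1 ≤ R := by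
    rw [hR]
    have h1 : 0 < Nat.card S := Nat.card_pos
    have h2 : 0 < Nat.card E := Nat.card_pos
    have h3 : 0 < Nat.card S ^ (2 * g' * m) := pow_pos h1 _
    have h4 : 0 < Nat.card E ^ (2 * g') := pow_pos h2 _
    have := Nat.mul_pos (Nat.mul_pos (by norm_num : 0 < 2) h3) h4
    omega
  obtain ⟨e, he⟩ := game_order T hcard
  set δ : ℝ := ((2 * g' : ℕ) : ℝ) * m * (Nat.card S : ℝ) ^ m / 2 ^ Nat.card S with hδ
  set smp' : (Fin (2 * g') → L) → Fin (2 * g') × (P × Fin s) → Fin (2 * g') × X :=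
    fun Y β => (β.1, smp (Y β.1) β.2) with hsmp'
  refine realise smp' R C (2 * g' * w) p hR1 hC ?_ hp ?_
    (fun k => {x | x.2 ∈ V ((e k).2.1 x.1)}) ?_
    (fun k ζ Y => fires T (fun i => win (Y i)) (ptBit smp ζ Y) (e k)) ?_
    (fun k => sgn (e k).2.2) 1 (fun k => sgn_or _) (Or.inl rfl) (q ^ g') δ ?_ ?_
  · have : 1 ≤ 2 * g' := by omega
    exact Nat.mul_pos (by omega) (by omega)
  · rw [Nat.card_prod]
    simpa using hpX
  · intro k
    exact fromSystem_ncard (fun i => V ((e k).2.1 i)) fun i => hVw _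
  · intro k ζ ζ' Y h
    exact fires_local T win smp V hV (e k) ζ ζ' Y fun i x hx => h (i, x) hx
  · intro A hA
    exact copies smp q hq hq1 hg hw' hide A hA
  · -- the failure probability
    set BS : Set (Fin (2 * g') → P → ZMod 2) :=
      {Z | ∃ i j t, ∀ s, ∑ p ∈ T.blk j t s, Z i p = 0} with hBS
    have hfail := game_fail (g := 2 * g') T
    have hBc : Nat.card {Z : Fin (2 * g') → P → ZMod 2 //
        ∃ i j t, ∀ s, ∑ p ∈ T.blk j t s, Z i p = 0} = Nat.card BS := rfl
    rw [hBc] at hfail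
    have hZpos : (0 : ℝ) < (Nat.card (Fin (2 * g') → P → ZMod 2) : ℝ) := by
      exact_mod_cast Nat.card_pos
    have hY : ∀ Y : Fin (2 * g') → L,
        ((Nat.card {ζ : Fin (2 * g') × X → Fin (2 * g') × (P × Fin s) → ZMod 2 //
          ptBit smp ζ Y ∈ BS} : ℕ) : ℝ) ≤
        δ * (Nat.card (Fin (2 * g') × X → Fin (2 * g') × (P × Fin s) → ZMod 2) : ℝ) := by
      intro Y
      have h1 := pt_uniform smp hs Y BS
      have h2 : ((Nat.card {ζ : Fin (2 * g') × X → Fin (2 * g') × (P × Fin s) → ZMod 2 //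
          ptBit smp ζ Y ∈ BS} : ℕ) : ℝ) * (Nat.card (Fin (2 * g') → P → ZMod 2) : ℝ) =
          (Nat.card BS : ℝ) *
          (Nat.card (Fin (2 * g') × X → Fin (2 * g') × (P × Fin s) → ZMod 2) : ℝ) := by
        exact_mod_cast h1
      refine le_of_mul_le_mul_right ?_ hZpos
      rw [h2]
      calc (Nat.card BS : ℝ) *
          (Nat.card (Fin (2 * g') × X → Fin (2 * g') × (P × Fin s) → ZMod 2) : ℝ)
          ≤ (δ * (Nat.card (Fin (2 * g') → P → ZMod 2) : ℝ)) *
          (Nat.card (Fin (2 * g') × X → Fin (2 * g') × (P × Fin s) → ZMod 2) : ℝ) := by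
            gcongr
        _ = _ := by ring
    -- the bad pairs
    have hsub : Nat.card {z : ((Fin (2 * g') × X → Fin (2 * g') × (P × Fin s) → ZMod 2) ×
        (Fin (2 * g') → L)) // dlVal (fun k => sgn (e k).2.2) 1
          (fun k => fires T (fun i => win (z.2 i)) (ptBit smp z.1 z.2) (e k)) ≠
          sgn (∑ β, z.1 (smp' z.2 β) β)} ≤
        Nat.card (Σ Y : Fin (2 * g') → L,
          {ζ : Fin (2 * g') × X → Fin (2 * g') × (P × Fin s) → ZMod 2 //
            ptBit smp ζ Y ∈ BS}) := by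
      refine Nat.card_le_card_of_injective (fun z => ⟨z.1.2, ⟨z.1.1, ?_⟩⟩) ?_
      · by_contra hnot
        apply z.2
        have h1 := he (fun i => win (z.1.2 i)) (ptBit smp z.1.1 z.1.2) (by
          intro i j t
          by_contra hcon
          push Not at hcon
          exact hnot ⟨i, j, t, hcon⟩)
        rw [h1]
        congr 1
        rw [Fintype.sum_prod_type]
        refine Finset.sum_congr rfl fun i _ => ?_
        rw [Fintype.sum_prod_type]
        rfl
      · rintro ⟨⟨ζ, Y⟩, hz⟩ ⟨⟨ζ', Y'⟩, hz'⟩ h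
        simp only [Sigma.mk.injEq] at h
        obtain ⟨rfl, h2⟩ := h
        simp only [heq_eq_eq, Subtype.mk.injEq] at h2
        subst h2
        rfl
    have hfinal : ((Nat.card (Σ Y : Fin (2 * g') → L,
          {ζ : Fin (2 * g') × X → Fin (2 * g') × (P × Fin s) → ZMod 2 //
            ptBit smp ζ Y ∈ BS}) : ℕ) : ℝ) ≤
        δ * (Nat.card ((Fin (2 * g') × X → Fin (2 * g') × (P × Fin s) → ZMod 2) ×
        (Fin (2 * g') → L)) : ℝ) := by
      have := Fintype.ofFinite L
      rw [Nat.card_sigma, Nat.card_prod]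
      push_cast
      calc ∑ Y : Fin (2 * g') → L, (Nat.card
            {ζ : Fin (2 * g') × X → Fin (2 * g') × (P × Fin s) → ZMod 2 //
            ptBit smp ζ Y ∈ BS} : ℝ)
          ≤ ∑ _Y : Fin (2 * g') → L, δ *
            (Nat.card (Fin (2 * g') × X → Fin (2 * g') × (P × Fin s) → ZMod 2) : ℝ) :=
            Finset.sum_le_sum fun Y _ => hY Y
        _ = _ := by
            rw [Finset.sum_const, Finset.card_univ, nsmul_eq_mul,
              ← Nat.card_eq_fintype_card (α := Fin (2 * g') → L)]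
            ring
    refine le_trans ?_ hfinal
    exact_mod_cast hsub

end Pool.Agent.SQD
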