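import Pool.Agent.SQD.RedR

set_option autoImplicit false

/-!
Gadget lemma (G): extension of linear maps with values in polynomials, with vanishing diagonal
on `{y = 1}`.

Proof. Extend `mJ` to a linear map `m₀ : I → Pol κ d` (`LinearMap.exists_extend`). Then
`m₀ ι = ∑ k, b.repr ι k • m₀ (b k)`, so `g ι := ev b ι (m₀ ι) = ∑ k, b.coord k ι * ev b ι (m₀ (b k))`, and
`ev b ι c = ∑ τ, c τ * ∏ i, coordOpt b ι (τ i)` is a combination of products of `d` affine functions
(`coordOpt b ι none = 0 + 1`, `coordOpt b ι (some k) = b.coord k ι + 0`). So `g` is a sum of products of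
`d + 1` affine functions (`Fin.prod_univ_succ`), and by `red_R`, summed, there are `Q : Pol κ d`, a finite
family `u a` of functionals vanishing on `J`, and `P a : Pol κ d` with `g ι = ev b ι Q + ∑ a, u a ι * ev b ι (P a)`
(index `a` in a finite type such as `κ × (Fin d → Option κ) × Fin (d + 1)`). Put
`m ι = m₀ ι - ∑ a, u a ι • P a - y ι • Q`.
It is linear, equals `mJ` on `J`, and `ev b ι (m ι) = ev b ι Q - y ι * ev b ι Q`, which is `0` if `y ι = 1`.
-/

namespace Pool.Agent.SQD

open Finset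

/-- the affine function behind an optional coordinate -/
noncomputable def optAff {I κ : Type} [AddCommGroup I] [Module (ZMod 2) I]
    (b : Module.Basis κ (ZMod 2) I) : Option κ → Module.Dual (ZMod 2) I × ZMod 2
  | none => (0, 1)
  | some k => (b.coord k, 0)

theorem optAff_spec {I κ : Type} [AddCommGroup I] [Module (ZMod 2) I]
    (b : Module.Basis κ (ZMod 2) I) (o : Option κ) (ι : I) :
    (optAff b o).1 ι + (optAff b o).2 = coordOpt b ι o := by
  cases o with
  | none => simp [optAff, coordOpt]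
  | some k => simp [optAff, coordOpt]

theorem gadget_g {I κ : Type} [AddCommGroup I] [Module (ZMod 2) I] [Fintype κ]
    (b : Module.Basis κ (ZMod 2) I) {d : ℕ} (m₀ : I →ₗ[ZMod 2] Pol κ d) (ι : I) :
    ev b ι (m₀ ι) = ∑ k, ∑ τ : Fin d → Option κ, m₀ (b k) τ *
      (b.coord k ι * ∏ i, coordOpt b ι (τ i)) := by
  classical
  have h1 : m₀ ι = ∑ k, b.repr ι k • m₀ (b k) := by
    conv_lhs => rw [← b.sum_repr ι]
    rw [map_sum]
    simp only [map_smul]
  rw [h1, map_sum]
  apply Finset.sum_congr rfl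
  intro k _
  rw [map_smul, smul_eq_mul]
  simp only [ev, LinearMap.coe_mk, AddHom.coe_mk, Module.Basis.coord_apply]
  rw [Finset.mul_sum]
  apply Finset.sum_congr rfl
  intro τ _
  ring

theorem gadget {I κ : Type} [AddCommGroup I] [Module (ZMod 2) I] [Finite I] [Fintype κ]
    (b : Module.Basis κ (ZMod 2) I) {d : ℕ} (J : Submodule (ZMod 2) I)
    (hJ : Module.finrank (ZMod 2) J ≤ d) (y : Module.Dual (ZMod 2) I) (hy : ∀ x ∈ J, y x = 0)
    (mJ : J →ₗ[ZMod 2] Pol κ d) :
    ∃ m : I →ₗ[ZMod 2] Pol κ d, m.domRestrict J = mJ ∧ ∀ ι, y ι = 1 → ev b ι (m ι) = 0 := by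
  classical
  obtain ⟨m₀, hm₀⟩ := LinearMap.exists_extend mJ
  have hm₀x : ∀ x : J, m₀ (x : I) = mJ x := fun x => by
    have := LinearMap.congr_fun hm₀ x
    simpa using this
  have hR : ∀ (k : κ) (τ : Fin d → Option κ), ∃ (Q : Pol κ d)
      (u : Fin (d + 1) → Module.Dual (ZMod 2) I) (P : Fin (d + 1) → Pol κ d),
      (∀ a, ∀ x ∈ J, u a x = 0) ∧
      ∀ ι, b.coord k ι * ∏ i, coordOpt b ι (τ i) = ev b ι Q + ∑ a, u a ι * ev b ι (P a) := by
    intro k τ
    obtain ⟨Q, u, P, hu, h⟩ := red_R b J hJ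
      (Fin.cons (b.coord k) (fun i => (optAff b (τ i)).1))
      (Fin.cons 0 (fun i => (optAff b (τ i)).2))
    refine ⟨Q, u, P, hu, fun ι => ?_⟩
    rw [← h ι, Fin.prod_univ_succ]
    simp only [Fin.cons_zero, Fin.cons_succ, add_zero]
    congr 1
    apply Finset.prod_congr rfl
    intro i _
    exact (optAff_spec b (τ i) ι).symm
  choose Q u P hu hQ using hR
  refine ⟨m₀ - ∑ k, ∑ τ : Fin d → Option κ, ∑ a, (m₀ (b k) τ) •
      ((u k τ a).smulRight (P k τ a)) -
      y.smulRight (∑ k, ∑ τ : Fin d → Option κ, (m₀ (b k) τ) • Q k τ), ?_, ?_⟩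
  · ext1 x
    have h1 : ∀ k (τ : Fin d → Option κ) a, (u k τ a) (x : I) = 0 :=
      fun k τ a => hu k τ a x x.2
    simp only [LinearMap.domRestrict_apply, LinearMap.sub_apply, LinearMap.sum_apply,
      LinearMap.smul_apply, LinearMap.smulRight_apply, h1, zero_smul, smul_zero,
      Finset.sum_const_zero, hy x x.2, sub_zero]
    exact hm₀x x
  · intro ι hι
    simp only [LinearMap.sub_apply, LinearMap.sum_apply, LinearMap.smul_apply,
      LinearMap.smulRight_apply, hι, one_smul, map_sub, map_sum, map_smul, smul_eq_mul]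
    rw [gadget_g b m₀ ι]
    have h2 : ∀ k (τ : Fin d → Option κ), m₀ (b k) τ *
      (b.coord k ι * ∏ i, coordOpt b ι (τ i)) =
        m₀ (b k) τ * ev b ι (Q k τ) + ∑ a, m₀ (b k) τ * ((u k τ a) ι * ev b ι (P k τ a)) := by
      intro k τ
      rw [hQ k τ ι, mul_add, Finset.mul_sum]
    simp only [h2, Finset.sum_add_distrib]
    ring

end Pool.Agent.SQD
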