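import Pool.Agent.SQD.Defs

set_option autoImplicit false

/-!
For a good pair the two subspaces span everything.

Proof. Let `x : ZMod 2 × E → Z` be linear, `A = φ.prod L`, `A' = φ.prod L'`. By `hG` there is `M₁ ∈ S` with
`M₁ = x ∘ A` on `J`. Claim: there is a linear `x₁` with `x₁ ∘ A = M₁` and `x₁ ∘ A' = x ∘ A'`. Indeed consider the
linear map `F : I × I → ZMod 2 × E`, `(ι, ι') ↦ A ι + A' ι'` and `Gm : I × I → Z`, `(ι, ι') ↦ M₁ ι + x (A' ι')`; we need
`ker F ≤ ker Gm` (then `Gm` factors through the range of `F` and extends, `LinearMap.exists_extend`, or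
`LinearMap.exists_leftInverse...`). If `A ι + A' ι' = 0` then `A ι = A' ι'` (characteristic two), so `L ι = L' ι'`, so
`ι, ι' ∈ J` by `hco`, so `M₁ ι = x (A ι) = x (A' ι')`, and `M₁ ι + x (A' ι') = 0` (characteristic two).
Then `x₁ ∈ XL φ S L`, and `x - x₁ ∈ XL φ S L'` since `(x - x₁) ∘ A' = 0 ∈ S`.
-/

namespace Pool.Agent.SQD

open Finset

theorem good_pair {I E Z : Type} [AddCommGroup I] [Module (ZMod 2) I] [AddCommGroup E]
    [Module (ZMod 2) E] [AddCommGroup Z] [Module (ZMod 2) Z] (φ : I →ₗ[ZMod 2] ZMod 2)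
    (S : Submodule (ZMod 2) (I →ₗ[ZMod 2] Z)) (J : Submodule (ZMod 2) I)
    (hG : ∀ mJ : J →ₗ[ZMod 2] Z, ∃ M ∈ S, M.domRestrict J = mJ) (L L' : I →ₗ[ZMod 2] E)
    (hco : ∀ ι ι', L ι = L' ι' → ι ∈ J ∧ ι' ∈ J) :
    XL φ S L ⊔ XL φ S L' = ⊤ := by
  rw [eq_top_iff]
  intro x _
  obtain ⟨M₁, hM₁, hMJ⟩ := hG ((x ∘ₗ (φ.prod L)).domRestrict J)
  have h2 : ∀ z : Z, z + z = 0 := fun z => by
    have := two_smul (ZMod 2) z
    rw [← this, show (2 : ZMod 2) = 0 from rfl, zero_smul]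
  have h2' : ∀ z : ZMod 2 × E, z + z = 0 := fun z => by
    have := two_smul (ZMod 2) z
    rw [← this, show (2 : ZMod 2) = 0 from rfl, zero_smul]
  let F : (I × I) →ₗ[ZMod 2] (ZMod 2 × E) := (φ.prod L).coprod (φ.prod L')
  let Gm : (I × I) →ₗ[ZMod 2] Z := M₁.coprod (x ∘ₗ (φ.prod L'))
  have hker : LinearMap.ker F ≤ LinearMap.ker Gm := by
    rintro ⟨ι, ι'⟩ hv
    rw [LinearMap.mem_ker] at hv ⊢
    simp only [F, LinearMap.coprod_apply] at hv
    have h3 : (φ.prod L) ι = (φ.prod L') ι' := by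
      have h4 := h2' ((φ.prod L') ι')
      exact add_right_cancel (hv.trans h4.symm)
    have h5 : L ι = L' ι' := congrArg Prod.snd h3
    obtain ⟨hι, hι'⟩ := hco ι ι' h5
    have h6 : M₁ ι = x ((φ.prod L) ι) := by
      have := LinearMap.congr_fun hMJ ⟨ι, hι⟩
      exact this
    simp only [Gm, LinearMap.coprod_apply, LinearMap.comp_apply]
    rw [h6, h3]
    exact h2 _
  obtain ⟨x₁, hx₁⟩ := LinearMap.exists_extend
    (((LinearMap.ker F).liftQ Gm hker) ∘ₗ
      (F.quotKerEquivRange.symm : LinearMap.range F →ₗ[ZMod 2] ((I × I) ⧸ LinearMap.ker F)))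
  have hx₂ : ∀ v, x₁ (F v) = Gm v := by
    intro v
    have h3 := LinearMap.congr_fun hx₁ ⟨F v, LinearMap.mem_range_self F v⟩
    have h4 : F.quotKerEquivRange.symm ⟨F v, LinearMap.mem_range_self F v⟩ =
        (LinearMap.ker F).mkQ v := by
      rw [LinearEquiv.symm_apply_eq]
      rfl
    simp only [LinearMap.comp_apply, Submodule.subtype_apply, LinearEquiv.coe_coe] at h3
    rw [h3, h4]
    rfl
  have hx₃ : x₁ ∈ XL φ S L := by
    show x₁ ∘ₗ (φ.prod L) ∈ S
    have : x₁ ∘ₗ (φ.prod L) = M₁ := by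
      ext ι
      have := hx₂ (ι, 0)
      simp only [F, Gm, LinearMap.coprod_apply, map_zero, add_zero] at this
      exact this
    rw [this]
    exact hM₁
  have hx₄ : x - x₁ ∈ XL φ S L' := by
    show (x - x₁) ∘ₗ (φ.prod L') ∈ S
    have : (x - x₁) ∘ₗ (φ.prod L') = 0 := by
      ext ι
      have := hx₂ (0, ι)
      simp only [F, Gm, LinearMap.coprod_apply, map_zero, zero_add, LinearMap.comp_apply] at this
      simp only [LinearMap.comp_apply, LinearMap.sub_apply, LinearMap.zero_apply]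
      rw [this, sub_self]
    rw [this]
    exact S.zero_mem
  rw [show x = x₁ + (x - x₁) by abel]
  exact Submodule.add_mem_sup hx₃ hx₄

end Pool.Agent.SQD
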