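import Mathlib

set_option autoImplicit false

/-!
Second moment bound.

Proof. Let `f x = ∑ L ∈ 𝓜, [x ∈ N L] / |N L|`. Then `∑ x ∈ A, f x = ∑ L ∈ 𝓜, |A ∩ N L| / |N L| ≥ 0.9 |𝓜|`, and by
Cauchy-Schwarz `(0.9 |𝓜|) ^ 2 ≤ |A| * ∑ x, f x ^ 2 = |A| * ∑ L, ∑ L', |N L ⊓ N L'| / (|N L| |N L'|)`, which is
`|A| * ∑ L, ∑ L', 1 / |N L ⊔ N L'|` (`|N ⊔ N'| * |N ⊓ N'| = |N| * |N'|`, e.g. from
`Submodule.finrank_sup_add_finrank_inf_eq` and `Module.card_eq_pow_finrank`). Finally `|A| ≤ 0.1 |X|`.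
-/

namespace Pool.Agent.SQD

open Finset

private theorem card_sup_mul_card_inf {X : Type} [AddCommGroup X] [Module (ZMod 2) X] [Finite X]
    (P Q : Submodule (ZMod 2) X) :
    Nat.card (P ⊔ Q : Submodule (ZMod 2) X) * Nat.card (P ⊓ Q : Submodule (ZMod 2) X)
      = Nat.card P * Nat.card Q := by
  haveI : Fact (Nat.Prime 2) := ⟨Nat.prime_two⟩
  haveI : FiniteDimensional (ZMod 2) X := Module.Finite.of_finite
  haveI : Fintype X := Fintype.ofFinite X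
  have key : ∀ R : Submodule (ZMod 2) X, Nat.card R = 2 ^ Module.finrank (ZMod 2) R := by
    intro R
    haveI : Fintype R := Fintype.ofFinite R
    rw [Nat.card_eq_fintype_card, Module.card_eq_pow_finrank (K := ZMod 2) (V := R), ZMod.card]
  rw [key, key, key, key, ← pow_add, ← pow_add, Submodule.finrank_sup_add_finrank_inf_eq]

theorem second_moment {X Λ : Type} [AddCommGroup X] [Module (ZMod 2) X] [Finite X]
    (𝓜 : Finset Λ) (N : Λ → Submodule (ZMod 2) X) (A : Set X)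
    (hA : 10 * A.ncard ≤ Nat.card X)
    (h : ∀ L ∈ 𝓜, 9 * Nat.card (N L) ≤ 10 * (A ∩ (N L : Set X)).ncard) :
    (8.1 : ℝ) * (𝓜.card : ℝ) ^ 2 ≤
      ∑ L ∈ 𝓜, ∑ L' ∈ 𝓜, (Nat.card X : ℝ) / (Nat.card (N L ⊔ N L' : Submodule (ZMod 2) X) : ℝ) := by
  classical
  haveI : Fintype X := Fintype.ofFinite X
  set n : Λ → ℝ := fun L => (Nat.card (N L) : ℝ) with hn
  have hnpos : ∀ L, 0 < n L := fun L => by
    have : 0 < Nat.card (N L) := Nat.card_pos
    simp only [hn]; exact_mod_cast this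
  set AF : Finset X := Finset.univ.filter (fun x => x ∈ A) with hAF
  have hAcard : (AF.card : ℝ) = (A.ncard : ℝ) := by
    congr 1
    rw [Set.ncard_eq_toFinset_card' A]
    congr 1
    ext x; simp [hAF]
  set f : X → ℝ := fun x => ∑ L ∈ 𝓜, (if x ∈ N L then (1:ℝ) else 0) / n L with hf
  -- first moment
  have hinter : ∀ L, ∑ x ∈ AF, (if x ∈ N L then (1:ℝ) else 0) = ((A ∩ (N L : Set X)).ncard : ℝ) := by
    intro L
    rw [← Finset.sum_filter, Finset.sum_const, nsmul_eq_mul, mul_one]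
    congr 1
    rw [Set.ncard_eq_toFinset_card' (A ∩ (N L : Set X))]
    congr 1
    ext x; simp [hAF]
  have h1 : (0.9:ℝ) * (𝓜.card : ℝ) ≤ ∑ x ∈ AF, f x := by
    have e : ∑ x ∈ AF, f x = ∑ L ∈ 𝓜, ((A ∩ (N L : Set X)).ncard : ℝ) / n L := by
      simp only [hf]
      rw [Finset.sum_comm]
      refine Finset.sum_congr rfl fun L _ => ?_
      rw [← Finset.sum_div, hinter]
    rw [e]
    have : ∑ _L ∈ 𝓜, (0.9:ℝ) ≤ ∑ L ∈ 𝓜, ((A ∩ (N L : Set X)).ncard : ℝ) / n L := by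
      refine Finset.sum_le_sum fun L hL => ?_
      rw [le_div_iff₀ (hnpos L)]
      have := h L hL
      have h' : (9:ℝ) * n L ≤ 10 * ((A ∩ (N L : Set X)).ncard : ℝ) := by
        simp only [hn]; exact_mod_cast this
      linarith
    rw [Finset.sum_const, nsmul_eq_mul] at this
    linarith
  -- second moment
  have hcap : ∀ L L', ∑ x : X, (if x ∈ N L then (1:ℝ) else 0) * (if x ∈ N L' then (1:ℝ) else 0)
      = (Nat.card (N L ⊓ N L' : Submodule (ZMod 2) X) : ℝ) := by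
    intro L L'
    have : ∀ x : X, (if x ∈ N L then (1:ℝ) else 0) * (if x ∈ N L' then (1:ℝ) else 0)
        = if x ∈ (N L ⊓ N L') then (1:ℝ) else 0 := by
      intro x
      by_cases a : x ∈ N L <;> by_cases b : x ∈ N L' <;> simp [a, b, Submodule.mem_inf]
    simp only [this]
    rw [← Finset.sum_filter, Finset.sum_const, nsmul_eq_mul, mul_one]
    congr 1
    rw [Nat.card_eq_fintype_card, Fintype.card_subtype]
  have h2 : ∑ x : X, f x ^ 2 = ∑ L ∈ 𝓜, ∑ L' ∈ 𝓜,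
      (1:ℝ) / (Nat.card (N L ⊔ N L' : Submodule (ZMod 2) X) : ℝ) := by
    have e1 : ∀ x : X, f x ^ 2 = ∑ L ∈ 𝓜, ∑ L' ∈ 𝓜,
        ((if x ∈ N L then (1:ℝ) else 0) * (if x ∈ N L' then (1:ℝ) else 0)) / (n L * n L') := by
      intro x
      simp only [hf]
      rw [sq, Finset.sum_mul_sum]
      refine Finset.sum_congr rfl fun L _ => Finset.sum_congr rfl fun L' _ => ?_
      rw [div_mul_div_comm]
    simp only [e1]
    rw [Finset.sum_comm]
    refine Finset.sum_congr rfl fun L _ => ?_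
    rw [Finset.sum_comm]
    refine Finset.sum_congr rfl fun L' _ => ?_
    rw [← Finset.sum_div, hcap]
    have hs : (0:ℝ) < (Nat.card (N L ⊔ N L' : Submodule (ZMod 2) X) : ℝ) := by
      have : 0 < Nat.card (N L ⊔ N L' : Submodule (ZMod 2) X) := Nat.card_pos
      exact_mod_cast this
    have hm : (Nat.card (N L ⊔ N L' : Submodule (ZMod 2) X) : ℝ)
        * (Nat.card (N L ⊓ N L' : Submodule (ZMod 2) X) : ℝ) = n L * n L' := by
      simp only [hn]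
      exact_mod_cast card_sup_mul_card_inf (N L) (N L')
    rw [div_eq_div_iff (mul_pos (hnpos L) (hnpos L')).ne' hs.ne', one_mul, ← hm]
    ring
  have hcs : (∑ x ∈ AF, f x) ^ 2 ≤ (AF.card : ℝ) * ∑ x ∈ AF, f x ^ 2 :=
    sq_sum_le_card_mul_sum_sq
  have hmono : ∑ x ∈ AF, f x ^ 2 ≤ ∑ x : X, f x ^ 2 :=
    Finset.sum_le_sum_of_subset_of_nonneg (Finset.subset_univ _) (fun _ _ _ => sq_nonneg _)
  have hX : (AF.card : ℝ) ≤ (Nat.card X : ℝ) / 10 := by
    rw [hAcard, le_div_iff₀ (by norm_num)]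
    have : (10:ℝ) * (A.ncard : ℝ) ≤ (Nat.card X : ℝ) := by exact_mod_cast hA
    linarith
  have hS0 : 0 ≤ ∑ x : X, f x ^ 2 := Finset.sum_nonneg fun _ _ => sq_nonneg _
  have h3 : (0.9 * (𝓜.card : ℝ)) ^ 2 ≤ (Nat.card X : ℝ) / 10 * ∑ x : X, f x ^ 2 := by
    calc (0.9 * (𝓜.card : ℝ)) ^ 2 ≤ (∑ x ∈ AF, f x) ^ 2 := by
          apply pow_le_pow_left₀ _ h1
          positivity
      _ ≤ (AF.card : ℝ) * ∑ x ∈ AF, f x ^ 2 := hcs
      _ ≤ (AF.card : ℝ) * ∑ x : X, f x ^ 2 := by gcongr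
      _ ≤ (Nat.card X : ℝ) / 10 * ∑ x : X, f x ^ 2 := by gcongr
  have e3 : ∑ L ∈ 𝓜, ∑ L' ∈ 𝓜, (Nat.card X : ℝ) / (Nat.card (N L ⊔ N L' : Submodule (ZMod 2) X) : ℝ)
      = (Nat.card X : ℝ) * ∑ x : X, f x ^ 2 := by
    rw [h2, Finset.mul_sum]
    refine Finset.sum_congr rfl fun L _ => ?_
    rw [Finset.mul_sum]
    refine Finset.sum_congr rfl fun L' _ => ?_
    rw [mul_one_div]
  rw [e3]
  nlinarith [h3]

end Pool.Agent.SQD
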