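import Pool.Agent.SQD.Potential
import Pool.Agent.SQD.BadPairs
import Pool.Agent.SQD.SecondMoment
import Pool.Agent.SQD.GoodPair
import Pool.Agent.SQD.Codim

set_option autoImplicit false

/-!
Main hiding lemma: few hidden maps `L` are such that `A` contains most of all the subspaces `XL φ (S p) L`.

Proof. Let `𝓛` be the set on the left, and suppose `|𝓛| * 2 ^ (d * e1) > |Hom (I, E)|`. Take `J`, `𝓜` from
`potential` and `p` from `hG J`. Put `N L = XL φ (S p) L` for this `p`. By `second_moment`,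
`8.1 |𝓜| ^ 2 ≤ ∑ L ∈ 𝓜, ∑ L' ∈ 𝓜, |X| / |N L ⊔ N L'|`. A summand is `1` if the pair has no coincidence outside `J`
(`good_pair`; here `L = L'` on `J` is not even needed), and at most `2 ^ (finrank I * finrank Z)` always (`codim`
and `N L ≤ N L ⊔ N L'`). By `bad_pairs` the number of the other pairs is at most
`|I| ^ 2 * |𝓜| ^ 2 / 2 ^ e1`, so the sum is at most `|𝓜| ^ 2 + |𝓜| ^ 2` by `he`. As `𝓜` is nonempty this is a
contradiction.
-/

namespace Pool.Agent.SQD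

open Module

theorem lemmaU {I E Z P : Type} [AddCommGroup I] [Module (ZMod 2) I] [Finite I] [AddCommGroup E]
    [Module (ZMod 2) E] [Finite E] [AddCommGroup Z] [Module (ZMod 2) Z] [Finite Z]
    (φ : I →ₗ[ZMod 2] ZMod 2) (S : P → Submodule (ZMod 2) (I →ₗ[ZMod 2] Z)) (d e1 : ℕ)
    (hE : Nat.card E = 2 ^ (2 * e1))
    (he : Nat.card I ^ 2 * 2 ^ (finrank (ZMod 2) I * finrank (ZMod 2) Z) ≤ 2 ^ e1)
    (hG : ∀ J : Submodule (ZMod 2) I, finrank (ZMod 2) J ≤ d →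
      ∃ p, ∀ mJ : J →ₗ[ZMod 2] Z, ∃ M ∈ S p, M.domRestrict J = mJ)
    (A : Set ((ZMod 2 × E) →ₗ[ZMod 2] Z))
    (hA : 10 * A.ncard ≤ Nat.card ((ZMod 2 × E) →ₗ[ZMod 2] Z)) :
    {L : I →ₗ[ZMod 2] E | ∀ p, 9 * Nat.card (XL φ (S p) L) ≤
      10 * (A ∩ (XL φ (S p) L : Set ((ZMod 2 × E) →ₗ[ZMod 2] Z))).ncard}.ncard * 2 ^ (d * e1) ≤
        Nat.card (I →ₗ[ZMod 2] E) := by
  classical
  by_contra hcon
  push Not at hcon
  have hfinIE : Finite (I →ₗ[ZMod 2] E) :=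
    Finite.of_injective (fun f => (f : I → E)) DFunLike.coe_injective
  have hfinX : Finite ((ZMod 2 × E) →ₗ[ZMod 2] Z) :=
    Finite.of_injective (fun f => (f : ZMod 2 × E → Z)) DFunLike.coe_injective
  obtain ⟨J, 𝓜, hJ, hsub, hne, -, hcount⟩ := potential d e1 hE _ hcon
  obtain ⟨p, hp⟩ := hG J hJ
  set D := finrank (ZMod 2) I * finrank (ZMod 2) Z with hD
  set MF : Finset (I →ₗ[ZMod 2] E) := 𝓜.toFinite.toFinset with hMF
  have hmem : ∀ L, L ∈ MF ↔ L ∈ 𝓜 := fun L => Set.Finite.mem_toFinset _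
  have hMcard : 𝓜.ncard = MF.card := Set.ncard_eq_toFinset_card _ _
  have hsm := second_moment (Λ := I →ₗ[ZMod 2] E) MF (fun L => XL φ (S p) L) A hA
    (fun L hL => hsub ((hmem L).1 hL) p)
  set Bad : (I →ₗ[ZMod 2] E) × (I →ₗ[ZMod 2] E) → Prop :=
    fun q => ∃ ι ι', q.1 ι = q.2 ι' ∧ ¬ (ι ∈ J ∧ ι' ∈ J) with hBad
  have hXpos : (0 : ℝ) < (Nat.card ((ZMod 2 × E) →ₗ[ZMod 2] Z) : ℝ) := by
    exact_mod_cast Nat.card_pos
  -- each term
  have hterm : ∀ L L' : I →ₗ[ZMod 2] E,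
      (Nat.card ((ZMod 2 × E) →ₗ[ZMod 2] Z) : ℝ) /
        (Nat.card (XL φ (S p) L ⊔ XL φ (S p) L' :
          Submodule (ZMod 2) ((ZMod 2 × E) →ₗ[ZMod 2] Z)) : ℝ) ≤
        1 + (if Bad (L, L') then (2 : ℝ) ^ D else 0) := by
    intro L L'
    by_cases hb : Bad (L, L')
    · rw [if_pos hb]
      have h1 := codim φ (S p) L
      have h2 : Nat.card (XL φ (S p) L) ≤ Nat.card (XL φ (S p) L ⊔ XL φ (S p) L' :
          Submodule (ZMod 2) ((ZMod 2 × E) →ₗ[ZMod 2] Z)) := by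
        refine Nat.card_le_card_of_injective
          (Submodule.inclusion (le_sup_left : XL φ (S p) L ≤ _))
          (Submodule.inclusion_injective _)
      have hpos : (0 : ℝ) < (Nat.card (XL φ (S p) L ⊔ XL φ (S p) L' :
          Submodule (ZMod 2) ((ZMod 2 × E) →ₗ[ZMod 2] Z)) : ℝ) := by
        exact_mod_cast Nat.card_pos
      rw [div_le_iff₀ hpos]
      have h3 : (Nat.card ((ZMod 2 × E) →ₗ[ZMod 2] Z) : ℝ) ≤
          2 ^ D * (Nat.card (XL φ (S p) L ⊔ XL φ (S p) L' :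
          Submodule (ZMod 2) ((ZMod 2 × E) →ₗ[ZMod 2] Z)) : ℝ) := by
        exact_mod_cast h1.trans (Nat.mul_le_mul_left _ h2)
      nlinarith
    · rw [if_neg hb, add_zero]
      have htop := good_pair φ (S p) J hp L L' (by
        intro ι ι' h
        by_contra hn
        exact hb ⟨ι, ι', h, hn⟩)
      rw [htop]
      have h4 : Nat.card (⊤ : Submodule (ZMod 2) ((ZMod 2 × E) →ₗ[ZMod 2] Z)) =
          Nat.card ((ZMod 2 × E) →ₗ[ZMod 2] Z) :=
        Nat.card_congr Submodule.topEquiv.toEquiv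
      rw [h4, div_self hXpos.ne']
  have hsum : ∑ L ∈ MF, ∑ L' ∈ MF,
      (Nat.card ((ZMod 2 × E) →ₗ[ZMod 2] Z) : ℝ) /
        (Nat.card (XL φ (S p) L ⊔ XL φ (S p) L' :
          Submodule (ZMod 2) ((ZMod 2 × E) →ₗ[ZMod 2] Z)) : ℝ) ≤
      (MF.card : ℝ) ^ 2 + ((MF ×ˢ MF).filter Bad).card * (2 : ℝ) ^ D := by
    calc _ ≤ ∑ L ∈ MF, ∑ L' ∈ MF, (1 + (if Bad (L, L') then (2 : ℝ) ^ D else 0)) :=
          Finset.sum_le_sum fun L _ => Finset.sum_le_sum fun L' _ => hterm L L'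
      _ = ∑ q ∈ MF ×ˢ MF, (1 + (if Bad q then (2 : ℝ) ^ D else 0)) := by
          rw [Finset.sum_product]
      _ = _ := by
          rw [Finset.sum_add_distrib, ← Finset.sum_filter, Finset.sum_const, Finset.sum_const,
            Finset.card_product]
          simp only [nsmul_eq_mul]
          push_cast
          ring
  have hbp := bad_pairs e1 J 𝓜 hcount
  have hbc : {q : (I →ₗ[ZMod 2] E) × (I →ₗ[ZMod 2] E) | q.1 ∈ 𝓜 ∧ q.2 ∈ 𝓜 ∧
      ∃ ι ι', q.1 ι = q.2 ι' ∧ ¬ (ι ∈ J ∧ ι' ∈ J)}.ncard =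
      ((MF ×ˢ MF).filter Bad).card := by
    rw [← Set.ncard_coe_finset]
    congr 1
    ext q
    simp only [Set.mem_ofPred_eq, Finset.coe_filter, Finset.mem_product, hmem, hBad]
    exact and_assoc.symm
  rw [hbc, hMcard] at hbp
  have hIpos : 0 < Nat.card I ^ 2 := pow_pos Nat.card_pos 2
  have hkey : ((MF ×ˢ MF).filter Bad).card * 2 ^ D ≤ MF.card ^ 2 := by
    refine Nat.le_of_mul_le_mul_left ?_ hIpos
    calc Nat.card I ^ 2 * (((MF ×ˢ MF).filter Bad).card * 2 ^ D)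
        = ((MF ×ˢ MF).filter Bad).card * (Nat.card I ^ 2 * 2 ^ D) := by ring
      _ ≤ ((MF ×ˢ MF).filter Bad).card * 2 ^ e1 := Nat.mul_le_mul_left _ he
      _ ≤ _ := hbp
  have hkey' : (((MF ×ˢ MF).filter Bad).card : ℝ) * (2 : ℝ) ^ D ≤ (MF.card : ℝ) ^ 2 := by
    exact_mod_cast hkey
  have hMpos : (0 : ℝ) < (MF.card : ℝ) := by
    obtain ⟨L, hL⟩ := hne
    exact_mod_cast Finset.card_pos.2 ⟨L, (hmem L).2 hL⟩
  have h8 : (8.1 : ℝ) * (MF.card : ℝ) ^ 2 ≤ 2 * (MF.card : ℝ) ^ 2 := by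
    linarith [hsm, hsum]
  nlinarith [pow_pos hMpos 2]

end Pool.Agent.SQD
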