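import Pool.Agent.SQD.Core
import Pool.Agent.H74.SQ.Halfspace

set_option autoImplicit false

/-!
The main theorem for real exponents, from `core ⌈c⌉₊ ⌈C⌉₊`.
-/

namespace Pool.Agent.SQD

open Pool.Agent.H74.SQ

theorem one_le_r_log (n r : ℕ) (hn : 3 ≤ n) (hr : 1 ≤ r) : 1 ≤ (r : ℝ) * Real.log n := by
  have h1 : (1 : ℝ) ≤ r := by exact_mod_cast hr
  have h2 : (1 : ℝ) ≤ Real.log n := by
    have h3 : Real.exp 1 ≤ n := by
      have := Real.exp_one_lt_d9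
      have h4 : (3 : ℝ) ≤ n := by exact_mod_cast hn
      linarith
    have h5 := Real.log_le_log (Real.exp_pos 1) h3
    rwa [Real.log_exp] at h5
  nlinarith

theorem main (c C : ℝ) (hc : 0 < c) (hC : 0 < C) :
    ∃ n r : ℕ, 3 ≤ n ∧ 1 ≤ r ∧ r ≤ n ∧ ∃ M : ℕ, (n : ℝ) ^ C < M ∧
      (M : ℕ∞) ≤ sqDim (DecisionLists n r) (((r : ℝ) * Real.log n) ^ (-c)) ∧
      (M : ℕ∞) ≤ sqDim (SparseHalfspaces n r) (((r : ℝ) * Real.log n) ^ (-c)) := by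
  obtain ⟨n, r, hn, hr, hrn, D, M, hD, hM, hF⟩ :=
    core ⌈c⌉₊ ⌈C⌉₊ (Nat.ceil_pos.2 hc) (Nat.ceil_pos.2 hC)
  have hx := one_le_r_log n r hn hr
  have hn1 : (1 : ℝ) ≤ n := by
    have : (3 : ℝ) ≤ n := by exact_mod_cast hn
    linarith
  have hF' : HasFamily (DecisionLists n r) D (((r : ℝ) * Real.log n) ^ (-c)) M := by
    obtain ⟨f, hf, hff⟩ := hF
    refine ⟨f, hf, fun i j hij => (hff i j hij).trans ?_⟩
    apply Real.rpow_le_rpow_of_exponent_le hx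
    have := Nat.le_ceil c
    linarith
  have hM' : (n : ℝ) ^ C < M := by
    calc (n : ℝ) ^ C ≤ (n : ℝ) ^ ((⌈C⌉₊ : ℕ) : ℝ) :=
          Real.rpow_le_rpow_of_exponent_le hn1 (Nat.le_ceil C)
      _ = ((n ^ ⌈C⌉₊ : ℕ) : ℝ) := by rw [Real.rpow_natCast]; push_cast; rfl
      _ < M := by exact_mod_cast hM
  have hS : (M : ℕ∞) ≤ sqDim (DecisionLists n r) (((r : ℝ) * Real.log n) ^ (-c)) :=
    le_sSup ⟨M, D, rfl, hD, hF'⟩
  exact ⟨n, r, hn, hr, hrn, M, hM', hS, hS.trans (sqDim_mono (lists_subset_halfspaces n r) _)⟩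

end Pool.Agent.SQD
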