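import Pool.Agent.SQD.Defs

set_option autoImplicit false

/-!
STUB. Law of the pair `(ω (u ·), ω (v ·))` for uniform random `ω : N → S → W`: the two vectors agree
on `A = {x | u x = v x}`, and are uniform and independent otherwise.

Proof. By bilinearity (expand `G y = ∑ y', G y' * [y' = y]`) both sides are
`∑ y z, G y * G z * Pr(y, z)`, where on the left `Pr (y, z)` is the proportion of the `ω` with
`ω x (u x) = y x` and `ω x (v x) = z x` for all `x`, and on the right it is the proportion of the
triples `(a, b, b')` with `glue A a b = y`, `glue A a b' = z`. Both are products over `x : N` of local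
proportions (`Finset.prod_univ_sum`, `Fintype.piFinset`, or `Fintype.card_pi`): for `u x = v x` they
are `[y x = z x] / #W`, for `u x ≠ v x` they are `1 / (#W) ^ 2`.
Alternative proof: for fixed `A`, `ω ↦ (ω x (u x), ω x (v x))_x` has fibres of constant size over
`{(y, z) | y = z on A}`, and so has `(a, b, b') ↦ (glue A a b, glue A a b')`.
-/

namespace Pool.Agent.SQD

open Finset

/-- the exchange of the values of `ω` at `u`, `v` with the entries of `(a, b, b')` -/
def pairSwap {N S W : Type} [DecidableEq S] (u v : N → S)
    (p : (N → S → W) × (N → W) × (N → W) × (N → W)) :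
    (N → S → W) × (N → W) × (N → W) × (N → W) :=
  (fun x s => if u x = v x then (if s = u x then p.2.1 x else p.1 x s) else
      (if s = u x then p.2.2.1 x else if s = v x then p.2.2.2 x else p.1 x s),
    fun x => if u x = v x then p.1 x (u x) else p.2.1 x,
    fun x => if u x = v x then p.2.2.1 x else p.1 x (u x),
    fun x => if u x = v x then p.2.2.2 x else p.1 x (v x))

theorem pairSwap_inv {N S W : Type} [DecidableEq S] (u v : N → S) :
    Function.Involutive (pairSwap (W := W) u v) := by
  rintro ⟨ω, a, b, b'⟩
  unfold pairSwap
  simp only [Prod.mk.injEq]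
  refine ⟨?_, ?_, ?_, ?_⟩
  · funext x s
    by_cases h : u x = v x
    · by_cases h1 : s = u x
      · simp [h, h1]
      · simp only [if_pos h, if_neg h1]
    · by_cases h1 : s = u x
      · simp [h, h1]
      · by_cases h2 : s = v x
        · simp only [if_neg h, if_neg h1, if_pos h2]
          rw [h2]
        · simp only [if_neg h, if_neg h1, if_neg h2]
  · funext x
    by_cases h : u x = v x
    · simp only [if_pos h, if_true]
    · simp only [if_neg h]
  · funext x
    by_cases h : u x = v x
    · simp only [if_pos h]
    · simp only [if_neg h, if_true]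
  · funext x
    by_cases h : u x = v x
    · simp only [if_pos h]
    · have h' : ¬ v x = u x := fun e => h e.symm
      simp only [if_neg h, if_neg h', if_true]

theorem pairLaw {N S W : Type} [Fintype N] [DecidableEq N] [Fintype S] [DecidableEq S]
    [Fintype W] [Nonempty W] (u v : N → S) (G : (N → W) → ℝ) :
    (∑ ω : N → S → W, G (fun x => ω x (u x)) * G (fun x => ω x (v x))) /
        (Nat.card (N → S → W) : ℝ) =
      energy (univ.filter (fun x => u x = v x)) G := by
  classical
  set c : ℝ := (Nat.card (N → W) : ℝ) with hc
  have hc0 : c ≠ 0 := by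
    rw [hc]
    exact Nat.cast_ne_zero.mpr Nat.card_pos.ne'
  have hC0 : (Nat.card (N → S → W) : ℝ) ≠ 0 := Nat.cast_ne_zero.mpr Nat.card_pos.ne'
  have hcf : (Fintype.card (N → W) : ℝ) = c := by rw [hc, Nat.card_eq_fintype_card]
  have hsum := Equiv.sum_comp (Function.Involutive.toPerm _ (pairSwap_inv (W := W) u v))
    (fun p : (N → S → W) × (N → W) × (N → W) × (N → W) =>
      G (fun x => p.1 x (u x)) * G (fun x => p.1 x (v x)))
  have hL : ∑ p : (N → S → W) × (N → W) × (N → W) × (N → W),
      G (fun x => p.1 x (u x)) * G (fun x => p.1 x (v x)) =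
      (∑ ω : N → S → W, G (fun x => ω x (u x)) * G (fun x => ω x (v x))) * c ^ 3 := by
    rw [Fintype.sum_prod_type, Finset.sum_mul]
    apply Finset.sum_congr rfl
    intro ω _
    dsimp only
    rw [Finset.sum_const, Finset.card_univ, Fintype.card_prod, Fintype.card_prod, nsmul_eq_mul]
    push_cast
    rw [hcf]
    ring
  have hR : ∑ p : (N → S → W) × (N → W) × (N → W) × (N → W),
      G (fun x => (pairSwap u v p).1 x (u x)) * G (fun x => (pairSwap u v p).1 x (v x)) =
      (Nat.card (N → S → W) : ℝ) *
        ∑ a : N → W, (∑ b : N → W, G (glue (univ.filter (fun x => u x = v x)) a b)) ^ 2 := by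
    have h1 : ∀ p : (N → S → W) × (N → W) × (N → W) × (N → W),
        G (fun x => (pairSwap u v p).1 x (u x)) * G (fun x => (pairSwap u v p).1 x (v x)) =
        G (glue (univ.filter (fun x => u x = v x)) p.2.1 p.2.2.1) *
          G (glue (univ.filter (fun x => u x = v x)) p.2.1 p.2.2.2) := by
      intro p
      congr 2
      · funext x
        unfold pairSwap glue
        by_cases h : u x = v x
        · simp [h]
        · simp [h]
      · funext x
        unfold pairSwap glue
        by_cases h : u x = v x
        · simp [h]
        · have h' : ¬ v x = u x := fun e => h e.symm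
          simp [h, h']
    rw [Finset.sum_congr rfl fun p _ => h1 p, Fintype.sum_prod_type]
    dsimp only
    rw [Finset.sum_const, Finset.card_univ, nsmul_eq_mul, Nat.card_eq_fintype_card]
    congr 1
    rw [Fintype.sum_prod_type]
    apply Finset.sum_congr rfl
    intro a _
    rw [Fintype.sum_prod_type, sq, Finset.sum_mul_sum]
  have hmain : (Nat.card (N → S → W) : ℝ) *
        ∑ a : N → W, (∑ b : N → W, G (glue (univ.filter (fun x => u x = v x)) a b)) ^ 2 =
      (∑ ω : N → S → W, G (fun x => ω x (u x)) * G (fun x => ω x (v x))) * c ^ 3 := by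
    rw [← hL, ← hR, ← hsum]
    rfl
  unfold energy
  rw [← hc]
  have h2 : ∑ a : N → W, ((∑ b : N → W, G (glue (univ.filter (fun x => u x = v x)) a b)) / c) ^ 2
      = (∑ a : N → W, (∑ b : N → W, G (glue (univ.filter (fun x => u x = v x)) a b)) ^ 2) /
        c ^ 2 := by
    rw [Finset.sum_div]
    apply Finset.sum_congr rfl
    intro a _
    rw [div_pow]
  rw [h2, div_div, div_eq_div_iff hC0 (by positivity)]
  linear_combination -hmain

end Pool.Agent.SQD
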