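import Pool.Agent.SQD.Defs

set_option autoImplicit false

/-!
A product of `d` affine functions is a polynomial of degree at most `d`.

Proof. An affine function is `ℓ ι = ∑ τ : Option κ, a τ * coordOpt b ι τ` with `a none = c`,
`a (some k) = λ (b k)` (`ι = ∑ k, b.repr ι k • b k`, `Module.Basis.sum_repr`). Then
`∏ i, ℓ i ι = ∑ τ : Fin d → Option κ, (∏ i, a i (τ i)) * ∏ i, coordOpt b ι (τ i)`
(`Finset.prod_univ_sum`, `Fintype.piFinset_univ`), so `c τ = ∏ i, a i (τ i)`.
-/

namespace Pool.Agent.SQD

open Finset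

theorem pol_prod {I κ : Type} [AddCommGroup I] [Module (ZMod 2) I] [Fintype κ]
    (b : Module.Basis κ (ZMod 2) I) {d : ℕ} (lam : Fin d → Module.Dual (ZMod 2) I)
    (c : Fin d → ZMod 2) :
    ∃ P : Pol κ d, ∀ ι, ev b ι P = ∏ i, (lam i ι + c i) := by
  classical
  refine ⟨fun τ => ∏ i, (match τ i with
    | none => c i
    | some k => lam i (b k)), fun ι => ?_⟩
  have h1 : ∀ i, lam i ι + c i = ∑ o : Option κ, (match o with
      | none => c i
      | some k => lam i (b k)) * coordOpt b ι o := by
    intro i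
    rw [Fintype.sum_option]
    simp only [coordOpt, mul_one]
    rw [add_comm]
    congr 1
    conv_lhs => rw [← b.sum_repr ι]
    rw [map_sum]
    refine Finset.sum_congr rfl fun k _ => ?_
    rw [map_smul, smul_eq_mul, mul_comm]
  simp only [h1]
  rw [Finset.prod_univ_sum, Fintype.piFinset_univ]
  show ∑ τ : Fin d → Option κ, _ * ∏ i, coordOpt b ι (τ i) = _
  refine Finset.sum_congr rfl fun τ _ => ?_
  rw [Finset.prod_mul_distrib]

end Pool.Agent.SQD
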