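import Mathlib

set_option autoImplicit false

/-!
Choice of the subspace `J` on which the hidden map is not random.

Proof. For a subspace `J` and a linear map `T : J → E` let `𝓜 (J, T) = {L ∈ 𝓛 | L = T on J}`. There are
finitely many pairs `(J, T)`; choose one with `|𝓜 (J, T)| * 2 ^ (e1 * finrank J)` maximal. For `J = ⊥` this
number is `|𝓛|`, so the maximum is at least `|𝓛|`, and `2 ^ (d * e1) * |𝓛| > |Hom (I, E)|`. On the other hand
`|𝓜 (J, T)| * |E| ^ (finrank J) ≤ |Hom (I, E)|` (restriction to `J` is onto `Hom (J, E)` and has fibres of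
constant size), so `|𝓜| * 2 ^ (e1 * finrank J) ≤ |Hom (I, E)| / 2 ^ (e1 * finrank J)`, whence
`finrank J < d`. `𝓜` is nonempty. For `ι ∉ J` and `a : E` the pair `J' = J ⊔ span {ι}`,
`T' = T` on `J`, `T' ι = a` has `finrank J' = finrank J + 1` and `𝓜 (J', T') = {L ∈ 𝓜 (J, T) | L ι = a}`, so
`|{L ∈ 𝓜 | L ι = a}| * 2 ^ e1 ≤ |𝓜|`. (To avoid dependent maps: if the set `{L ∈ 𝓜 | L ι = a}` is empty there is
nothing to prove; otherwise pick `L₀` in it and use pairs `(J, L₀)` with `L₀ : I → E` and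
`𝓜 (J, L₀) = {L ∈ 𝓛 | ∀ x ∈ J, L x = L₀ x}`.)
-/

namespace Pool.Agent.SQD

open Module

theorem potential {I E : Type} [AddCommGroup I] [Module (ZMod 2) I] [Finite I] [AddCommGroup E]
    [Module (ZMod 2) E] [Finite E] (d e1 : ℕ) (hE : Nat.card E = 2 ^ (2 * e1))
    (𝓛 : Set (I →ₗ[ZMod 2] E))
    (h𝓛 : Nat.card (I →ₗ[ZMod 2] E) < 𝓛.ncard * 2 ^ (d * e1)) :
    ∃ (J : Submodule (ZMod 2) I) (𝓜 : Set (I →ₗ[ZMod 2] E)), finrank (ZMod 2) J ≤ d ∧ 𝓜 ⊆ 𝓛 ∧
      𝓜.Nonempty ∧ (∀ L ∈ 𝓜, ∀ L' ∈ 𝓜, ∀ x ∈ J, L x = L' x) ∧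
      ∀ ι, ι ∉ J → ∀ a : E, {L ∈ 𝓜 | L ι = a}.ncard * 2 ^ e1 ≤ 𝓜.ncard := by
  classical
  have : Module.Finite (ZMod 2) I := Module.Finite.of_finite
  have : Module.Finite (ZMod 2) E := Module.Finite.of_finite
  have : Finite (I →ₗ[ZMod 2] E) := Finite.of_injective (fun L => (L : I → E))
    DFunLike.coe_injective
  have : Finite (Submodule (ZMod 2) I) := Finite.of_injective (fun J => (J : Set I))
    SetLike.coe_injective
  -- the sets and the score
  let Ms : Submodule (ZMod 2) I × (I →ₗ[ZMod 2] E) → Set (I →ₗ[ZMod 2] E) :=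
    fun q => {L | L ∈ 𝓛 ∧ ∀ x ∈ q.1, L x = q.2 x}
  let sc : Submodule (ZMod 2) I × (I →ₗ[ZMod 2] E) → ℕ :=
    fun q => (Ms q).ncard * 2 ^ (e1 * finrank (ZMod 2) q.1)
  obtain ⟨⟨J, L₀⟩, hmax⟩ := Finite.exists_max sc
  have hfE : finrank (ZMod 2) E = 2 * e1 := by
    have h1 := Module.natCard_eq_pow_finrank (K := ZMod 2) (V := E)
    rw [hE, Nat.card_zmod] at h1
    exact (Nat.pow_right_injective (le_refl 2) h1).symm
  -- the size of the sets
  have hsize : ∀ q : Submodule (ZMod 2) I × (I →ₗ[ZMod 2] E),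
      (Ms q).ncard * 2 ^ (2 * e1 * finrank (ZMod 2) q.1) ≤ Nat.card (I →ₗ[ZMod 2] E) := by
    intro q
    let ρ : (I →ₗ[ZMod 2] E) →ₗ[ZMod 2] (q.1 →ₗ[ZMod 2] E) := LinearMap.lcomp (ZMod 2) E q.1.subtype
    have hρ : Function.Surjective ρ := by
      intro g
      obtain ⟨g', hg'⟩ := LinearMap.exists_extend g
      exact ⟨g', hg'⟩
    have hq := Submodule.card_eq_card_quotient_mul_card (LinearMap.ker ρ)
    have hqq : Nat.card ((I →ₗ[ZMod 2] E) ⧸ LinearMap.ker ρ) =
        2 ^ (2 * e1 * finrank (ZMod 2) q.1) := by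
      rw [Nat.card_congr (ρ.quotKerEquivOfSurjective hρ).toEquiv,
        Module.natCard_eq_pow_finrank (K := ZMod 2), Nat.card_zmod, Module.finrank_linearMap, hfE,
        mul_comm]
    rw [hq, hqq]
    refine Nat.mul_le_mul ?_ le_rfl
    -- `Ms q` injects in the kernel
    rcases (Ms q).eq_empty_or_nonempty with h0 | ⟨L₁, hL₁⟩
    · rw [h0, Set.ncard_empty]; exact Nat.zero_le _
    · have : (Ms q).ncard ≤ ((LinearMap.ker ρ : Submodule (ZMod 2) (I →ₗ[ZMod 2] E)) :
          Set (I →ₗ[ZMod 2] E)).ncard := by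
        refine Set.ncard_le_ncard_of_injOn (fun L => L - L₁) ?_ ?_ (Set.toFinite _)
        · intro L hL
          show L - L₁ ∈ LinearMap.ker ρ
          rw [LinearMap.mem_ker]
          ext x
          have h1 := hL.2 x x.2
          have h2 := hL₁.2 x x.2
          simp only [ρ, LinearMap.lcomp_apply, LinearMap.sub_apply, Submodule.coe_subtype,
            LinearMap.zero_apply]
          rw [h1, h2, sub_self]
        · intro L _ L' _ h
          exact sub_left_injective h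
      exact this
  have hM0 : 𝓛.ncard ≤ sc (J, L₀) := by
    have h1 := hmax (⊥, 0)
    have h2 : Ms (⊥, 0) = 𝓛 := by
      ext L
      simp only [Ms, Set.mem_ofPred_eq, Submodule.mem_bot, forall_eq, map_zero, and_true]
    simp only [sc, h2, finrank_bot, mul_zero, pow_zero, mul_one] at h1
    exact h1
  have hpos : 0 < (Ms (J, L₀)).ncard := by
    by_contra h0
    have h0' : (Ms (J, L₀)).ncard = 0 := by omega
    simp only [sc, h0', zero_mul] at hM0
    have : 𝓛.ncard = 0 := by omega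
    rw [this, zero_mul] at h𝓛
    omega
  refine ⟨J, Ms (J, L₀), ?_, fun L hL => hL.1, ?_, ?_, ?_⟩
  · -- finrank
    have h1 := hsize (J, L₀)
    have h2 : (Ms (J, L₀)).ncard * 2 ^ (2 * e1 * finrank (ZMod 2) J) <
        (Ms (J, L₀)).ncard * 2 ^ (e1 * finrank (ZMod 2) J + d * e1) := by
      calc _ ≤ Nat.card (I →ₗ[ZMod 2] E) := h1
        _ < 𝓛.ncard * 2 ^ (d * e1) := h𝓛
        _ ≤ sc (J, L₀) * 2 ^ (d * e1) := Nat.mul_le_mul hM0 le_rfl
        _ = _ := by simp only [sc]; rw [mul_assoc, ← pow_add]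
    have h3 := lt_of_mul_lt_mul_left h2 (Nat.zero_le _)
    have h4 := (Nat.pow_lt_pow_iff_right (le_refl 2)).1 h3
    by_contra h5
    push Not at h5
    have h6 : d * e1 ≤ e1 * finrank (ZMod 2) J := by
      rw [mul_comm]
      exact Nat.mul_le_mul le_rfl h5.le
    have h7 : 2 * e1 * finrank (ZMod 2) J = e1 * finrank (ZMod 2) J + e1 * finrank (ZMod 2) J := by
      ring
    omega
  · exact (Set.ncard_pos (Set.toFinite _)).1 hpos
  · intro L hL L' hL' x hx
    rw [hL.2 x hx, hL'.2 x hx]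
  · intro ι hι a
    rcases ({L ∈ Ms (J, L₀) | L ι = a}).eq_empty_or_nonempty with h0 | ⟨L₁, hL₁⟩
    · rw [h0, Set.ncard_empty, zero_mul]; exact Nat.zero_le _
    · have hlt : J < J ⊔ Submodule.span (ZMod 2) {ι} := by
        refine lt_of_le_of_ne le_sup_left ?_
        intro h
        apply hι
        rw [h]
        exact Submodule.mem_sup_right (Submodule.mem_span_singleton_self ι)
      have hfr := Submodule.finrank_lt_finrank_of_lt hlt
      have hsub : {L ∈ Ms (J, L₀) | L ι = a} ⊆ Ms (J ⊔ Submodule.span (ZMod 2) {ι}, L₁) := by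
        intro L hL
        refine ⟨hL.1.1, ?_⟩
        intro x hx
        obtain ⟨y, hy, z, hz, rfl⟩ := Submodule.mem_sup.1 hx
        obtain ⟨c, rfl⟩ := Submodule.mem_span_singleton.1 hz
        simp only [map_add, map_smul]
        rw [hL.1.2 y hy, hL₁.1.2 y hy, hL.2, hL₁.2]
      have h1 := Set.ncard_le_ncard hsub (Set.toFinite _)
      have h2 := hmax (J ⊔ Submodule.span (ZMod 2) {ι}, L₁)
      simp only [sc] at h2
      have h3 : ({L ∈ Ms (J, L₀) | L ι = a}.ncard * 2 ^ e1) * 2 ^ (e1 * finrank (ZMod 2) J) ≤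
          (Ms (J, L₀)).ncard * 2 ^ (e1 * finrank (ZMod 2) J) := by
        refine le_trans ?_ h2
        rw [mul_assoc, ← pow_add]
        refine Nat.mul_le_mul h1 (Nat.pow_le_pow_right (by norm_num) ?_)
        calc e1 + e1 * finrank (ZMod 2) J = e1 * (finrank (ZMod 2) J + 1) := by ring
          _ ≤ _ := Nat.mul_le_mul le_rfl hfr
      exact le_of_mul_le_mul_right h3 (by positivity)

end Pool.Agent.SQD
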