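import Mathlib

set_option autoImplicit false

/-!
Reed-Solomon words: `p ^ k` words on `N` (`card N ≤ p`) with values in `ZMod p`, two of which
agree in fewer than `k` places.
-/

namespace Pool.Agent.SQD

open Finset

theorem rs {N : Type} [Fintype N] (p k : ℕ) [Fact p.Prime] (hN : Fintype.card N ≤ p) :
    ∃ u : Fin (p ^ k) → N → ZMod p, ∀ i j, i ≠ j →
      (univ.filter (fun x => u i x = u j x)).card < k := by
  classical
  have hc : Fintype.card (Fin k → ZMod p) = p ^ k := by simp [ZMod.card]
  let e : Fin (p ^ k) ≃ (Fin k → ZMod p) := (Fintype.equivFinOfCardEq hc).symm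
  obtain ⟨ι, hι⟩ : ∃ ι : N → ZMod p, Function.Injective ι := by
    have : Fintype.card N ≤ Fintype.card (ZMod p) := by rw [ZMod.card]; exact hN
    obtain ⟨f⟩ := Function.Embedding.nonempty_of_card_le this
    exact ⟨f, f.injective⟩
  refine ⟨fun i x => ∑ t : Fin k, e i t * ι x ^ (t : ℕ), ?_⟩
  intro i j hij
  by_contra hcon
  rw [not_lt] at hcon
  apply hij
  apply e.injective
  rcases Nat.eq_zero_or_pos k with hk | hk
  · subst hk
    exact Subsingleton.elim _ _
  set P : Polynomial (ZMod p) := ∑ t : Fin k, Polynomial.C (e i t - e j t) * Polynomial.X ^ (t : ℕ)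
    with hP
  have hdeg : P.degree < k := by
    rw [hP]; exact Polynomial.degree_sum_fin_lt _
  have hnat : P.natDegree < k := by
    by_cases h0 : P = 0
    · rw [h0]; simpa using hk
    · exact (Polynomial.natDegree_lt_iff_degree_lt h0).2 hdeg
  have hP0 : P = 0 := by
    refine Polynomial.eq_zero_of_natDegree_lt_card_of_eval_eq_zero' P
      ((univ.filter (fun x => ∑ t : Fin k, e i t * ι x ^ (t : ℕ) =
        ∑ t : Fin k, e j t * ι x ^ (t : ℕ))).image ι) ?_ ?_
    · intro y hy
      rw [Finset.mem_image] at hy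
      obtain ⟨x, hx, rfl⟩ := hy
      rw [Finset.mem_filter] at hx
      rw [hP, Polynomial.eval_finsetSum]
      simp only [Polynomial.eval_mul, Polynomial.eval_C, Polynomial.eval_pow, Polynomial.eval_X,
        sub_mul, Finset.sum_sub_distrib]
      rw [hx.2, sub_self]
    · rw [Finset.card_image_of_injective _ hι]
      exact lt_of_lt_of_le hnat hcon
  funext t
  have h1 : P.coeff (t : ℕ) = e i t - e j t := by
    rw [hP, Polynomial.finsetSum_coeff]
    rw [Finset.sum_eq_single t]
    · rw [Polynomial.coeff_C_mul, Polynomial.coeff_X_pow, if_pos rfl, mul_one]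
    · intro b _ hb
      rw [Polynomial.coeff_C_mul, Polynomial.coeff_X_pow, if_neg, mul_zero]
      intro h
      exact hb (Fin.ext h.symm)
    · intro h
      exact absurd (Finset.mem_univ t) h
  rw [hP0, Polynomial.coeff_zero] at h1
  exact (sub_eq_zero.1 h1.symm)

end Pool.Agent.SQD
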