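import Pool.Agent.SQD.Cube
import Pool.Agent.SQD.RS
import Pool.Agent.SQD.PairLaw
import Pool.Agent.SQD.EnergyHide

set_option autoImplicit false

/-!
Realisation of a hiding scheme by decision lists.

Proof. `classical`, `Fintype.ofFinite`. Let `N = Option X`, `W = (B → ZMod 2) × L`,
`Ω = N → ZMod p → W`, `K = C * (w + 1) + 1`. `rs` gives the words `u i : N → ZMod p`, `i : Fin (p ^ K)`
(`card N = card X + 1 ≤ p`). The attributes are `A = Σ k : Fin R, (↥(V k) → ZMod p) × ZMod p` (with
`(V k).toFinset`, or the subtype), so `n = card A = ∑ k, p ^ (|V k| + 1)` is between `R` and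
`R * p ^ (w + 1)`. `att ⟨k, z, y⟩ ω = fire k (fun x => if h : x ∈ V k then (ω (some x) (z ⟨x, h⟩)).1 else 0)
(ω none y).2`, `idx i k = ⟨k, (u i ∘ some restricted to V k), u i none⟩`. By `hfire`,
`att (idx i k) ω = fire k (fun x => (ω (some x) (u i (some x))).1) (ω none (u i none)).2`. So with
`G a = dlVal b b₀ (fun k => fire k (fun x => (a (some x)).1) (a none).2)` the correlation of `f i`, `f j`
is, by `cube` and `pairLaw`, `energy A' G`, where `A'` is the set of the places where `u i`, `u j` agree,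
`card A' ≤ C * (w + 1) ≤ 2 * C * w`. It is nonnegative, and by `energy_cmp` with `F = parityF smp` and
`energy_hide` (for `q = ε`, with the set `{x | some x ∈ A'}`) it is at most `2 * ε + 8 * δ`; the
hypothesis of `energy_cmp` follows from `hfail`: `G a ≠ F a` depends only on
`((fun x => (a (some x)).1), (a none).2)`, and `N → W ≃ ((X → B → ZMod 2) × L) × (rest)`.
-/

namespace Pool.Agent.SQD

open Finset Pool.Agent.H74.SQ

/-- Splitting of the values in those which are read and the rest. -/
private def splitEquiv (X B L : Type) : (Option X → (B → ZMod 2) × L) ≃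
    ((X → B → ZMod 2) × L) × ((X → L) × (B → ZMod 2)) where
  toFun a := (((fun x => (a (some x)).1), (a none).2), ((fun x => (a (some x)).2), (a none).1))
  invFun z := fun o => match o with
    | none => (z.2.2, z.1.2)
    | some x => (z.1.1 x, z.2.1 x)
  left_inv a := by
    funext o
    cases o <;> rfl
  right_inv z := rfl

private theorem realise_card {X B L : Type} [Finite X] [Finite B] [Finite L]
    (P : (X → B → ZMod 2) × L → Prop) (δ : ℝ)
    (h : ((Nat.card {z : (X → B → ZMod 2) × L // P z} : ℕ) : ℝ) ≤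
      δ * (Nat.card ((X → B → ZMod 2) × L) : ℝ)) :
    ((Nat.card {a : Option X → (B → ZMod 2) × L //
      P ((fun x => (a (some x)).1), (a none).2)} : ℕ) : ℝ) ≤
      δ * (Nat.card (Option X → (B → ZMod 2) × L) : ℝ) := by
  have e1 : {a : Option X → (B → ZMod 2) × L // P ((fun x => (a (some x)).1), (a none).2)} ≃
      {z : ((X → B → ZMod 2) × L) × ((X → L) × (B → ZMod 2)) // P z.1} :=
    Equiv.subtypeEquiv (splitEquiv X B L) (fun a => Iff.rfl)
  have e2 := Equiv.prodSubtypeFstEquivSubtypeProd (β := (X → L) × (B → ZMod 2)) (p := P)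
  rw [Nat.card_congr (e1.trans e2), Nat.card_prod, Nat.card_congr (splitEquiv X B L),
    Nat.card_prod (((X → B → ZMod 2) × L))]
  push_cast
  rw [← mul_assoc]
  exact mul_le_mul_of_nonneg_right h (by positivity)

theorem realise {X B L : Type} [Finite X] [Fintype B] [Finite L] [Nonempty L] (smp : L → B → X)
    (R C w p : ℕ) (hR : 1 ≤ R) (hC : 1 ≤ C) (hw : 1 ≤ w) (hp : p.Prime) (hpX : Nat.card X < p)
    (V : Fin R → Set X) (hV : ∀ k, (V k).ncard ≤ w)
    (fire : Fin R → (X → B → ZMod 2) → L → Bool)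
    (hfire : ∀ k ζ ζ' Y, (∀ x ∈ V k, ζ x = ζ' x) → fire k ζ Y = fire k ζ' Y)
    (b : Fin R → ℝ) (b₀ : ℝ) (hb : ∀ k, b k = 1 ∨ b k = -1) (hb₀ : b₀ = 1 ∨ b₀ = -1) (ε δ : ℝ)
    (hhide : ∀ A : Set X, A.ncard ≤ 2 * C * w →
      ((Nat.card {Y : L // ∀ β, smp Y β ∈ A} : ℕ) : ℝ) ≤ ε * (Nat.card L : ℝ))
    (hfail : ((Nat.card {z : (X → B → ZMod 2) × L //
      dlVal b b₀ (fun k => fire k z.1 z.2) ≠ sgn (∑ β, z.1 (smp z.2 β) β)} : ℕ) : ℝ) ≤
        δ * (Nat.card ((X → B → ZMod 2) × L) : ℝ)) :
    ∃ n : ℕ, R ≤ n ∧ n ≤ R * p ^ (w + 1) ∧ ∃ D : (Fin n → Bool) → ℝ, IsDist D ∧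
      HasFamily (DecisionLists n R) D (2 * ε + 8 * δ) (p ^ (C * (w + 1) + 1)) := by
  classical
  have : Fact p.Prime := ⟨hp⟩
  have : Fintype X := Fintype.ofFinite X
  have : Fintype L := Fintype.ofFinite L
  have hN : Fintype.card (Option X) ≤ p := by
    rw [Fintype.card_option, ← Nat.card_eq_fintype_card]
    omega
  obtain ⟨u, hu⟩ := rs (N := Option X) p (C * (w + 1) + 1) hN
  let A : Type := Σ k : Fin R, (↥(V k) → ZMod p) × ZMod p
  let att : A → (Option X → ZMod p → (B → ZMod 2) × L) → Bool := fun a ω =>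
    fire a.1 (fun x => if h : x ∈ V a.1 then (ω (some x) (a.2.1 ⟨x, h⟩)).1 else 0)
      (ω none a.2.2).2
  let idx : Fin (p ^ (C * (w + 1) + 1)) → Fin R → A :=
    fun i k => ⟨k, (fun x => u i (some x.1), u i none)⟩
  have hatt : ∀ i k ω, att (idx i k) ω =
      fire k (fun x => (ω (some x) (u i (some x))).1) (ω none (u i none)).2 := by
    intro i k ω
    apply hfire
    intro x hx
    simp only [idx]
    rw [dif_pos hx]
  obtain ⟨D, f, hD, hf, hcorr⟩ := cube att b b₀ hb hb₀ idx
  have hcard : Fintype.card A = ∑ k : Fin R, p ^ (V k).ncard * p := by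
    simp only [A, Fintype.card_sigma, Fintype.card_prod, Fintype.card_fun, ZMod.card]
    refine Finset.sum_congr rfl fun k _ => ?_
    congr 2
    rw [← Nat.card_eq_fintype_card, Nat.card_coe_set_eq]
  have hp1 : 1 ≤ p := hp.one_lt.le
  refine ⟨Fintype.card A, ?_, ?_, D, hD, f, hf, ?_⟩
  · rw [hcard]
    calc R = ∑ _k : Fin R, 1 := by simp
      _ ≤ _ := Finset.sum_le_sum fun k _ => Nat.one_le_iff_ne_zero.2 (by positivity)
  · rw [hcard]
    calc ∑ k : Fin R, p ^ (V k).ncard * p ≤ ∑ _k : Fin R, p ^ (w + 1) := by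
          refine Finset.sum_le_sum fun k _ => ?_
          rw [← pow_succ]
          exact Nat.pow_le_pow_right hp1 (Nat.add_le_add_right (hV k) 1)
      _ = R * p ^ (w + 1) := by simp
  · intro i j hij
    let G : (Option X → (B → ZMod 2) × L) → ℝ := fun a =>
      dlVal b b₀ (fun k => fire k (fun x => (a (some x)).1) (a none).2)
    have h1 : expect D (fun x => f i x * f j x) =
        energy (univ.filter (fun x => u i x = u j x)) G := by
      rw [hcorr, ← pairLaw (u i) (u j) G]
      simp only [hatt, G]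
    have hnn : 0 ≤ energy (univ.filter (fun x => u i x = u j x)) G := by
      unfold energy
      positivity
    rw [h1, abs_of_nonneg hnn]
    have hA : (univ.filter (fun x => u i x = u j x)).card ≤ 2 * C * w := by
      have := hu i j hij
      have h2 : C * (w + 1) ≤ 2 * C * w := by nlinarith
      omega
    have h3 : energy (univ.filter (fun x => u i x = u j x)) (parityF smp) ≤ ε := by
      apply energy_hide
      have h4 := hhide {x | some x ∈ univ.filter (fun x => u i x = u j x)} ?_
      · exact h4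
      · refine le_trans ?_ hA
        rw [← Set.ncard_coe_finset]
        refine Set.ncard_le_ncard_of_injOn some ?_ ?_ (Set.toFinite _)
        · intro x hx
          exact hx
        · intro x _ y _ h
          exact Option.some_injective _ h
    have h5 := energy_cmp (univ.filter (fun x => u i x = u j x)) (parityF smp) G ?_ ?_ δ ?_
    · linarith
    · intro a
      exact sgn_or _
    · intro a
      exact dlVal_or b b₀ _ hb hb₀
    · exact realise_card (fun z => dlVal b b₀ (fun k => fire k z.1 z.2) ≠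
        sgn (∑ β, z.1 (smp z.2 β) β)) δ hfail

end Pool.Agent.SQD
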