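import Pool.Agent.SQD.PolProd

set_option autoImplicit false

/-!
STUB. Reduction lemma (R): modulo the multiples of the functionals vanishing on a subspace `J` of
dimension at most `d`, a product of `d + 1` affine functions has degree at most `d`.

Proof. Let `π : I → I` be linear with `π ι ∈ J` and `π x = x` for `x ∈ J` (`Submodule.exists_isCompl`,
or `LinearMap.exists_leftInverse_of_injective` for `J.subtype`). Let `ℓ i ι = lam i ι + c i` and
`u i = lam i - lam i ∘ π`, a functional which vanishes on `J`; `ℓ i ι = ℓ i (π ι) + u i ι`.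
Telescoping: `∏ i, ℓ i ι = ∏ i, ℓ i (π ι) + ∑ i, (∏ j < i, ℓ j (π ι)) * u i ι * (∏ j > i, ℓ j ι)`. Each
summand is `u i ι` times a product of `d` affine functions, which is `ev b ι (P i)` by `pol_prod`
(`ι ↦ ℓ j (π ι)` is affine). The first term is `f (π ι)` for the function `f = ∏ ℓ i` on `J`,
and every function `f : J → ZMod 2` is the sum over `a ∈ J` of `f a * ∏ (n : Fin (finrank J)), (1 + bJ.coord n x + bJ.coord n a)`
where `bJ` is a basis of `J` (`Module.finBasis`); so `f (π ι)` is a sum of products of `finrank J ≤ d`
affine functions of `ι` (pad with the constant `1 = 0 + 1`), each in the range of `P ↦ (ι ↦ ev b ι P)`, which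
is closed under sums (`map_add`, `map_sum`).
For the induction over the number of factors one may prove more generally, for every list of affine
functions, the telescoping identity.
-/

namespace Pool.Agent.SQD

open Finset

theorem red_prod_getD {α : Type} (x0 : α) (f : α → ZMod 2) (h0 : f x0 = 1) :
    ∀ (l : List α) (d : ℕ), l.length ≤ d →
      ∏ i : Fin d, f (l.getD (i : ℕ) x0) = (l.map f).prod := by
  intro l
  induction l with
  | nil =>
    intro d _
    simp [h0]
  | cons a l ih =>
    intro d hd
    obtain ⟨d', rfl⟩ : ∃ d', d = d' + 1 := ⟨d - 1, by simp at hd; omega⟩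
    rw [Fin.prod_univ_succ]
    have h1 := ih d' (by simp at hd; omega)
    simp only [Fin.val_zero, List.getD_cons_zero, Fin.val_succ, List.getD_cons_succ, List.map_cons,
      List.prod_cons]
    rw [h1]

theorem red_list {I κ : Type} [AddCommGroup I] [Module (ZMod 2) I] [Fintype κ]
    (b : Module.Basis κ (ZMod 2) I) {d : ℕ} (l : List (Module.Dual (ZMod 2) I × ZMod 2))
    (hl : l.length ≤ d) :
    ∃ P : Pol κ d, ∀ ι, ev b ι P = (l.map (fun a => a.1 ι + a.2)).prod := by
  obtain ⟨P, hP⟩ := pol_prod b (d := d) (fun i => (l.getD (i : ℕ) (0, 1)).1)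
    (fun i => (l.getD (i : ℕ) (0, 1)).2)
  refine ⟨P, fun ι => ?_⟩
  rw [hP ι]
  exact red_prod_getD (0, 1) (fun a : Module.Dual (ZMod 2) I × ZMod 2 => a.1 ι + a.2) (by simp)
    l d hl

theorem red_fun {I κ : Type} [AddCommGroup I] [Module (ZMod 2) I] [Finite I] [Fintype κ]
    (b : Module.Basis κ (ZMod 2) I) {d : ℕ} (J : Submodule (ZMod 2) I)
    (hJ : Module.finrank (ZMod 2) J ≤ d) (π : I →ₗ[ZMod 2] J) (f : J → ZMod 2) :
    ∃ Q : Pol κ d, ∀ ι, ev b ι Q = f (π ι) := by
  classical
  have : Fintype J := Fintype.ofFinite J
  have : Module.Finite (ZMod 2) J := inferInstance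
  set bJ := Module.finBasis (ZMod 2) J with hbJ
  have key : ∀ x : J, f x = ∑ a : J, f a *
      ((List.finRange (Module.finrank (ZMod 2) J)).map
        (fun n => bJ.coord n x + (1 + bJ.coord n a))).prod := by
    intro x
    rw [Finset.sum_eq_single x]
    · have : ((List.finRange (Module.finrank (ZMod 2) J)).map
        (fun n => bJ.coord n x + (1 + bJ.coord n x))).prod = 1 := by
        apply List.prod_eq_one
        intro y hy
        rw [List.mem_map] at hy
        obtain ⟨n, _, rfl⟩ := hy
        generalize (bJ.coord n) x = z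
        revert z
        decide
      rw [this, mul_one]
    · intro a _ hax
      have : ((List.finRange (Module.finrank (ZMod 2) J)).map
        (fun n => bJ.coord n x + (1 + bJ.coord n a))).prod = 0 := by
        have hne : ∃ n, bJ.coord n x ≠ bJ.coord n a := by
          by_contra hcon
          push Not at hcon
          apply hax
          symm
          apply bJ.ext_elem
          intro n
          exact hcon n
        obtain ⟨n, hn⟩ := hne
        apply List.prod_eq_zero
        rw [List.mem_map]
        refine ⟨n, List.mem_finRange n, ?_⟩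
        revert hn
        generalize (bJ.coord n) x = z
        generalize (bJ.coord n) a = w
        revert z w
        decide
      rw [this, mul_zero]
    · intro h
      exact absurd (Finset.mem_univ x) h
  have hP : ∀ a : J, ∃ P : Pol κ d, ∀ ι, ev b ι P =
      ((List.finRange (Module.finrank (ZMod 2) J)).map
        (fun n => bJ.coord n (π ι) + (1 + bJ.coord n a))).prod := by
    intro a
    obtain ⟨P, hP⟩ := red_list b (d := d)
      ((List.finRange (Module.finrank (ZMod 2) J)).map
        (fun n => ((bJ.coord n).comp π, 1 + bJ.coord n a))) (by simpa using hJ)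
    refine ⟨P, fun ι => ?_⟩
    rw [hP ι, List.map_map]
    rfl
  choose P hP using hP
  refine ⟨∑ a : J, f a • P a, fun ι => ?_⟩
  rw [map_sum, key (π ι)]
  apply Finset.sum_congr rfl
  intro a _
  rw [map_smul, hP a ι, smul_eq_mul]

theorem red_R {I κ : Type} [AddCommGroup I] [Module (ZMod 2) I] [Finite I] [Fintype κ]
    (b : Module.Basis κ (ZMod 2) I) {d : ℕ} (J : Submodule (ZMod 2) I)
    (hJ : Module.finrank (ZMod 2) J ≤ d) (lam : Fin (d + 1) → Module.Dual (ZMod 2) I)
    (c : Fin (d + 1) → ZMod 2) :
    ∃ (Q : Pol κ d) (u : Fin (d + 1) → Module.Dual (ZMod 2) I) (P : Fin (d + 1) → Pol κ d),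
      (∀ a, ∀ x ∈ J, u a x = 0) ∧
      ∀ ι, ∏ i, (lam i ι + c i) = ev b ι Q + ∑ a, u a ι * ev b ι (P a) := by
  classical
  obtain ⟨π, hπ⟩ := LinearMap.exists_leftInverse_of_injective J.subtype
    (LinearMap.ker_eq_bot.mpr (Submodule.subtype_injective J))
  have hπx : ∀ x (hx : x ∈ J), π x = ⟨x, hx⟩ := by
    intro x hx
    have := LinearMap.congr_fun hπ ⟨x, hx⟩
    simpa using this
  obtain ⟨Q, hQ⟩ := red_fun b J hJ π (fun y => ∏ i, (lam i (y : I) + c i))
  have hP : ∀ a : Fin (d + 1), ∃ P : Pol κ d, ∀ ι, ev b ι P =
      (∏ j ∈ univ with j < a, (lam j ι + c j)) *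
        ∏ j ∈ univ with a < j, (lam j ((π ι : J) : I) + c j) := by
    intro a
    obtain ⟨P, hP⟩ := red_list b (d := d)
      (((univ.filter (fun j => j < a)).toList.map (fun j => (lam j, c j))) ++
       ((univ.filter (fun j => a < j)).toList.map
        (fun j => ((lam j).comp (J.subtype.comp π), c j)))) (by
        simp only [List.length_append, List.length_map, Finset.length_toList]
        have h1 : (univ.filter (fun j : Fin (d + 1) => j < a)) = Finset.Iio a := by
          ext j; simp
        have h2 : (univ.filter (fun j : Fin (d + 1) => a < j)) = Finset.Ioi a := by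
          ext j; simp
        rw [h1, h2, Fin.card_Iio, Fin.card_Ioi]
        omega)
    refine ⟨P, fun ι => ?_⟩
    rw [hP ι, List.map_append, List.prod_append, List.map_map, List.map_map]
    congr 1
    · rw [← Finset.prod_map_toList]
      rfl
    · rw [← Finset.prod_map_toList]
      rfl
  choose P hP using hP
  refine ⟨Q, fun a => lam a - (lam a).comp (J.subtype.comp π), P, ?_, ?_⟩
  · intro a x hx
    simp [hπx x hx]
  · intro ι
    have h1 : ∀ i, lam i ι + c i = (lam i ((π ι : J) : I) + c i) +
        (lam i - (lam i).comp (J.subtype.comp π)) ι := by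
      intro i
      simp only [LinearMap.sub_apply, LinearMap.comp_apply, Submodule.subtype_apply]
      ring
    have h2 := Finset.prod_add_ordered (univ : Finset (Fin (d + 1)))
      (fun i => lam i ((π ι : J) : I) + c i)
      (fun i => (lam i - (lam i).comp (J.subtype.comp π)) ι)
    rw [Finset.prod_congr rfl (fun i _ => h1 i), h2, hQ ι]
    congr 1
    apply Finset.sum_congr rfl
    intro a _
    rw [hP a ι, mul_assoc]
    congr 2
    apply Finset.prod_congr rfl
    intro j _
    exact (h1 j).symm

end Pool.Agent.SQD
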