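import Mathlib

set_option autoImplicit false

/-!
STUB. The lexicographically largest active leaf is the greedy one.

Proof. Suppose `¬ f j t (t j)` for some `j`. By `hne` there is a least `s₀` with `f j t s₀`. As `t`
is active and `¬ f j t (t j)`, `t j < s₀`. Let `t' i = t i` for `i < j`, `t' j = s₀`, and `t' i` the least
element of `S` for `i > j`. `t'` is active: for `i < j` use `hf` and that `t` is active; for `i = j` use
the minimality of `s₀` and `hf`; for `i > j` there is no `s < t' i`. But `toLex t < toLex t'`
(`Pi.Lex`), a contradiction.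
-/

namespace Pool.Agent.SQD

theorem tree_max {N S : Type} [LinearOrder N] [Fintype N] [LinearOrder S] [Fintype S] [Nonempty S]
    (f : N → (N → S) → S → Prop)
    (hf : ∀ j t t' s, (∀ i, i < j → t i = t' i) → (f j t s ↔ f j t' s))
    (hne : ∀ j t, ∃ s, f j t s) (t : N → S) (ht : ∀ j s, s < t j → ¬ f j t s)
    (hmax : ∀ t' : N → S, (∀ j s, s < t' j → ¬ f j t' s) → toLex t' ≤ toLex t) :
    ∀ j, f j t (t j) := by
  classical
  intro j
  by_contra hj
  obtain ⟨s₀, hs₀, hmin⟩ := (wellFounded_lt : WellFounded (fun x y : S => x < y)).has_min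
    {s | f j t s} (hne j t)
  have hs₀' : f j t s₀ := hs₀
  have hmin' : ∀ s, s < s₀ → ¬ f j t s := fun s hs hfs => hmin s hfs hs
  have hlt : t j < s₀ := by
    rcases lt_trichotomy (t j) s₀ with h | h | h
    · exact h
    · rw [← h] at hs₀'
      exact absurd hs₀' hj
    · exact absurd hs₀' (ht j s₀ h)
  obtain ⟨m, hm⟩ := Finite.exists_min (fun s : S => s)
  set t' : N → S := fun i => if i < j then t i else if i = j then s₀ else m with ht'
  have e1 : ∀ i, i < j → t' i = t i := fun i hi => by
    rw [ht']
    simp only [hi, if_true]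
  have e2 : t' j = s₀ := by
    rw [ht']
    simp only [lt_irrefl, if_false, if_true]
  have e3 : ∀ i, j < i → t' i = m := fun i hi => by
    rw [ht']
    simp only [hi.not_gt, hi.ne', if_false]
  have hact : ∀ i s, s < t' i → ¬ f i t' s := by
    intro i s hs
    rcases lt_trichotomy i j with h | h | h
    · rw [e1 i h] at hs
      rw [← hf i t t' s fun k hk => (e1 k (hk.trans h)).symm]
      exact ht i s hs
    · subst h
      rw [e2] at hs
      rw [← hf i t t' s fun k hk => (e1 k hk).symm]
      exact hmin' s hs
    · rw [e3 i h] at hs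
      exact absurd (hm s) (not_le_of_gt hs)
  have hle := hmax t' hact
  have hlt' : toLex t < toLex t' := ⟨j, fun k hk => (e1 k hk).symm, by
    show t j < t' j
    rw [e2]
    exact hlt⟩
  exact absurd hle (not_le_of_gt hlt')

end Pool.Agent.SQD
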